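import Pool.Agent.Q64.FS.Cnt

/-!
Flat sequences which are Zariski dense in a unirational variety.
-/

set_option autoImplicit false

namespace Pool.Agent.Q64.FS

open MvPolynomial Filter Topology

variable {L F : Type} [Field L] [CharZero L] [NormedField F] [ProperSpace F] {w n : ℕ}

/-- a rational number of small absolute value -/
theorem exists_small (σ : L →+* F) : ∃ q : ℚ, q ≠ 0 ∧ ‖σ (q : L)‖ < 1 := by
  by_contra hno
  push Not at hno
  have h1 : ∀ m : ℕ, m ≠ 0 → ‖σ (m : L)‖ = 1 := by
    intro m hm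
    have hm' : (m : L) ≠ 0 := Nat.cast_ne_zero.2 hm
    refine le_antisymm ?_ ?_
    · have h2 := hno ((m : ℚ)⁻¹) (inv_ne_zero (Nat.cast_ne_zero.2 hm))
      push_cast at h2
      rw [map_inv₀, norm_inv] at h2
      exact (one_le_inv₀ (norm_pos_iff.2 ((map_ne_zero σ).2 hm'))).1 h2
    · have h2 := hno (m : ℚ) (Nat.cast_ne_zero.2 hm)
      push_cast at h2
      exact h2
  have h2 : ∀ a b : ℕ, a ≠ b → dist (σ (a : L)) (σ (b : L)) = 1 := by
    intro a b hab
    rw [dist_eq_norm, ← map_sub]
    rcases lt_or_gt_of_ne hab with h | h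
    · have h3 : ((a : L) - b) = -((b - a : ℕ) : L) := by
        rw [Nat.cast_sub h.le]
        ring
      rw [h3, map_neg, norm_neg]
      exact h1 _ (by omega)
    · have h3 : ((a : L) - b) = ((a - b : ℕ) : L) := by
        rw [Nat.cast_sub h.le]
      rw [h3]
      exact h1 _ (by omega)
  have h3 : IsCompact (Metric.closedBall (0 : F) 1) := isCompact_closedBall _ _
  obtain ⟨a, -, φ, hφ, hlim⟩ := h3.tendsto_subseq (x := fun m : ℕ => σ ((m + 1 : ℕ) : L)) (by
    intro m
    rw [mem_closedBall_zero_iff]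
    exact (h1 (m + 1) (by omega)).le)
  have h4 := (hlim.cauchySeq)
  rw [Metric.cauchySeq_iff'] at h4
  obtain ⟨N, hN⟩ := h4 1 one_pos
  have h5 := hN (N + 1) (Nat.le_succ _)
  rw [Function.comp_apply, Function.comp_apply, h2] at h5
  · exact absurd h5 (lt_irrefl _)
  · have := hφ (Nat.lt_succ_self N)
    simp only [Nat.succ_eq_add_one] at this
    omega

/-- a nonzero polynomial does not vanish at some small point -/
theorem exists_small_pt (σ : L →+* F) {P : MvPolynomial (Fin w) L} (hP : P ≠ 0) {δ : ℝ}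
    (hδ : 0 < δ) : ∃ c : Fin w → L, (∀ i, ‖σ (c i)‖ ≤ δ) ∧ eval c P ≠ 0 := by
  classical
  obtain ⟨q, hq, hq1⟩ := exists_small σ
  have hqL : (q : L) ≠ 0 := by exact_mod_cast hq
  obtain ⟨B, hB⟩ : ∃ B : ℝ, ∀ a ∈ Finset.range (P.totalDegree + 1), ‖σ (a : L)‖ ≤ B :=
    ⟨∑ a ∈ Finset.range (P.totalDegree + 1), ‖σ (a : L)‖, fun a ha =>
      Finset.single_le_sum (f := fun a : ℕ => ‖σ (a : L)‖) (fun _ _ => norm_nonneg _) ha⟩
  obtain ⟨N, hN⟩ : ∃ N : ℕ, B * ‖σ (q : L)‖ ^ N ≤ δ := by
    have h1 : Tendsto (fun N : ℕ => B * ‖σ (q : L)‖ ^ N) atTop (𝓝 (B * 0)) :=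
      (tendsto_pow_atTop_nhds_zero_of_lt_one (norm_nonneg _) hq1).const_mul B
    rw [mul_zero] at h1
    obtain ⟨N, hN⟩ := (h1.eventually_lt_const hδ).exists
    exact ⟨N, hN.le⟩
  by_contra hno
  push Not at hno
  apply hP
  apply eq_zero_of_eval_zero_at_prod_finset P
    (fun _ => (Finset.range (P.totalDegree + 1)).image fun e : ℕ => (e : L) * (q : L) ^ N)
  · intro k
    rw [Finset.card_image_of_injective, Finset.card_range]
    · exact Nat.lt_succ_of_le (degreeOf_le_totalDegree P k)
    · intro a b hab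
      exact Nat.cast_injective (mul_right_cancel₀ (pow_ne_zero N hqL) hab)
  · intro x hx
    refine hno x fun i => ?_
    obtain ⟨a, ha, hax⟩ := Finset.mem_image.1 (hx i)
    rw [← hax, map_mul, map_pow, norm_mul, norm_pow]
    exact (mul_le_mul_of_nonneg_right (hB a ha) (by positivity)).trans hN

/-- the differences -/
theorem dif_eq {M : Type} [CommRing M] (x : ℕ → Fin n → M) (l : ℕ) (j : Fin n) :
    dif x l j = ∑ m ∈ Finset.range (l + 1), ((-1) ^ (l - m) * (l.choose m : M)) * x m j := by
  unfold dif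
  rw [fwdDiff_iter_eq_sum_shift]
  refine Finset.sum_congr rfl fun m _ => ?_
  simp

theorem dif_congr {M : Type} [CommRing M] {x x' : ℕ → Fin n → M} {l : ℕ}
    (h : ∀ m, m ≤ l → x m = x' m) (j : Fin n) : dif x l j = dif x' l j := by
  rw [dif_eq, dif_eq]
  refine Finset.sum_congr rfl fun m hm => ?_
  rw [h m (Nat.lt_succ_iff.1 (Finset.mem_range.1 hm))]

theorem dif_sigma (σ : L →+* F) (x : ℕ → Fin n → L) (l : ℕ) (j : Fin n) :
    σ (dif x l j) = dif (fun m j => σ (x m j)) l j := by
  rw [dif_eq, dif_eq, map_sum]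
  refine Finset.sum_congr rfl fun m _ => ?_
  simp

/-- the values of `T` -/
noncomputable def tv (T : Fin n → MvPolynomial (Fin w) L) (z : ℕ → Fin w → L) (m : ℕ)
    (j : Fin n) : L := eval (z m) (T j)

/-- the next approximation -/
def nxt (z : ℕ → Fin w → L) (k : ℕ) (c : Fin w → L) (m : ℕ) (i : Fin w) : L :=
  z m i + (m.choose k : L) * c i

/-- **One step.** -/
theorem step (σ : L →+* F) (T : Fin n → MvPolynomial (Fin w) L) (z : ℕ → Fin w → L) (k E : ℕ)
    {δ : ℝ} (hδ : 0 < δ) {G : MvPolynomial (Fin n) L} (hG : aeval T G ≠ 0) :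
    ∃ c : Fin w → L, (∀ l ≤ E, ∀ j, ‖σ (dif (tv T (nxt z k c)) l j) - σ (dif (tv T z) l j)‖ ≤ δ) ∧
      eval (fun j => tv T (nxt z k c) k j) G ≠ 0 := by
  classical
  -- continuity
  have hcont : ∃ ρ : ℝ, 0 < ρ ∧ ∀ c : Fin w → L, (∀ i, ‖σ (c i)‖ ≤ ρ) →
      ∀ l ≤ E, ∀ j, ‖σ (dif (tv T (nxt z k c)) l j) - σ (dif (tv T z) l j)‖ ≤ δ := by
    let f : (Fin w → F) → ℕ → Fin n → F := fun u l j =>
      dif (fun m j => eval (fun i => σ (z m i) + (m.choose k : F) * u i) (map σ (T j))) l j
    have hf : ∀ l j, Continuous fun u => f u l j := by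
      intro l j
      simp only [f, dif_eq]
      refine continuous_finsetSum _ fun m _ => continuous_const.mul ?_
      refine (MvPolynomial.continuous_eval _).comp (continuous_pi fun i => ?_)
      exact continuous_const.add (continuous_const.mul (continuous_apply i))
    have hval : ∀ (c : Fin w → L) (l : ℕ) (j : Fin n),
        σ (dif (tv T (nxt z k c)) l j) = f (fun i => σ (c i)) l j := by
      intro c l j
      rw [dif_sigma]
      refine congrArg (fun g : ℕ → Fin n → F => dif g l j) ?_
      funext m j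
      unfold tv nxt
      rw [eval_map]
      have h5 := eval₂_comp_left σ (RingHom.id L) (fun i => z m i + (m.choose k : L) * c i) (T j)
      rw [RingHom.comp_id] at h5
      refine h5.trans ?_
      congr 1
      funext i
      simp
    have h0 : ∀ l j, σ (dif (tv T z) l j) = f 0 l j := by
      intro l j
      rw [dif_sigma]
      refine congrArg (fun g : ℕ → Fin n → F => dif g l j) ?_
      funext m j
      unfold tv
      rw [eval_map]
      have h5 := eval₂_comp_left σ (RingHom.id L) (z m) (T j)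
      rw [RingHom.comp_id] at h5
      refine h5.trans ?_
      congr 1
      funext i
      simp
    have h1 : ∀ᶠ u in 𝓝 (0 : Fin w → F), ∀ l ∈ Finset.range (E + 1), ∀ j,
        ‖f u l j - f 0 l j‖ < δ := by
      rw [Filter.eventually_all_finset]
      intro l _
      rw [Filter.eventually_all]
      intro j
      have h2 := ((hf l j).tendsto 0).sub_const (f 0 l j)
      rw [sub_self] at h2
      have h3 := h2.norm
      rw [norm_zero] at h3
      exact h3.eventually_lt_const hδ
    obtain ⟨ρ, hρ, h2⟩ := Metric.eventually_nhds_iff.1 h1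
    refine ⟨ρ / 2, half_pos hρ, fun c hc l hl j => ?_⟩
    rw [hval, h0]
    refine (h2 (y := fun i => σ (c i)) ?_ l (Finset.mem_range.2 (Nat.lt_succ_of_le hl)) j).le
    rw [dist_zero_right]
    refine lt_of_le_of_lt ?_ (half_lt_self hρ)
    rw [pi_norm_le_iff_of_nonneg (half_pos hρ).le]
    exact hc
  obtain ⟨ρ, hρ, hc⟩ := hcont
  -- the nonvanishing
  let P : MvPolynomial (Fin w) L :=
    aeval (fun i : Fin w => (MvPolynomial.C (z k i) + X i : MvPolynomial (Fin w) L)) (aeval T G)
  have hPe : ∀ c : Fin w → L, eval c P = eval (fun i => z k i + c i) (aeval T G) := by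
    intro c
    simp only [P]
    have h1 := MvPolynomial.comp_aeval_apply
      (f := fun i : Fin w => (MvPolynomial.C (z k i) + X i : MvPolynomial (Fin w) L))
      (MvPolynomial.aeval c : MvPolynomial (Fin w) L →ₐ[L] L) (aeval T G)
    rw [← MvPolynomial.coe_aeval_eq_eval, ← MvPolynomial.coe_aeval_eq_eval]
    refine h1.trans ?_
    refine congrArg (fun v : Fin w → L => MvPolynomial.aeval v (aeval T G)) ?_
    funext i
    simp
  have hP : P ≠ 0 := by
    intro h0
    apply hG
    apply MvPolynomial.funext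
    intro u
    have h1 := hPe fun i => u i - z k i
    rw [h0, map_zero] at h1
    rw [map_zero, h1]
    congr 2
    funext i
    ring
  obtain ⟨c, hc1, hc2⟩ := exists_small_pt σ hP hρ
  refine ⟨c, hc c hc1, ?_⟩
  rw [hPe] at hc2
  have h3 : (nxt z k c k) = fun i => z k i + c i := by
    funext i
    unfold nxt
    rw [Nat.choose_self, Nat.cast_one, one_mul]
  unfold tv
  rw [h3]
  intro h0
  apply hc2
  rw [← h0, ← MvPolynomial.coe_aeval_eq_eval, ← MvPolynomial.coe_aeval_eq_eval]
  have h4 := MvPolynomial.comp_aeval_apply (f := T)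
    (MvPolynomial.aeval (fun i => z k i + c i) : MvPolynomial (Fin w) L →ₐ[L] L) G
  exact h4

/-- the sequence of vectors `z` is polynomial of degree at most `k` -/
def PolyDeg {M : ℕ} (z : ℕ → Fin M → L) (k : ℕ) : Prop :=
  ∀ i, ∃ P : Polynomial L, P.natDegree ≤ k ∧ ∀ m : ℕ, z m i = P.eval (m : L)

omit [CharZero L] in
theorem PolyDeg.dif_zero {M : ℕ} {z : ℕ → Fin M → L} {k : ℕ} (h : PolyDeg z k) {l : ℕ}
    (hl : k < l) (j : Fin M) : dif z l j = 0 := by
  obtain ⟨P, hP, hz⟩ := h j
  have h3 := Polynomial.fwdDiff_iter_eq_zero_of_degree_lt (lt_of_le_of_lt hP hl)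
  have h4 : ∀ (i : ℕ) (m : ℕ), (fwdDiff 1)^[i] (fun m : ℕ => z m j) m =
      (fwdDiff 1)^[i] (fun t : L => P.eval t) (m : L) := by
    intro i
    induction i with
    | zero => intro m; exact hz m
    | succ i ih =>
      intro m
      rw [Function.iterate_succ_apply', Function.iterate_succ_apply', fwdDiff, fwdDiff, ih, ih]
      push_cast
      rfl
  unfold dif
  rw [h4]
  exact congrFun h3 _

theorem PolyDeg.nxt {z : ℕ → Fin w → L} {k : ℕ} (h : PolyDeg z k) (c : Fin w → L) :
    PolyDeg (nxt z k c) k := by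
  intro i
  obtain ⟨P, hP, hz⟩ := h i
  refine ⟨P + Polynomial.C (c i * ((k.factorial : L))⁻¹) * descPochhammer L k, ?_, fun m => ?_⟩
  · refine (Polynomial.natDegree_add_le _ _).trans (max_le hP ?_)
    refine (Polynomial.natDegree_C_mul_le _ _).trans ?_
    rw [descPochhammer_natDegree]
  · unfold FS.nxt
    rw [Polynomial.eval_add, Polynomial.eval_mul, Polynomial.eval_C, ← hz,
      descPochhammer_eval_eq_descFactorial, Nat.descFactorial_eq_factorial_mul_choose]
    have h1 : (k.factorial : L) ≠ 0 := Nat.cast_ne_zero.2 (Nat.factorial_ne_zero k)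
    push_cast
    field_simp

omit [CharZero L] in
theorem PolyDeg.tv (T : Fin n → MvPolynomial (Fin w) L) {z : ℕ → Fin w → L} {k D : ℕ}
    (h : PolyDeg z k) (hD : ∀ j, (T j).totalDegree ≤ D) : PolyDeg (tv T z) (D * k) := by
  choose P hP hz using h
  intro j
  refine ⟨MvPolynomial.aeval P (T j), aeval_natDegree_le _ (hD j) _ hP, fun m => ?_⟩
  unfold FS.tv
  have h1 : ∀ G : MvPolynomial (Fin w) L, (MvPolynomial.aeval P G).eval (m : L) =
      eval (z m) G := by
    intro G
    induction G using MvPolynomial.induction_on with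
    | C a => simp
    | add p q hp hq => rw [map_add, Polynomial.eval_add, hp, hq, map_add]
    | mul_X p i hp => rw [map_mul, Polynomial.eval_mul, hp, map_mul, eval_X, aeval_X, hz]
  exact (h1 _).symm

/-- **Flat sequences which are dense in a unirational variety.** For every embedding `σ` of a
countable field `L` in a locally compact normed field, every sequence `ε` of positive numbers and
every polynomial map `T`, there is a sequence of values of `T` which is flat and lies in no
hypersurface which does not contain the image of `T`. -/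
theorem exists_flat_dense [Countable L] (σ : L →+* F) (T : Fin n → MvPolynomial (Fin w) L)
    {ε : ℕ → ℝ} (hε : ∀ s, 0 < ε s) :
    ∃ x : ℕ → Fin n → L, (∀ m, ∃ u : Fin w → L, ∀ j, x m j = eval u (T j)) ∧ FlatAt σ ε x ∧
      ∀ G : MvPolynomial (Fin n) L, aeval T G ≠ 0 → ∃ m, eval (x m) G ≠ 0 := by
  classical
  have hcount : Countable (MvPolynomial (Fin n) L) := countable_mv n
  have hne : Nonempty {G : MvPolynomial (Fin n) L // aeval T G ≠ 0} :=
    ⟨⟨1, by rw [map_one]; exact one_ne_zero⟩⟩
  obtain ⟨e, he⟩ := exists_surjective_nat {G : MvPolynomial (Fin n) L // aeval T G ≠ 0}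
  obtain ⟨D, hD⟩ : ∃ D, ∀ j, (T j).totalDegree ≤ D :=
    ⟨Finset.univ.sup fun j => (T j).totalDegree, fun j =>
      Finset.le_sup (f := fun j => (T j).totalDegree) (Finset.mem_univ j)⟩
  -- the bounds
  have hδ : ∀ k : ℕ, ∃ δ : ℝ, 0 < δ ∧ ∀ l ≤ D * k, δ ≤ ε l / 2 ^ (k + 1) := by
    intro k
    obtain ⟨l₀, -, h2⟩ := Finset.exists_min_image (Finset.range (D * k + 1)) ε
      ⟨0, Finset.mem_range.2 (Nat.succ_pos _)⟩
    refine ⟨ε l₀ / 2 ^ (k + 1), div_pos (hε _) (by positivity), fun l hl => ?_⟩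
    exact div_le_div_of_nonneg_right (h2 l (Finset.mem_range.2 (Nat.lt_succ_of_le hl)))
      (by positivity)
  choose δ hδ0 hδ1 using hδ
  choose c hc1 hc2 using fun (k : ℕ) (z : ℕ → Fin w → L) =>
    step σ T z k (D * k) (hδ0 k) (e k).2
  let Z : ℕ → ℕ → Fin w → L := fun k => Nat.rec (fun _ _ => 0) (fun k z => nxt z k (c k z)) k
  have hZ0 : Z 0 = fun _ _ => 0 := rfl
  have hZs : ∀ k, Z (k + 1) = nxt (Z k) k (c k (Z k)) := fun k => rfl
  have hdeg : ∀ k, PolyDeg (Z k) k := by
    intro k
    induction k with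
    | zero =>
      intro i
      refine ⟨0, by simp, fun m => ?_⟩
      rw [hZ0, Polynomial.eval_zero]
    | succ k ih =>
      rw [hZs]
      intro i
      obtain ⟨P, hP, hz⟩ := (ih.nxt (c k (Z k))) i
      exact ⟨P, hP.trans (Nat.le_succ k), hz⟩
  have hdeg' : ∀ k, PolyDeg (Z (k + 1)) k := by
    intro k
    rw [hZs]
    exact (hdeg k).nxt _
  have hstab : ∀ m k, m < k → Z k m = Z (m + 1) m := by
    intro m k hk
    induction k, hk using Nat.le_induction with
    | base => rfl
    | succ k hk ih =>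
      rw [hZs, ← ih]
      funext i
      unfold nxt
      rw [Nat.choose_eq_zero_of_lt hk, Nat.cast_zero, zero_mul, add_zero]
  let x : ℕ → Fin n → L := fun m j => tv T (Z (m + 1)) m j
  refine ⟨x, fun m => ⟨Z (m + 1) m, fun j => rfl⟩, ⟨1, fun l hl j => ?_⟩, fun G hG => ?_⟩
  · have h1 : dif x l j = dif (tv T (Z (l + 1))) l j := by
      refine dif_congr (fun m hm => ?_) j
      funext j
      simp only [x, tv]
      rw [hstab m (l + 1) (Nat.lt_succ_of_le hm)]
    rw [h1]
    have h2 : ∀ k, ‖σ (dif (tv T (Z k)) l j)‖ ≤ ∑ i ∈ Finset.range k, ε l / 2 ^ (i + 1) := by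
      intro k
      induction k with
      | zero =>
        rw [Finset.sum_range_zero, ((hdeg 0).tv T hD).dif_zero (by rw [mul_zero]; exact hl),
          map_zero, norm_zero]
      | succ k ih =>
        rw [Finset.sum_range_succ]
        by_cases hlk : l ≤ D * k
        · have h3 := hc1 k (Z k) l hlk j
          rw [← hZs] at h3
          have h4 := norm_add_le (σ (dif (tv T (Z k)) l j))
            (σ (dif (tv T (Z (k + 1))) l j) - σ (dif (tv T (Z k)) l j))
          rw [add_sub_cancel] at h4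
          exact h4.trans (add_le_add ih (h3.trans (hδ1 k l hlk)))
        · rw [((hdeg' k).tv T hD).dif_zero (not_le.1 hlk), map_zero, norm_zero]
          have h5 : 0 ≤ ε l := (hε l).le
          positivity
    refine (h2 (l + 1)).trans ?_
    have h3 : ∑ i ∈ Finset.range (l + 1), ε l / 2 ^ (i + 1) ≤ ε l := by
      have h4 : ∀ N : ℕ, ∑ i ∈ Finset.range N, ε l / 2 ^ (i + 1) = ε l - ε l / 2 ^ N := by
        intro N
        induction N with
        | zero => simp
        | succ N ih =>
          rw [Finset.sum_range_succ, ih, pow_succ]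
          field_simp
          ring
      rw [h4]
      have h5 : 0 ≤ ε l := (hε l).le
      have : 0 ≤ ε l / 2 ^ (l + 1) := by positivity
      linarith
    exact h3
  · obtain ⟨k, hk⟩ := he ⟨G, hG⟩
    refine ⟨k, ?_⟩
    have h1 := hc2 k (Z k)
    rw [hk, ← hZs] at h1
    exact h1

end Pool.Agent.Q64.FS
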