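import Pool.Agent.Q64.FS.Spc
import Pool.Agent.Q64.FS.Und

/-!
Dense flat sequences on varieties dominated by affine spaces; functions constant on curves.
-/

set_option autoImplicit false

namespace Pool.Agent.Q64.FS

open MvPolynomial Filter Topology Pool.Agent.Q64.LC Pool.Agent.TH143.GT Pool.Agent.W602.GT
open Pool.Agent.W603.GR Pool.Agent.W603.PV FF

variable {n : ℕ} {p : Ideal (MvPolynomial (Fin (n + 1)) ℂ)} {Q : MvPolynomial (Fin (n + 1)) ℂ}
  {q : ℕ}

theorem eval_smul_hom {R : Type} [CommRing R] {d : ℕ} {g : MvPolynomial (Fin n) R}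
    (h : g.IsHomogeneous d) (c : R) (a : Fin n → R) : eval (c • a) g = c ^ d * eval a g := by
  rw [eval_eq, eval_eq, Finset.mul_sum]
  refine Finset.sum_congr rfl fun m hm => ?_
  have h1 : ∑ i ∈ m.support, m i = d := by
    have := h (mem_support_iff.1 hm)
    rw [Finsupp.weight_apply] at this
    simpa [Finsupp.sum] using this
  simp only [Pi.smul_apply, smul_eq_mul, mul_pow, Finset.prod_mul_distrib]
  rw [Finset.prod_pow_eq_pow_sum, h1]
  ring

/-- the values of two forms at proportional vectors -/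
theorem prop_forms {R : Type} [Field R] {d : ℕ} {g1 g0 : MvPolynomial (Fin n) R}
    (h1 : g1.IsHomogeneous d) (h0 : g0.IsHomogeneous d) {a b : Fin n → R}
    (h : ∀ j l, a j * b l = a l * b j) : eval a g1 * eval b g0 = eval b g1 * eval a g0 := by
  by_cases ha : a = 0
  · have ha' : a = (0 : R) • b := by rw [zero_smul, ha]
    rw [ha', eval_smul_hom h1, eval_smul_hom h0]
    ring
  · obtain ⟨l, hl⟩ : ∃ l, a l ≠ 0 := by
      by_contra hno
      push Not at hno
      exact ha (funext hno)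
    have hb : b = (b l / a l) • a := by
      funext j
      rw [Pi.smul_apply, smul_eq_mul, div_mul_eq_mul_div, eq_div_iff hl, mul_comm, ← h j l,
        mul_comm]
    rw [hb, eval_smul_hom h1, eval_smul_hom h0]
    ring

/-- a dense sequence is not constant -/
theorem nc_of_dense {K : Type} [Field K] [Algebra ℂ K] {w : ℕ} {y : Fin (n + 1) → K}
    (hy : FunField p Q K w y) (hw : 1 ≤ w) {k : Subfield ℂ} {x : ℕ → Fin (n + 1) → k}
    (hd : SeqDense k p x) : ∃ s t j l, x s j * x t l ≠ x s l * x t j := by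
  by_contra hno
  push Not at hno
  obtain ⟨r, hr⟩ : ∃ r : K, ∀ c : ℂ, r ≠ algebraMap ℂ K c := by
    by_contra h1
    push Not at h1
    have h2 : Algebra.IsAlgebraic ℂ K := ⟨fun r => by
      obtain ⟨c, rfl⟩ := h1 r
      exact isAlgebraic_algebraMap c⟩
    have h3 := hy.sub.dim
    rw [trdeg_eq_zero] at h3
    have h4 : w = 0 := by exact_mod_cast h3.symm
    omega
  obtain ⟨d, g1, g0, h1, h0, hv0, rfl⟩ := exists_frac hy.sub.gen r
  have hg0 : g0 ∉ p := fun h2 => hv0 (hy.sub.mem g0 h2)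
  refine ncs_of_dense hy hd h1 h0 hg0 hr fun s t => prop_forms h1 h0 fun j l => ?_
  exact_mod_cast congrArg (fun z : k => (z : ℂ)) (hno s t j l)

/-- the polynomial with the coefficients `φ (coeff m G)` -/
noncomputable def desc {k : Subfield ℂ} (φ : ℂ →ₗ[k] k) (G : MvPolynomial (Fin n) ℂ) :
    MvPolynomial (Fin n) k :=
  ∑ m ∈ G.support, monomial m (φ (coeff m G))

theorem desc_eval {k : Subfield ℂ} (φ : ℂ →ₗ[k] k) (G : MvPolynomial (Fin n) ℂ)
    (x : Fin n → k) : eval x (desc φ G) = φ (eval (fun j => (x j : ℂ)) G) := by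
  unfold desc
  rw [map_sum, eval_eq, map_sum]
  refine Finset.sum_congr rfl fun m _ => ?_
  have h1 : coeff m G * ∏ i ∈ m.support, (x i : ℂ) ^ m i =
      (∏ i ∈ m.support, x i ^ m i : k) • coeff m G := by
    rw [Algebra.smul_def, mul_comm]
    congr 1
    push_cast
    rfl
  rw [h1, map_smul, eval_monomial, smul_eq_mul, mul_comm]
  rfl

theorem desc_aeval {w : ℕ} {k : Subfield ℂ} (φ : ℂ →ₗ[k] k) (G : MvPolynomial (Fin n) ℂ)
    (T : Fin n → MvPolynomial (Fin w) k) (μ : Fin w →₀ ℕ) :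
    coeff μ (aeval T (desc φ G)) =
      φ (coeff μ (aeval (fun j => MvPolynomial.map k.subtype (T j)) G)) := by
  unfold desc
  rw [map_sum, coeff_sum]
  conv_rhs => rw [G.as_sum, map_sum, coeff_sum, map_sum]
  refine Finset.sum_congr rfl fun m _ => ?_
  rw [aeval_monomial, aeval_monomial]
  have h1 : (m.prod fun i e => (MvPolynomial.map k.subtype (T i)) ^ e) =
      MvPolynomial.map k.subtype (m.prod fun i e => T i ^ e) := by
    rw [Finsupp.prod, Finsupp.prod, map_prod]
    simp only [map_pow]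
  rw [h1, MvPolynomial.algebraMap_eq, MvPolynomial.algebraMap_eq, coeff_C_mul, coeff_C_mul,
    coeff_map]
  have h2 : coeff m G * k.subtype (coeff μ (m.prod fun i e => T i ^ e)) =
      (coeff μ (m.prod fun i e => T i ^ e)) • coeff m G := by
    rw [Algebra.smul_def, mul_comm]
    rfl
  rw [h2, map_smul, smul_eq_mul, mul_comm]

/-- functionals separate points -/
theorem exists_functional (k : Subfield ℂ) {z : ℂ} (hz : z ≠ 0) : ∃ φ : ℂ →ₗ[k] k, φ z ≠ 0 := by
  by_contra hno
  push Not at hno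
  exact hz ((Module.forall_dual_apply_eq_zero_iff k z).1 hno)

/-- **Dense flat sequences on unirational varieties.** -/
theorem dense_of_dom (k : Subfield ℂ) [Countable k] {F : Type} [NormedField F] [ProperSpace F]
    [CharZero F] (σ : k →+* F) {ε : ℕ → ℝ} (hε : ∀ s, 0 < ε s) {w : ℕ}
    (T : Fin (n + 1) → MvPolynomial (Fin w) k)
    (hT : ∀ G : MvPolynomial (Fin (n + 1)) ℂ, G ∈ p →
      aeval (fun j => MvPolynomial.map k.subtype (T j)) G = 0)
    (hd : ∀ G : MvPolynomial (Fin (n + 1)) ℂ, IsForm G →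
      aeval (fun j => MvPolynomial.map k.subtype (T j)) G = 0 → G ∈ p)
    {c : ℂ} (hc : aeval (fun j => MvPolynomial.map k.subtype (T j)) Q = C c) :
    ∃ x : ℕ → Fin (n + 1) → k, (∀ m, ∃ u : Fin w → k, ∀ j, x m j = eval u (T j)) ∧
      (∀ m, ∀ H ∈ p, eval (fun j => (x m j : ℂ)) H = 0) ∧
      (∀ m, eval (fun j => (x m j : ℂ)) Q = c) ∧ FlatAt σ ε x ∧ SeqDense k p x := by
  obtain ⟨x, h1, h2, h3⟩ := exists_flat_dense σ T hε
  have hval : ∀ (m : ℕ) (G : MvPolynomial (Fin (n + 1)) ℂ), ∃ u : Fin w → ℂ,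
      eval (fun j => (x m j : ℂ)) G =
        eval u (aeval (fun j => MvPolynomial.map k.subtype (T j)) G) := by
    intro m G
    obtain ⟨u, hu⟩ := h1 m
    refine ⟨fun i => (u i : ℂ), ?_⟩
    have h4 : ∀ j, (x m j : ℂ) = eval (fun i => (u i : ℂ)) (MvPolynomial.map k.subtype (T j)) := by
      intro j
      rw [hu j]
      exact (eval_map' k.subtype u (T j)).symm
    have h5 := MvPolynomial.comp_aeval_apply (f := fun j => MvPolynomial.map k.subtype (T j))
      (MvPolynomial.aeval (fun i => (u i : ℂ)) : MvPolynomial (Fin w) ℂ →ₐ[ℂ] ℂ) G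
    have h6 : (fun j => (x m j : ℂ)) =
        fun j => eval (fun i => (u i : ℂ)) (MvPolynomial.map k.subtype (T j)) := funext h4
    rw [h6]
    exact h5.symm
  refine ⟨x, h1, fun m H hH => ?_, fun m => ?_, h2, fun G hG hG0 => hd G hG ?_⟩
  · obtain ⟨u, hu⟩ := hval m H
    rw [hu, hT H hH, map_zero]
  · obtain ⟨u, hu⟩ := hval m Q
    rw [hu, hc, eval_C]
  · ext μ
    rw [coeff_zero]
    by_contra hne
    obtain ⟨φ, hφ⟩ := exists_functional k hne
    rw [← desc_aeval] at hφ
    obtain ⟨m, hm⟩ := h3 (desc φ G) fun h4 => hφ (by rw [h4, coeff_zero])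
    rw [desc_eval, hG0 m, map_zero] at hm
    exact hm rfl

/-- **Functions which are constant on all curves** -/
theorem const_of_curves {L F : Type} [Field L] [Countable L] [NormedField F] [ProperSpace F]
    [CharZero F] (σ : L →+* F) : ∃ ε : ℕ → ℝ, (∀ s, 0 < ε s) ∧
    ∀ (n D : ℕ) (V V' : Set (MvPolynomial (Fin n) L)) (g1 g0 : MvPolynomial (Fin n) L), 1 ≤ D →
      (∀ P ∈ V, P.totalDegree ≤ D) →
      (∀ (E : Type) [Field E] [Algebra L E] (T : Fin n → Polynomial E), (∀ P ∈ V, aeval T P = 0) →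
        (∃ P ∈ V', aeval T P ≠ 0) → ∀ s t : E,
        aeval (fun j => (T j).eval s) g1 * aeval (fun j => (T j).eval t) g0 =
          aeval (fun j => (T j).eval t) g1 * aeval (fun j => (T j).eval s) g0) →
      ∀ x : ℕ → Fin n → L, (∀ m, ∀ P ∈ V, eval (x m) P = 0) →
        (∃ m, ∃ P ∈ V', eval (x m) P ≠ 0) → FlatAt σ ε x →
        ∀ s t, eval (x s) g1 * eval (x t) g0 = eval (x t) g1 * eval (x s) g0 := by
  obtain ⟨ε, h1, h2, h3, h4⟩ := local_seq σ
  refine ⟨ε, h1, fun n D V V' g1 g0 hD hV hcur x hx hm hfl s t => ?_⟩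
  obtain ⟨m, P, hP, hPm⟩ := hm
  obtain ⟨L', i1, i2, i3, T, hT, hTV⟩ := h4 n x D V hD hV (fun P hP m => hx m P hP)
    (hfl.gap h3 h2 D) (max m (max s t))
  have hev : ∀ (a : ℕ), a ≤ max m (max s t) → ∀ G : MvPolynomial (Fin n) L,
      aeval (fun j => (T j).eval (a : L')) G = algebraMap L L' (eval (x a) G) := by
    intro a ha G
    have e1 : (fun j => (T j).eval (a : L')) = fun j => algebraMap L L' (x a j) :=
      funext fun j => hT a ha j
    rw [e1, aeval_def]
    exact (eval₂_comp_left (algebraMap L L') (RingHom.id L) (x a) G).symm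
  have h5 := hcur L' T hTV ⟨P, hP, fun h0 => hPm ?_⟩ (s : L') (t : L')
  · rw [hev s ((le_max_left _ _).trans (le_max_right _ _)),
      hev s ((le_max_left _ _).trans (le_max_right _ _)),
      hev t ((le_max_right _ _).trans (le_max_right _ _)),
      hev t ((le_max_right _ _).trans (le_max_right _ _))] at h5
    apply (algebraMap L L').injective
    rw [map_mul, map_mul]
    exact h5
  · apply (algebraMap L L').injective
    rw [map_zero, ← hev m (le_max_left _ _)]
    have h6 := MvPolynomial.comp_aeval_apply (f := T)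
      ((Polynomial.aeval (m : L') : Polynomial L' →ₐ[L'] L').restrictScalars L) P
    simp only [AlgHom.restrictScalars_apply, Polynomial.coe_aeval_eq_eval] at h6
    rw [← h6, h0, Polynomial.eval_zero]

end Pool.Agent.Q64.FS
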