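import Pool.Agent.Q64.FS.Seq

/-!
Arrays and sequences of vectors over a countable field with a place in a locally compact field.
-/

set_option autoImplicit false

namespace Pool.Agent.Q64.FS

open MvPolynomial

/-- **One bound for a countable field and an embedding in a locally compact field.** -/
theorem local_main {K F : Type} [Field K] [Countable K] [NormedField F] [ProperSpace F]
    [CharZero F] (σ : K →+* F) :
    ∃ ε : ℕ → ℝ, (∀ s, 0 < ε s) ∧ (∀ s, ε s ≤ 1) ∧ Antitone ε ∧
    ∀ (d n D : ℕ) (b : (Fin d → ℕ) → Fin n → K) (V : Set (MvPolynomial (Fin n) K)),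
    1 ≤ D → (∀ P ∈ V, P.totalDegree ≤ D) → (∀ P ∈ V, ∀ m, eval (nval b m) P = 0) →
    GapC D ε (fun i j => σ (b i j)) → ∀ r : ℕ, InterpIn V (nval b) r := by
  classical
  have hloc : LocComp (⊤ : Subfield F) := by
    intro R
    have h1 : {x : F | x ∈ (⊤ : Subfield F) ∧ ‖x‖ ≤ R} = Metric.closedBall (0 : F) R := by
      ext x
      rw [mem_closedBall_zero_iff]
      exact ⟨fun h => h.2, fun h => ⟨Subfield.mem_top x, h⟩⟩
    rw [h1]
    exact isCompact_closedBall _ _
  let J : Type := Σ d n : ℕ, Finset (MvPolynomial (Fin n) K) × (Σ r : ℕ, (Box d r → Fin n → K))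
  have hJ : Countable J := by
    have h1 : ∀ n, Countable (MvPolynomial (Fin n) K) := fun n => countable_mv n
    infer_instance
  let W : ∀ j : J, Finset (MvPolynomial (Fin j.2.1) F) := fun j => j.2.2.1.image (map σ)
  obtain ⟨ε, h1, h2, hanti, h3⟩ := diag (J := J) (fun _ => F) (fun _ => ⊤) (fun _ => hloc)
    (fun j => j.1) (fun j => j.2.1) W
    (fun j => max 1 ((W j).sup totalDegree)) (fun j => le_max_left _ _)
    (fun j P hP => (Finset.le_sup (f := totalDegree) hP).trans (le_max_right _ _))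
    (fun j => j.2.2.2.1)
    (fun j m l => if h : m ∈ Finset.Iic (fun _ : Fin j.1 => j.2.2.2.1) then
      σ (j.2.2.2.2 ⟨m, h⟩ l) else 0)
  refine ⟨ε, h1, h2, hanti, fun d n D b V hD hVD hV hb r => ?_⟩
  obtain ⟨V₀, hV₀, hspan⟩ := exists_gens V
  have hsub : V ⊆ (Ideal.span (V₀ : Set (MvPolynomial (Fin n) K)) :
      Set (MvPolynomial (Fin n) K)) := by
    rw [← hspan]
    exact Ideal.subset_span
  let j : J := ⟨d, n, V₀, r, fun m l => nval b m.1 l⟩
  have hWD : max 1 ((W j).sup totalDegree) ≤ D := by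
    refine max_le hD (Finset.sup_le fun P hP => ?_)
    obtain ⟨Q, hQ, rfl⟩ := Finset.mem_image.1 hP
    refine le_trans ?_ (hVD Q (hV₀ hQ))
    exact Finset.sup_mono (support_map_subset _ _)
  obtain ⟨T, hT1, hT2⟩ := h3 j (fun i l => σ (b i l)) (fun i l => Subfield.mem_top _)
    (hb.mono hWD)
    (by
      intro m P hP
      obtain ⟨Q, hQ, rfl⟩ := Finset.mem_image.1 hP
      have h4 : (nval (fun i l => σ (b i l)) m) = fun l => σ (nval b m l) :=
        funext fun l => map_nval σ b m l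
      change eval (nval (fun i l => σ (b i l)) m) (map σ Q) = 0
      rw [h4, eval_map]
      have h5 := eval₂_comp_left σ (RingHom.id K) (nval b m) Q
      rw [RingHom.comp_id] at h5
      change σ (eval (nval b m) Q) = _ at h5
      rw [hV Q (hV₀ hQ) m, map_zero] at h5
      exact h5.symm)
    (by
      intro m hm
      funext l
      have h5 : m ∈ Finset.Iic (fun _ : Fin d => r) := Finset.mem_Iic.2 hm
      change nval (fun i l => σ (b i l)) m l = if h : m ∈ Finset.Iic (fun _ : Fin d => r) then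
        σ (nval b m l) else 0
      rw [dif_pos h5]
      exact map_nval σ b m l)
  refine interpIn_of σ hsub ⟨fun l => map (⊤ : Subfield F).subtype (T l), fun Q hQ => ?_,
    fun m hm l => ?_⟩
  · exact hT1 (map σ Q) (Finset.mem_coe.2 (Finset.mem_image_of_mem _ hQ))
  · have h4 := hT2 m hm l
    refine h4.trans ?_
    have h5 : m ∈ Finset.Iic (fun _ : Fin d => r) := Finset.mem_Iic.2 hm
    change (if h : m ∈ Finset.Iic (fun _ : Fin d => r) then σ (nval b m l) else 0) = _
    rw [dif_pos h5]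

variable {n : ℕ}

/-- The sequence `x` is flat for the embedding `σ` in a normed field: the absolute values of the
components of its `i`-th differences at `0` are at most `ε i` for large `i`. -/
def FlatAt {L F : Type} [Field L] [NormedField F] (σ : L →+* F) (ε : ℕ → ℝ)
    (x : ℕ → Fin n → L) : Prop :=
  ∃ s₀ : ℕ, ∀ i, s₀ ≤ i → ∀ j, ‖σ (dif x i j)‖ ≤ ε i

/-- The sequence `x` has infinitely many approximate gaps for the embedding `σ`: for infinitely many
`M`, the absolute values of the components of its `i`-th differences at `0` are at most `M` for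
`i ≤ M` and at most `ε M` for `M < i ≤ D * M`. -/
def GapAt {L F : Type} [Field L] [NormedField F] (D : ℕ) (σ : L →+* F) (ε : ℕ → ℝ)
    (x : ℕ → Fin n → L) : Prop :=
  ∀ M₀ : ℕ, ∃ M, M₀ ≤ M ∧ (∀ i, i ≤ M → ∀ j, ‖σ (dif x i j)‖ ≤ M) ∧
    ∀ i, M < i → i ≤ D * M → ∀ j, ‖σ (dif x i j)‖ ≤ ε M

theorem FlatAt.gap {L F : Type} [Field L] [NormedField F] {σ : L →+* F} {ε : ℕ → ℝ}
    (hε : Antitone ε) (hε1 : ∀ s, ε s ≤ 1) {x : ℕ → Fin n → L} (h : FlatAt σ ε x) (D : ℕ) :
    GapAt D σ ε x := by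
  obtain ⟨s₀, hs⟩ := h
  have h1 : FlatC ε (fun i j => σ (arr x i j)) := by
    refine ⟨s₀, fun i hi j => ?_⟩
    rw [mx_one] at hi ⊢
    exact hs (i 0) hi j
  intro M₀
  obtain ⟨M, e1, e2, e3⟩ := h1.gap hε hε1 D M₀
  exact ⟨M, e1, fun i hi j => e2 (fun _ => i) (by rw [mx_one]; exact hi) j,
    fun i hi hi' j => e3 (fun _ => i) (by rw [mx_one]; exact hi) (by rw [mx_one]; exact hi') j⟩

/-- the differences of polynomial sequences -/
theorem dif_poly {L : Type} [Field L] {x : ℕ → Fin n → L}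
    (h : ∀ j, ∃ P : Polynomial L, ∀ m : ℕ, x m j = P.eval (m : L)) :
    ∃ s₀ : ℕ, ∀ i, s₀ ≤ i → ∀ j, dif x i j = 0 := by
  classical
  choose P hP using h
  refine ⟨(Finset.univ.sup fun j => (P j).natDegree) + 1, fun i hi j => ?_⟩
  have h2 : (P j).natDegree < i := by
    have : (P j).natDegree ≤ Finset.univ.sup fun j => (P j).natDegree :=
      Finset.le_sup (f := fun j => (P j).natDegree) (Finset.mem_univ j)
    omega
  have h3 := Polynomial.fwdDiff_iter_eq_zero_of_degree_lt h2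
  have h4 : ∀ (i : ℕ) (m : ℕ), (fwdDiff 1)^[i] (fun m : ℕ => x m j) m =
      (fwdDiff 1)^[i] (fun t : L => (P j).eval t) (m : L) := by
    intro i
    induction i with
    | zero => intro m; exact hP j m
    | succ i ih =>
      intro m
      rw [Function.iterate_succ_apply', Function.iterate_succ_apply', fwdDiff, fwdDiff, ih, ih]
      push_cast
      rfl
  unfold dif
  rw [h4]
  exact congrFun h3 _

theorem flatAt_poly {L F : Type} [Field L] [NormedField F] (σ : L →+* F) {ε : ℕ → ℝ}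
    (hε : ∀ s, 0 < ε s) {x : ℕ → Fin n → L}
    (h : ∀ j, ∃ P : Polynomial L, ∀ m : ℕ, x m j = P.eval (m : L)) : FlatAt σ ε x := by
  obtain ⟨s₀, hs⟩ := dif_poly h
  refine ⟨s₀, fun i hi j => ?_⟩
  rw [hs i hi j, map_zero, norm_zero]
  exact (hε i).le

/-- **Sequences with approximate gaps.** -/
theorem local_seq {K F : Type} [Field K] [Countable K] [NormedField F] [ProperSpace F]
    [CharZero F] (σ : K →+* F) :
    ∃ ε : ℕ → ℝ, (∀ s, 0 < ε s) ∧ (∀ s, ε s ≤ 1) ∧ Antitone ε ∧
    ∀ (n : ℕ) (x : ℕ → Fin n → K) (D : ℕ) (V : Set (MvPolynomial (Fin n) K)), 1 ≤ D →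
      (∀ P ∈ V, P.totalDegree ≤ D) → (∀ P ∈ V, ∀ m, eval (x m) P = 0) → GapAt D σ ε x →
      ∀ r, CurveThrough V x r := by
  obtain ⟨ε, h1, h2, h3, h4⟩ := local_main σ
  refine ⟨ε, h1, h2, h3, fun n x D V hD hVD hV hx r => ?_⟩
  refine curve_of_interp (h4 1 n D (arr x) V hD hVD (fun P hP m => by
    rw [nval_arr]
    exact hV P hP (m 0)) (fun M₀ => ?_) r)
  obtain ⟨M, e1, e2, e3⟩ := hx M₀
  refine ⟨M, e1, fun i hi j => ?_, fun i hi hi' j => ?_⟩
  · rw [mx_one] at hi
    exact e2 (i 0) hi j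
  · rw [mx_one] at hi hi'
    exact e3 (i 0) hi hi' j

end Pool.Agent.Q64.FS
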