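import Mathlib

/-!
Embeddings in the complex numbers over a countable field.
-/

set_option autoImplicit false

namespace Pool.Agent.Q64.FS

open MvPolynomial Cardinal

theorem card_le {X : Type} [MetricSpace X] [TopologicalSpace.SeparableSpace X] : #X ≤ 𝔠 := by
  classical
  rcases isEmpty_or_nonempty X with hX | hX
  · rw [mk_eq_zero]
    exact zero_le
  have h1 : ∀ (x : X) (k : ℕ), ∃ i : ℕ, dist (TopologicalSpace.denseSeq X i) x <
      1 / ((k : ℝ) + 1) := by
    intro x k
    obtain ⟨y, hy, hd⟩ := Metric.dense_iff.1 (TopologicalSpace.denseRange_denseSeq X) x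
      (1 / ((k : ℝ) + 1)) (by positivity)
    obtain ⟨i, rfl⟩ := hd
    exact ⟨i, hy⟩
  choose f hf using h1
  have hinj : Function.Injective f := by
    intro x y hxy
    rw [← dist_le_zero]
    refine le_of_forall_pos_lt_add fun δ hδ => ?_
    obtain ⟨k, hk⟩ := exists_nat_one_div_lt (half_pos hδ)
    have h2 := hf x k
    have h3 := hf y k
    rw [hxy] at h2
    calc dist x y ≤ dist (TopologicalSpace.denseSeq X (f y k)) x +
          dist (TopologicalSpace.denseSeq X (f y k)) y := dist_triangle_left _ _ _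
      _ < 0 + δ := by linarith
  have h2 := mk_le_of_injective hinj
  have h3 : #(ℕ → ℕ) = 𝔠 := by simp
  rwa [h3] at h2

theorem exists_emb_over {K F : Type} [Field K] [CharZero K] [Countable K] [Field F]
    (σ : K →+* F) (i : K →+* ℂ) (hF : #F ≤ 𝔠) : ∃ ι : F →+* ℂ, ι.comp σ = i := by
  classical
  let _ : Algebra K F := σ.toAlgebra
  let _ : Algebra K ℂ := i.toAlgebra
  obtain ⟨s, hs⟩ := exists_isTranscendenceBasis K F
  obtain ⟨t, ht⟩ := exists_isTranscendenceBasis K ℂ
  have h1 : #t = 𝔠 := by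
    have h2 := IsAlgClosed.cardinal_eq_cardinal_transcendence_basis_of_aleph0_lt' (R := K)
      (K' := ℂ) _ ht (mk_le_aleph0) (by rw [mk_complex]; exact aleph0_lt_continuum)
    rw [← h2, mk_complex]
  have h2 : #s ≤ #t := by
    rw [h1]
    exact (mk_set_le s).trans hF
  obtain ⟨e⟩ := h2
  let v : s → ℂ := fun a => (e a : ℂ)
  have hv : AlgebraicIndependent K v := ht.1.comp _ e.injective
  let A0 := Algebra.adjoin K (Set.range ((↑) : s → F))
  let ψ : A0 →ₐ[K] ℂ := (aeval v).comp (hs.1.aevalEquiv.symm : A0 →ₐ[K] MvPolynomial s K)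
  have hψ : Function.Injective ψ := by
    have h3 : Function.Injective (aeval v : MvPolynomial s K →ₐ[K] ℂ) := hv
    exact h3.comp hs.1.aevalEquiv.symm.injective
  let _ : Algebra A0 ℂ := ψ.toRingHom.toAlgebra
  have hf1 : FaithfulSMul A0 ℂ := (faithfulSMul_iff_algebraMap_injective A0 ℂ).2 hψ
  have halg : Algebra.IsAlgebraic A0 F := hs.isAlgebraic
  let ι : F →ₐ[A0] ℂ := IsAlgClosed.lift
  refine ⟨ι, ?_⟩
  ext x
  have h3 : σ x = algebraMap A0 F (algebraMap K A0 x) := rfl
  rw [RingHom.comp_apply, h3]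
  have h4 : (ι : F →+* ℂ) (algebraMap A0 F (algebraMap K A0 x)) =
      algebraMap A0 ℂ (algebraMap K A0 x) := ι.commutes _
  rw [h4]
  change ψ (algebraMap K A0 x) = i x
  rw [AlgHom.commutes]
  rfl

end Pool.Agent.Q64.FS
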