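import Pool.Agent.Q64.FS.Sp1
import Pool.Agent.Q64.FS.Cnt
import Pool.Agent.Q64.FS.Ovr
import Pool.Agent.Q64.LC.Uni

/-!
Flat sequences of points over countable subfields of the complex numbers in varieties with finitely
many classes of polynomial curves of bounded degree.
-/

set_option autoImplicit false

namespace Pool.Agent.Q64.FS

open MvPolynomial Filter Topology Pool.Agent.Q64.LC Pool.Agent.TH143.GT Pool.Agent.W602.GT

theorem flatC_arr {n : ℕ} {L F : Type} [Field L] [NormedField F] {σ : L →+* F} {ε : ℕ → ℝ}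
    {x : ℕ → Fin n → L} (h : FlatAt σ ε x) : FlatC ε (fun i j => σ (arr x i j)) := by
  obtain ⟨s₀, hs⟩ := h
  refine ⟨s₀, fun i hi j => ?_⟩
  rw [mx_one] at hi ⊢
  exact hs (i 0) hi j

theorem FlatC.mono {C : Type} [NormedField C] {d n : ℕ} {ε ε' : ℕ → ℝ}
    {b : (Fin d → ℕ) → Fin n → C} (h : FlatC ε b) (s₁ : ℕ) (hs : ∀ s, s₁ ≤ s → ε s ≤ ε' s) :
    FlatC ε' b := by
  obtain ⟨s₀, h1⟩ := h
  exact ⟨max s₀ s₁, fun i hi j => (h1 i ((le_max_left _ _).trans hi) j).trans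
    (hs _ ((le_max_right _ _).trans hi))⟩

/-- one function below countably many functions -/
theorem exists_below {J : Type} [Countable J] (ε : J → ℕ → ℝ) (hε : ∀ j s, 0 < ε j s) :
    ∃ ε' : ℕ → ℝ, (∀ s, 0 < ε' s) ∧ ∀ j, ∃ s₁, ∀ s, s₁ ≤ s → ε' s ≤ ε j s := by
  classical
  obtain ⟨e, he⟩ := exists_injective_nat J
  let ε1 : ℕ → ℕ → ℝ := fun t s => if h : ∃ j, e j = t then ε h.choose s else 1
  have h1 : ∀ t s, 0 < ε1 t s := by
    intro t s
    simp only [ε1]
    split_ifs with h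
    · exact hε _ _
    · exact one_pos
  have h2 : ∀ j s, ε1 (e j) s = ε j s := by
    intro j s
    simp only [ε1]
    rw [dif_pos ⟨j, rfl⟩]
    have h1 : (⟨j, rfl⟩ : ∃ j', e j' = e j).choose = j :=
      he (⟨j, rfl⟩ : ∃ j', e j' = e j).choose_spec
    rw [h1]
  refine ⟨fun s => (Finset.range (s + 1)).inf' ⟨0, by simp⟩ fun t => ε1 t s,
    fun s => (Finset.lt_inf'_iff _).2 fun t _ => h1 _ _, fun j => ⟨e j, fun s hs => ?_⟩⟩
  rw [← h2]
  exact Finset.inf'_le (fun t => ε1 t s) (Finset.mem_range.2 (Nat.lt_succ_of_le hs))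

/-- **Varieties with finitely many classes of curves.** -/
theorem local_surface (k : Subfield ℂ) [Countable k] {F : Type} [NormedField F] [ProperSpace F]
    [CharZero F] (σ : k →+* F) :
    ∃ ε : ℕ → ℝ, (∀ s, 0 < ε s) ∧ ∀ (n : ℕ) (p : Ideal (MvPolynomial (Fin (n + 1)) ℂ))
      (Q : MvPolynomial (Fin (n + 1)) ℂ), OverK k p → CoeffK k Q → (∀ M, FinCl p Q M) →
      ∀ (x : ℕ → Fin (n + 1) → k) (c : ℂ), c ≠ 0 →
      (∀ m, ∀ H ∈ p, eval (fun j => (x m j : ℂ)) H = 0) →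
      (∀ m, eval (fun j => (x m j : ℂ)) Q = c) →
      (∃ s t j l, x s j * x t l ≠ x s l * x t j) → FlatAt σ ε x →
      ∃ T : Fin (n + 1) → Polynomial ℂ, PolyCurve p Q T ∧ ∀ G, IsForm G →
        (∀ z : ℂ, eval (fun j => (T j).eval z) G = 0) →
        ∀ m, eval (fun j => (x m j : ℂ)) G = 0 := by
  classical
  have hsep : SecondCountableTopology F := inferInstance
  obtain ⟨ι, hι⟩ := exists_emb_over σ k.subtype (card_le (X := F))
  have hισ : ∀ a : k, ι (σ a) = (a : ℂ) := fun a => congrArg (fun f : k →+* ℂ => f a) hι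
  have hloc : LocComp (⊤ : Subfield F) := by
    intro R
    have h1 : {x : F | x ∈ (⊤ : Subfield F) ∧ ‖x‖ ≤ R} = Metric.closedBall (0 : F) R := by
      ext x
      rw [mem_closedBall_zero_iff]
      exact ⟨fun h => h.2, fun h => ⟨Subfield.mem_top x, h⟩⟩
    rw [h1]
    exact isCompact_closedBall _ _
  have hmm : ∀ {n : ℕ} (P : MvPolynomial (Fin (n + 1)) k) (u : Fin (n + 1) → F),
      eval (fun j => ι (u j)) (map k.subtype P) = ι (eval u (map σ P)) := by
    intro n P u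
    rw [← hι, ← MvPolynomial.map_map, eval_map']
  have hmk : ∀ {n : ℕ} (P : MvPolynomial (Fin (n + 1)) k) (u : Fin (n + 1) → k),
      eval (fun j => (u j : ℂ)) (map k.subtype P) = (eval u P : k) := fun P u =>
    eval_map' k.subtype u P
  -- the data
  let J : Type := Σ n : ℕ, (Finset (MvPolynomial (Fin (n + 1)) k) ×
    MvPolynomial (Fin (n + 1)) k × k) × (Σ r : ℕ, (Box 1 r → Fin (n + 1) → k))
  have hJ : Countable J := by
    have h1 : ∀ n, Countable (MvPolynomial (Fin n) k) := fun n => countable_mv n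
    infer_instance
  let P : ∀ j : J, Ideal (MvPolynomial (Fin (j.1 + 1)) ℂ) := fun j =>
    Ideal.span (map k.subtype '' (j.2.1.1 : Set (MvPolynomial (Fin (j.1 + 1)) k)))
  let Y : ∀ j : J, (Fin 1 → ℕ) → Fin (j.1 + 1) → F := fun j m l =>
    if h : m ∈ Finset.Iic (fun _ : Fin 1 => j.2.2.1) then σ (j.2.2.2 ⟨m, h⟩ l) else 0
  let V : ∀ j : J, Finset (MvPolynomial (Fin (j.1 + 1)) F) := fun j =>
    (insert (j.2.1.2.1 - MvPolynomial.C j.2.1.2.2) j.2.1.1).image (map σ)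
  have key : ∀ j : J, ∃ ε : ℕ → ℝ, (∀ s, 0 < ε s) ∧
      (j.2.1.2.2 ≠ 0 → (∃ (s t : Box 1 j.2.2.1) (a b : Fin (j.1 + 1)),
        j.2.2.2 s a * j.2.2.2 t b ≠ j.2.2.2 s b * j.2.2.2 t a) →
        (∀ M, FinCl (P j) (map k.subtype j.2.1.2.1) M) →
        ∀ b : (Fin 1 → ℕ) → Fin (j.1 + 1) → F, (∀ i l, b i l ∈ (⊤ : Subfield F)) →
        FlatC ε b → (∀ m, ∀ P ∈ (V j : Set (MvPolynomial (Fin (j.1 + 1)) F)),
          eval (nval b m) P = 0) →
        (∀ m : Fin 1 → ℕ, (∀ k, m k ≤ j.2.2.1) → nval b m = Y j m) →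
        ∃ T : Fin (j.1 + 1) → Polynomial ℂ, PolyCurve (P j) (map k.subtype j.2.1.2.1) T ∧
          ∀ G, IsForm G → (∀ z : ℂ, eval (fun l => (T l).eval z) G = 0) →
          ∀ m, eval (fun l => ι (nval b m l)) G = 0) := by
    intro j
    by_cases hyp : j.2.1.2.2 ≠ 0 ∧ (∃ (s t : Box 1 j.2.2.1) (a b : Fin (j.1 + 1)),
        j.2.2.2 s a * j.2.2.2 t b ≠ j.2.2.2 s b * j.2.2.2 t a) ∧
        (∀ M, FinCl (P j) (map k.subtype j.2.1.2.1) M)
    · obtain ⟨hc, ⟨s, t, a, b, hst⟩, hfin⟩ := hyp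
      have hpc : ∀ (M : ℕ) (c : (Fin 1 → ℕ) → Fin (j.1 + 1) → F), j.2.2.1 ≤ M →
          LevC ⊤ (V j : Set (MvPolynomial (Fin (j.1 + 1)) F)) j.2.2.1 M (Y j) c →
          PolyCurve (P j) (map k.subtype j.2.1.2.1) (cur ι M c) := by
        intro M c hM hc'
        have hev : ∀ P ∈ insert (j.2.1.2.1 - MvPolynomial.C j.2.1.2.2) j.2.1.1, ∀ m : ℕ,
            eval (fun l => ι (nval c (fun _ => m) l)) (map k.subtype P) = 0 := by
          intro P hP m
          rw [hmm, hc'.zero (Finset.mem_coe.2 (Finset.mem_image_of_mem _ hP)), map_zero]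
        have hval : ∀ (u : Box 1 j.2.2.1) (l : Fin (j.1 + 1)),
            (cur ι M c l).eval (((u : Fin 1 → ℕ) 0 : ℕ) : ℂ) = (j.2.2.2 u l : ℂ) := by
          intro u l
          rw [cur_eval ι hc'.sup]
          have h3 : (fun _ : Fin 1 => (u : Fin 1 → ℕ) 0) = (u : Fin 1 → ℕ) := by
            funext l
            rw [Subsingleton.elim l 0]
          rw [h3, hc'.val _ (Finset.mem_Iic.1 u.2)]
          simp only [Y]
          rw [dif_pos u.2, hισ]
        refine ⟨fun H hH _ => ?_, ⟨(j.2.1.2.2 : ℂ), ?_, ?_⟩, ?_⟩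
        · rw [cur_van ι hc'.sup]
          intro m
          have hle : P j ≤ RingHom.ker (eval fun l => ι (nval c (fun _ => m) l)) := by
            refine Ideal.span_le.2 ?_
            rintro _ ⟨P, hP, rfl⟩
            exact hev P (Finset.mem_insert_of_mem (Finset.mem_coe.1 hP)) m
          exact hle hH
        · exact fun h0 => hc (by exact_mod_cast h0)
        · have h3 : ∀ z : ℂ, eval (fun l => (cur ι M c l).eval z)
              (map k.subtype (j.2.1.2.1 - MvPolynomial.C j.2.1.2.2)) = 0 := by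
            rw [cur_van ι hc'.sup]
            exact fun m => hev _ (Finset.mem_insert_self _ _) m
          intro z
          have h4 := h3 z
          rw [map_sub, map_sub, map_C, eval_C, sub_eq_zero] at h4
          exact h4
        · refine ⟨(((s : Fin 1 → ℕ) 0 : ℕ) : ℂ), (((t : Fin 1 → ℕ) 0 : ℕ) : ℂ), a, b,
            fun h0 => hst ?_⟩
          rw [hval, hval, hval, hval] at h0
          exact_mod_cast h0
      obtain ⟨ε, h1, h2⟩ := flat_curve (p := P j) (Q := map k.subtype j.2.1.2.1) hloc ι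
        (V := (V j : Set (MvPolynomial (Fin (j.1 + 1)) F))) (D := max 1 ((V j).sup totalDegree))
        (le_max_left _ _) (fun P hP => (Finset.le_sup (f := totalDegree)
          (Finset.mem_coe.1 hP)).trans (le_max_right _ _)) (r := j.2.2.1) (Y j) hpc hfin
      exact ⟨ε, h1, fun _ _ _ => h2⟩
    · refine ⟨fun _ => 1, fun _ => one_pos, fun g1 g2 g3 => absurd ⟨g1, g2, g3⟩ hyp⟩
  choose ε0 hε0 hkey using key
  obtain ⟨ε, hε, hbel⟩ := exists_below ε0 hε0
  refine ⟨ε, hε, fun n p Q hp hQ hfin x c hc hxp hxQ hnc hfl => ?_⟩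
  obtain ⟨S, rfl⟩ := exists_idx hp
  obtain ⟨Q₀, rfl⟩ := hQ
  obtain ⟨s, t, a, b, hst⟩ := hnc
  let r := max s t
  have hbs : (fun _ : Fin 1 => s) ∈ Finset.Iic (fun _ : Fin 1 => r) :=
    Finset.mem_Iic.2 fun _ => le_max_left _ _
  have hbt : (fun _ : Fin 1 => t) ∈ Finset.Iic (fun _ : Fin 1 => r) :=
    Finset.mem_Iic.2 fun _ => le_max_right _ _
  let j : J := ⟨n, (S, Q₀, eval (x 0) Q₀), r, fun m l => x (m.1 0) l⟩
  have hQm : ∀ m, eval (x m) Q₀ = eval (x 0) Q₀ := by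
    intro m
    have h1 := hxQ m
    rw [hmk, ← hxQ 0, hmk] at h1
    exact_mod_cast h1
  have hval : ∀ m, (nval (fun i l => σ (arr x i l)) m) = fun l => σ (x (m 0) l) := by
    intro m
    funext l
    rw [map_nval, nval_arr]
  obtain ⟨s₁, hs₁⟩ := hbel j
  obtain ⟨T, hT, hTG⟩ := hkey j (fun h0 => hc (by rw [← hxQ 0, hmk]; exact_mod_cast h0))
    ⟨⟨_, hbs⟩, ⟨_, hbt⟩, a, b, hst⟩ hfin (fun i l => σ (arr x i l))
    (fun i l => Subfield.mem_top _) ((flatC_arr hfl).mono s₁ hs₁)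
    (by
      intro m P hP
      obtain ⟨P₀, hP₀, rfl⟩ := Finset.mem_image.1 (Finset.mem_coe.1 hP)
      rw [hval, eval_map']
      rcases Finset.mem_insert.1 hP₀ with rfl | h1
      · rw [map_sub, eval_C]
        have : eval (x (m 0)) Q₀ = j.2.1.2.2 := hQm _
        change σ (eval (x (m 0)) Q₀ - _) = 0
        rw [this, sub_self, map_zero]
      · have h2 := hxp (m 0) (map k.subtype P₀) (Ideal.subset_span ⟨P₀, h1, rfl⟩)
        rw [hmk] at h2
        have h3 : eval (x (m 0)) P₀ = 0 := by exact_mod_cast h2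
        rw [h3, map_zero])
    (by
      intro m hm
      rw [hval]
      funext l
      have h5 : m ∈ Finset.Iic (fun _ : Fin 1 => r) := Finset.mem_Iic.2 hm
      change σ (x (m 0) l) = if h : m ∈ Finset.Iic (fun _ : Fin 1 => r) then
        σ (x (m 0) l) else 0
      rw [dif_pos h5])
  refine ⟨T, hT, fun G hG hG0 m => ?_⟩
  have h1 := hTG G hG hG0 fun _ => m
  rw [hval] at h1
  simp only [hισ] at h1
  exact h1

end Pool.Agent.Q64.FS
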