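import Pool.Agent.Q64.FS.Cpt

/-!
Arrays with small Newton coefficients are close to polynomial arrays.
-/

set_option autoImplicit false

namespace Pool.Agent.Q64.FS

open MvPolynomial Filter Topology

variable {d n : ℕ} {C : Type} [NormedField C]

/-- The Newton coefficients in `F` of the polynomial arrays of degree at most `M` with coefficients
bounded by `M` which satisfy the equations in `V` and have the values `y` on the box of size `r`. -/
structure LevC (F : Subfield C) (V : Set (MvPolynomial (Fin n) C)) (r M : ℕ)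
    (y : (Fin d → ℕ) → Fin n → C) (c : (Fin d → ℕ) → Fin n → C) : Prop where
  mem : ∀ i j, c i j ∈ F
  sup : ∀ i, ¬ (∀ k, i k ≤ M) → c i = 0
  bd : ∀ i j, ‖c i j‖ ≤ M
  eqs : ∀ P ∈ V, aeval (npoly (Finset.Iic fun _ => M) c) P = 0
  val : ∀ m : Fin d → ℕ, (∀ k, m k ≤ r) → nval c m = y m

/-- on the larger box the polynomials are the same -/
theorem npoly_succ {M M' : ℕ} (hM : M ≤ M') {c : (Fin d → ℕ) → Fin n → C}
    (hc : ∀ i, ¬ (∀ k, i k ≤ M) → c i = 0) :
    npoly (Finset.Iic fun _ : Fin d => M') c = npoly (Finset.Iic fun _ : Fin d => M) c := by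
  classical
  funext j
  unfold npoly
  symm
  apply Finset.sum_subset
  · intro i hi
    rw [Finset.mem_Iic] at hi ⊢
    exact fun k => (hi k).trans hM
  · intro i _ hi
    rw [hc i fun h => hi (Finset.mem_Iic.2 h), Pi.zero_apply, C_0, zero_mul]

theorem LevC.mono {F : Subfield C} {V : Set (MvPolynomial (Fin n) C)} {r M M' : ℕ}
    {y : (Fin d → ℕ) → Fin n → C} {c : (Fin d → ℕ) → Fin n → C} (h : LevC F V r M y c)
    (hM : M ≤ M') : LevC F V r M' y c where
  mem := h.mem
  sup := fun i hi => h.sup i fun hi' => hi fun k => (hi' k).trans hM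
  bd := fun i j => (h.bd i j).trans (by exact_mod_cast hM)
  eqs := fun P hP => by
    rw [npoly_succ hM h.sup]
    exact h.eqs P hP
  val := h.val

/-- the equations as closed conditions -/
theorem levC_iff [CharZero C] {F : Subfield C} {V : Set (MvPolynomial (Fin n) C)} {D r M : ℕ}
    (hV : ∀ P ∈ V, P.totalDegree ≤ D)
    {y : (Fin d → ℕ) → Fin n → C} {c : (Fin d → ℕ) → Fin n → C} (h1 : ∀ i j, c i j ∈ F)
    (h2 : ∀ i, ¬ (∀ k, i k ≤ M) → c i = 0) (h3 : ∀ i j, ‖c i j‖ ≤ M)
    (h4 : ∀ m : Fin d → ℕ, (∀ k, m k ≤ D * M) → ∀ P ∈ V, eval (nval c m) P = 0)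
    (h5 : ∀ m : Fin d → ℕ, (∀ k, m k ≤ r) → nval c m = y m) : LevC F V r M y c where
  mem := h1
  sup := h2
  bd := h3
  eqs := fun P hP => npoly_mem (fun i _ hM => h2 i fun h => by
    obtain ⟨k, hk⟩ := hM
    exact absurd (h k) (by omega)) (hV P hP) fun m hm => h4 m hm P hP
  val := h5

/-- **Closeness.** -/
theorem gap_close [CharZero C] {F : Subfield C} (hF : LocComp F)
    {V : Set (MvPolynomial (Fin n) C)} {D : ℕ} (hD : 1 ≤ D) (hV : ∀ P ∈ V, P.totalDegree ≤ D)
    {r M : ℕ} (hrM : r ≤ M) (y : (Fin d → ℕ) → Fin n → C) {η : ℝ} (hη : 0 < η) :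
    ∃ ε : ℝ, 0 < ε ∧ ∀ b : (Fin d → ℕ) → Fin n → C, (∀ i j, b i j ∈ F) →
      (∀ i, (∀ k, i k ≤ M) → ∀ j, ‖b i j‖ ≤ M) →
      (∀ i, (∀ k, i k ≤ D * M) → (∃ k, M < i k) → ∀ j, ‖b i j‖ ≤ ε) →
      (∀ m, (∀ k, m k ≤ D * M) → ∀ P ∈ V, eval (nval b m) P = 0) →
      (∀ m, (∀ k, m k ≤ r) → nval b m = y m) →
      ∃ c, LevC F V r M y c ∧ ∀ i, (∀ k, i k ≤ M) → ∀ j, ‖c i j - b i j‖ ≤ η := by
  classical
  by_contra hcon
  push Not at hcon
  have hMD : M ≤ D * M := Nat.le_mul_of_pos_left M hD
  have hk : ∀ t : ℕ, (0 : ℝ) < 1 / ((t : ℝ) + 1) := fun t => by positivity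
  choose b h1 h2 h3 h4 h5 h6 using fun t : ℕ => hcon _ (hk t)
  -- the compact sets
  let S : (Fin d → ℕ) → Set C := fun i => if ∀ k, i k ≤ M then {x : C | x ∈ F ∧ ‖x‖ ≤ M} else
    if ∀ k, i k ≤ D * M then {x : C | x ∈ F ∧ ‖x‖ ≤ 1} else {0}
  have hS : ∀ i, IsCompact (S i) := by
    intro i
    simp only [S]
    split_ifs
    · exact hF _
    · exact hF _
    · exact isCompact_singleton
  let K : Set ((Fin d → ℕ) → Fin n → C) := {c | ∀ i, c i ∈ {u : Fin n → C | ∀ j, u j ∈ S i}}
  have hK : IsCompact K := isCompact_pi_infinite fun i => isCompact_pi_infinite fun _ => hS i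
  let c : ℕ → (Fin d → ℕ) → Fin n → C := fun t i => if ∀ k, i k ≤ D * M then b t i else 0
  have hcv : ∀ t (m : Fin d → ℕ), (∀ k, m k ≤ D * M) → nval (c t) m = nval (b t) m := by
    intro t m hm
    funext j
    unfold nval
    refine Finset.sum_congr rfl fun i hi => ?_
    rw [Finset.mem_Iic] at hi
    simp only [c]
    rw [if_pos fun k => (hi k).trans (hm k)]
  have hcK : ∀ t, c t ∈ K := by
    intro t i j
    simp only [S, c]
    split_ifs with g1 g2 g2
    · exact ⟨h1 t i j, h2 t i g1 j⟩
    · exact absurd (fun k => (g1 k).trans hMD) g2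
    · refine ⟨h1 t i j, (h3 t i g2 ?_ j).trans ?_⟩
      · by_contra g3
        push Not at g3
        exact g1 g3
      · rw [div_le_one (by positivity)]
        have : (0 : ℝ) ≤ t := Nat.cast_nonneg t
        linarith
    · rfl
  let U : Ultrafilter ℕ := hyperfilter ℕ
  have hU : (U : Filter ℕ) ≤ atTop := Nat.hyperfilter_le_atTop
  obtain ⟨a, haK, ha⟩ := hK.ultrafilter_le_nhds (U.map c) (by
    rw [le_principal_iff, Ultrafilter.mem_coe, Ultrafilter.mem_map]
    exact Filter.mem_of_superset Filter.univ_mem fun t _ => hcK t)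
  have ha' : Tendsto c U (𝓝 a) := ha
  have hco : ∀ i j, Tendsto (fun t => c t i j) U (𝓝 (a i j)) := by
    intro i j
    have h7 : Continuous fun c : (Fin d → ℕ) → Fin n → C => c i j :=
      (continuous_apply j).comp (continuous_apply i)
    exact (h7.tendsto a).comp ha'
  have hnv : ∀ m, Tendsto (fun t => nval (c t) m) U (𝓝 (nval a m)) := fun m =>
    ((continuous_nval m).tendsto a).comp ha'
  have ha0 : ∀ i, (∃ k, M < i k) → a i = 0 := by
    intro i hM
    by_cases hi : ∀ k, i k ≤ D * M
    · funext j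
      have h7 : Tendsto (fun t => c t i j) U (𝓝 0) := by
        refine squeeze_zero_norm (a := fun t : ℕ => 1 / ((t : ℝ) + 1)) (fun t => ?_)
          (tendsto_one_div_add_atTop_nhds_zero_nat.mono_left hU)
        simp only [c]
        rw [if_pos hi]
        exact h3 t i hi hM j
      exact tendsto_nhds_unique (hco i j) h7
    · funext j
      have h7 := haK i j
      simp only [S] at h7
      rw [if_neg (fun h => hi fun k => (h k).trans hMD), if_neg hi] at h7
      exact h7
  have hlev : LevC F V r M y a := by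
    refine levC_iff hV (fun i j => ?_) (fun i hi => ?_) (fun i j => ?_) (fun m hm P hP => ?_)
      (fun m hm => ?_)
    · have h7 := haK i j
      simp only [S] at h7
      split_ifs at h7
      · exact h7.1
      · exact h7.1
      · rw [h7]
        exact F.zero_mem
    · push Not at hi
      exact ha0 i hi
    · by_cases hi : ∀ k, i k ≤ M
      · have h7 := haK i j
        simp only [S] at h7
        rw [if_pos hi] at h7
        exact h7.2
      · push Not at hi
        rw [ha0 i hi, Pi.zero_apply, norm_zero]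
        exact Nat.cast_nonneg M
    · have h7 : Tendsto (fun t => eval (nval (c t) m) P) U (𝓝 (eval (nval a m) P)) :=
        ((MvPolynomial.continuous_eval P).tendsto _).comp (hnv m)
      have h8 : ∀ t, eval (nval (c t) m) P = 0 := by
        intro t
        rw [hcv t m hm]
        exact h4 t m hm P hP
      simp only [h8] at h7
      exact tendsto_nhds_unique h7 tendsto_const_nhds
    · have h7 := hnv m
      have h8 : ∀ t, nval (c t) m = y m := by
        intro t
        rw [hcv t m fun k => ((hm k).trans hrM).trans hMD]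
        exact h5 t m hm
      simp only [h8] at h7
      exact (tendsto_nhds_unique tendsto_const_nhds h7).symm
  -- closeness
  have hev : ∀ᶠ t in (U : Filter ℕ), ∀ i ∈ Finset.Iic (fun _ : Fin d => M), ∀ j,
      ‖a i j - b t i j‖ ≤ η := by
    rw [Filter.eventually_all_finset]
    intro i hi
    rw [Finset.mem_Iic] at hi
    rw [Filter.eventually_all]
    intro j
    have h7 := (hco i j).const_sub (a i j)
    rw [sub_self] at h7
    have h8 := h7.norm
    rw [norm_zero] at h8
    filter_upwards [h8.eventually_lt_const hη] with t ht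
    simp only [c] at ht
    rw [if_pos (fun k => (hi k).trans hMD)] at ht
    exact ht.le
  obtain ⟨t, ht⟩ := hev.exists
  obtain ⟨i, hi, j, hij⟩ := h6 t a hlev
  exact absurd (ht i (Finset.mem_Iic.2 hi) j) (not_le.2 hij)

/-- limits along ultrafilters -/
theorem levC_limit [CharZero C] {F : Subfield C} (hF : LocComp F)
    {V : Set (MvPolynomial (Fin n) C)} {D : ℕ} (hV : ∀ P ∈ V, P.totalDegree ≤ D)
    {r M : ℕ} {y : (Fin d → ℕ) → Fin n → C} {c : ℕ → (Fin d → ℕ) → Fin n → C}
    (hc : ∀ t, LevC F V r M y (c t)) (U : Ultrafilter ℕ) :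
    ∃ a, LevC F V r M y a ∧ Tendsto c U (𝓝 a) := by
  classical
  let K : Set ((Fin d → ℕ) → Fin n → C) :=
    {c | ∀ i, c i ∈ {u : Fin n → C | ∀ j, u j ∈ {x : C | x ∈ F ∧ ‖x‖ ≤ M}}}
  have hK : IsCompact K := isCompact_pi_infinite fun i => isCompact_pi_infinite fun _ => hF _
  obtain ⟨a, haK, ha⟩ := hK.ultrafilter_le_nhds (U.map c) (by
    rw [le_principal_iff, Ultrafilter.mem_coe, Ultrafilter.mem_map]
    exact Filter.mem_of_superset Filter.univ_mem fun t _ i j => ⟨(hc t).mem i j, (hc t).bd i j⟩)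
  have ha' : Tendsto c U (𝓝 a) := ha
  have hco : ∀ i j, Tendsto (fun t => c t i j) U (𝓝 (a i j)) := by
    intro i j
    have h7 : Continuous fun c : (Fin d → ℕ) → Fin n → C => c i j :=
      (continuous_apply j).comp (continuous_apply i)
    exact (h7.tendsto a).comp ha'
  have hnv : ∀ m, Tendsto (fun t => nval (c t) m) U (𝓝 (nval a m)) := fun m =>
    ((continuous_nval m).tendsto a).comp ha'
  refine ⟨a, levC_iff hV (fun i j => (haK i j).1) (fun i hi => ?_) (fun i j => (haK i j).2)
    (fun m hm P hP => ?_) (fun m hm => ?_), ha'⟩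
  · funext j
    have h7 := hco i j
    have h8 : ∀ t, c t i j = 0 := by
      intro t
      rw [(hc t).sup i hi, Pi.zero_apply]
    simp only [h8] at h7
    exact tendsto_nhds_unique h7 tendsto_const_nhds
  · have h7 : Tendsto (fun t => eval (nval (c t) m) P) U (𝓝 (eval (nval a m) P)) :=
      ((MvPolynomial.continuous_eval P).tendsto _).comp (hnv m)
    have h8 : ∀ t, eval (nval (c t) m) P = 0 := by
      intro t
      have h9 := congrArg (eval fun k => (m k : C)) ((hc t).eqs P hP)
      rw [map_zero] at h9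
      rw [← h9]
      have h10 : eval (fun k => (m k : C)) (aeval (npoly (Finset.Iic fun _ => M) (c t)) P) =
          eval (fun j => eval (fun k => (m k : C)) (npoly (Finset.Iic fun _ => M) (c t) j)) P := by
        rw [aeval_def, ← MvPolynomial.coe_aeval_eq_eval, ← MvPolynomial.coe_aeval_eq_eval]
        exact MvPolynomial.comp_aeval_apply (f := npoly (Finset.Iic fun _ => M) (c t))
          (MvPolynomial.aeval fun k => (m k : C)) P
      rw [h10]
      congr 2
      rw [nval_eq_nsum (s := Finset.Iic fun _ => M)]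
      · funext j
        exact (npoly_eval _ (c t) j m).symm
      · intro i _ hi
        exact (hc t).sup i fun h => hi (Finset.mem_Iic.2 h)
    simp only [h8] at h7
    exact tendsto_nhds_unique h7 tendsto_const_nhds
  · have h7 := hnv m
    have h8 : ∀ t, nval (c t) m = y m := fun t => (hc t).val m hm
    simp only [h8] at h7
    exact (tendsto_nhds_unique tendsto_const_nhds h7).symm

end Pool.Agent.Q64.FS
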