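import Pool.Agent.Q64.FS.New

/-!
Arrays with small Newton coefficients: the compactness argument.
-/

set_option autoImplicit false

namespace Pool.Agent.Q64.FS

open MvPolynomial

variable {d n : ℕ}

theorem map_bp {A B : Type} [Field A] [Field B] (f : A →+* B) (e : ℕ) :
    (bp A e).map f = bp B e := by
  unfold bp
  rw [Polynomial.map_mul, Polynomial.map_C, descPochhammer_map, map_inv₀, map_natCast]

theorem map_bpm {A B : Type} [Field A] [Field B] (f : A →+* B) (i : Fin d → ℕ) :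
    map f (bpm A i) = bpm B i := by
  unfold bpm
  rw [map_prod]
  refine Finset.prod_congr rfl fun k _ => ?_
  rw [← map_bp f, Polynomial.aeval_def, Polynomial.aeval_def, Polynomial.hom_eval₂,
    Polynomial.eval₂_map, map_X]
  congr 1
  ext a
  simp

theorem map_npoly {A B : Type} [Field A] [Field B] (f : A →+* B) (s : Finset (Fin d → ℕ))
    (b : (Fin d → ℕ) → Fin n → A) (j : Fin n) :
    map f (npoly s b j) = npoly s (fun i j => f (b i j)) j := by
  unfold npoly
  rw [map_sum]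
  refine Finset.sum_congr rfl fun i _ => ?_
  rw [map_mul, map_C, map_bpm]

theorem map_nval {A B : Type} [Field A] [Field B] (f : A →+* B)
    (b : (Fin d → ℕ) → Fin n → A) (m : Fin d → ℕ) (j : Fin n) :
    nval (fun i j => f (b i j)) m j = f (nval b m j) := by
  unfold nval
  rw [map_sum]
  refine Finset.sum_congr rfl fun i _ => ?_
  rw [map_mul, map_natCast]

section

variable {C : Type} [NormedField C]

/-- The bounded closed subsets of the subfield `F` are compact. -/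
def LocComp (F : Subfield C) : Prop := ∀ R : ℝ, IsCompact {x : C | x ∈ F ∧ ‖x‖ ≤ R}

/-- There is a polynomial map over `F` which satisfies the equations in `V` and has the values `y`
on the box of size `r`. -/
def Interp (F : Subfield C) (V : Set (MvPolynomial (Fin n) C)) (r : ℕ)
    (y : (Fin d → ℕ) → Fin n → C) : Prop :=
  ∃ T : Fin n → MvPolynomial (Fin d) F,
    (∀ P ∈ V, aeval (fun j => map F.subtype (T j)) P = 0) ∧
    ∀ m : Fin d → ℕ, (∀ k, m k ≤ r) → ∀ j,
      eval (fun k => (m k : C)) (map F.subtype (T j)) = y m j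

theorem continuous_nval (m : Fin d → ℕ) :
    Continuous fun b : (Fin d → ℕ) → Fin n → C => nval b m := by
  refine continuous_pi fun j => ?_
  unfold nval
  refine continuous_finsetSum _ fun i _ => continuous_const.mul ?_
  exact (continuous_apply j).comp (continuous_apply i)

/-- **The gap.** -/
theorem gap [CharZero C] {F : Subfield C} (hF : LocComp F) {V : Set (MvPolynomial (Fin n) C)}
    {D : ℕ} (hD : 1 ≤ D) (hV : ∀ P ∈ V, P.totalDegree ≤ D) {r M : ℕ} (hrM : r ≤ M)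
    (y : (Fin d → ℕ) → Fin n → C) (hno : ¬ Interp F V r y) :
    ∃ ε : ℝ, 0 < ε ∧ ∀ b : (Fin d → ℕ) → Fin n → C, (∀ i j, b i j ∈ F) →
      (∀ i, (∀ k, i k ≤ M) → ∀ j, ‖b i j‖ ≤ M) →
      (∀ i, (∀ k, i k ≤ D * M) → (∃ k, M < i k) → ∀ j, ‖b i j‖ ≤ ε) →
      (∀ m, (∀ k, m k ≤ D * M) → ∀ P ∈ V, eval (nval b m) P = 0) →
      (∀ m, (∀ k, m k ≤ r) → nval b m = y m) → False := by
  classical
  by_contra hcon
  push Not at hcon
  have hMD : M ≤ D * M := Nat.le_mul_of_pos_left M hD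
  -- the compact sets
  let S : (Fin d → ℕ) → Set C := fun i => if ∀ k, i k ≤ M then {x : C | x ∈ F ∧ ‖x‖ ≤ M} else
    if ∀ k, i k ≤ D * M then {x : C | x ∈ F ∧ ‖x‖ ≤ 1} else {0}
  have hS : ∀ i, IsCompact (S i) := by
    intro i
    simp only [S]
    split_ifs
    · exact hF _
    · exact hF _
    · exact isCompact_singleton
  let K : Set ((Fin d → ℕ) → Fin n → C) := {c | ∀ i, c i ∈ {u : Fin n → C | ∀ j, u j ∈ S i}}
  have hK : IsCompact K := isCompact_pi_infinite fun i => isCompact_pi_infinite fun _ => hS i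
  let A : ℕ → Set ((Fin d → ℕ) → Fin n → C) := fun t => K ∩ ({c | ∀ i, (∀ k, i k ≤ D * M) →
      (∃ k, M < i k) → ∀ j, ‖c i j‖ ≤ 1 / ((t : ℝ) + 1)} ∩
    ({c | ∀ m : Fin d → ℕ, (∀ k, m k ≤ D * M) → ∀ P ∈ V, eval (nval c m) P = 0} ∩
      {c | ∀ m : Fin d → ℕ, (∀ k, m k ≤ r) → nval c m = y m}))
  have hc : ∀ (i : Fin d → ℕ) (j : Fin n),
      Continuous fun c : (Fin d → ℕ) → Fin n → C => c i j := fun i j =>
    (continuous_apply j).comp (continuous_apply i)
  have hclosed : ∀ t : ℕ, IsClosed ({c : (Fin d → ℕ) → Fin n → C | ∀ i : Fin d → ℕ,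
      (∀ k, i k ≤ D * M) → (∃ k, M < i k) → ∀ j, ‖c i j‖ ≤ 1 / ((t : ℝ) + 1)} ∩
    ({c | ∀ m : Fin d → ℕ, (∀ k, m k ≤ D * M) → ∀ P ∈ V, eval (nval c m) P = 0} ∩
      {c | ∀ m : Fin d → ℕ, (∀ k, m k ≤ r) → nval c m = y m})) := by
    intro t
    refine IsClosed.inter ?_ (IsClosed.inter ?_ ?_)
    · simp only [Set.ofPred_forall]
      exact isClosed_iInter fun i => isClosed_iInter fun _ => isClosed_iInter fun _ =>
        isClosed_iInter fun j => isClosed_le (hc i j).norm continuous_const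
    · simp only [Set.ofPred_forall]
      exact isClosed_iInter fun m => isClosed_iInter fun _ => isClosed_iInter fun P =>
        isClosed_iInter fun _ => isClosed_eq
          ((MvPolynomial.continuous_eval P).comp (continuous_nval m)) continuous_const
    · simp only [Set.ofPred_forall]
      exact isClosed_iInter fun m => isClosed_iInter fun _ =>
        isClosed_eq (continuous_nval m) continuous_const
  have hA : ∀ t, IsCompact (A t) := fun t => hK.inter_right (hclosed t)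
  have hne : ∀ t, (A t).Nonempty := by
    intro t
    obtain ⟨b, h1, h2, h3, h4, h5, -⟩ := hcon (1 / ((t : ℝ) + 1)) (by positivity)
    let c : (Fin d → ℕ) → Fin n → C := fun i => if ∀ k, i k ≤ D * M then b i else 0
    have hcv : ∀ m : Fin d → ℕ, (∀ k, m k ≤ D * M) → nval c m = nval b m := by
      intro m hm
      funext j
      unfold nval
      refine Finset.sum_congr rfl fun i hi => ?_
      rw [Finset.mem_Iic] at hi
      simp only [c]
      rw [if_pos fun k => (hi k).trans (hm k)]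
    refine ⟨c, ?_, ?_, ?_, ?_⟩
    · intro i j
      simp only [S, c]
      split_ifs with g1 g2 g2
      · exact ⟨h1 i j, h2 i g1 j⟩
      · exact absurd (fun k => (g1 k).trans hMD) g2
      · refine ⟨h1 i j, (h3 i g2 ?_ j).trans ?_⟩
        · by_contra g3
          push Not at g3
          exact g1 g3
        · rw [div_le_one (by positivity)]
          have : (0 : ℝ) ≤ t := Nat.cast_nonneg t
          linarith
      · rfl
    · intro i hi hM j
      simp only [c]
      rw [if_pos hi]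
      exact h3 i hi hM j
    · intro m hm P hP
      rw [hcv m hm]
      exact h4 m hm P hP
    · intro m hm
      rw [hcv m fun k => ((hm k).trans hrM).trans hMD]
      exact h5 m hm
  have hmono : ∀ t, A (t + 1) ⊆ A t := by
    rintro t c ⟨g1, g2, g3⟩
    refine ⟨g1, fun i hi hM j => (g2 i hi hM j).trans ?_, g3⟩
    refine one_div_le_one_div_of_le (by positivity) ?_
    push_cast
    linarith
  obtain ⟨c, hcA⟩ := IsCompact.nonempty_iInter_of_sequence_nonempty_isCompact_isClosed A hmono hne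
    (hA 0) (fun t => (hA t).isClosed)
  rw [Set.mem_iInter] at hcA
  have hc0 : ∀ i, (∀ k, i k ≤ D * M) → (∃ k, M < i k) → c i = 0 := by
    intro i hi hM
    funext j
    rw [Pi.zero_apply, ← norm_le_zero_iff]
    refine le_of_forall_pos_lt_add fun δ hδ => ?_
    obtain ⟨t, ht⟩ := exists_nat_one_div_lt hδ
    rw [zero_add]
    exact ((hcA t).2.1 i hi hM j).trans_lt ht
  have hcF : ∀ i j, c i j ∈ F := by
    intro i j
    have h1 := (hcA 0).1 i j
    simp only [S] at h1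
    split_ifs at h1
    · exact h1.1
    · exact h1.1
    · rw [h1]
      exact F.zero_mem
  let b : (Fin d → ℕ) → Fin n → F := fun i j => ⟨c i j, hcF i j⟩
  have hmap : ∀ j, map F.subtype (npoly (Finset.Iic fun _ => M) b j) =
      npoly (Finset.Iic fun _ => M) c j := fun j => map_npoly F.subtype _ b j
  apply hno
  refine ⟨npoly (Finset.Iic fun _ => M) b, fun P hP => ?_, fun m hm j => ?_⟩
  · simp only [hmap]
    exact npoly_mem hc0 (hV P hP) fun m hm => (hcA 0).2.2.1 m hm P hP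
  · rw [hmap, npoly_val hc0 (fun k => ((hm k).trans hrM).trans hMD) j]
    exact congrFun ((hcA 0).2.2.2 m hm) j

/-- the maximum of the coordinates -/
def mx (i : Fin d → ℕ) : ℕ := Finset.univ.sup i

theorem le_mx (i : Fin d → ℕ) (k : Fin d) : i k ≤ mx i := Finset.le_sup (Finset.mem_univ k)

theorem mx_le {i : Fin d → ℕ} {M : ℕ} : mx i ≤ M ↔ ∀ k, i k ≤ M := by
  unfold mx
  rw [Finset.sup_le_iff]
  exact ⟨fun h k => h k (Finset.mem_univ k), fun h k _ => h k⟩

/-- The Newton coefficients `b` are finally bounded by `ε`. -/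
def FlatC (ε : ℕ → ℝ) (b : (Fin d → ℕ) → Fin n → C) : Prop :=
  ∃ s₀ : ℕ, ∀ i, s₀ ≤ mx i → ∀ j, ‖b i j‖ ≤ ε (mx i)

/-- The Newton coefficients `b` have infinitely many approximate gaps: for infinitely many `M`, they
are at most `M` for `i ≤ M` and at most `ε M` for `M < i ≤ D * M`. -/
def GapC (D : ℕ) (ε : ℕ → ℝ) (b : (Fin d → ℕ) → Fin n → C) : Prop :=
  ∀ M₀ : ℕ, ∃ M, M₀ ≤ M ∧ (∀ i, mx i ≤ M → ∀ j, ‖b i j‖ ≤ M) ∧
    ∀ i, M < mx i → mx i ≤ D * M → ∀ j, ‖b i j‖ ≤ ε M

theorem GapC.mono {D D' : ℕ} {ε : ℕ → ℝ} {b : (Fin d → ℕ) → Fin n → C} (h : GapC D ε b)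
    (hD : D' ≤ D) : GapC D' ε b := by
  intro M₀
  obtain ⟨M, h1, h2, h3⟩ := h M₀
  exact ⟨M, h1, h2, fun i hi hi' => h3 i hi (hi'.trans (Nat.mul_le_mul_right _ hD))⟩

theorem FlatC.gap {ε : ℕ → ℝ} (hε : Antitone ε) (hε1 : ∀ s, ε s ≤ 1)
    {b : (Fin d → ℕ) → Fin n → C} (h : FlatC ε b) (D : ℕ) : GapC D ε b := by
  intro M₀
  obtain ⟨s₀, hs₀⟩ := h
  obtain ⟨N0, hN0⟩ : ∃ N0 : ℕ, ∀ i ∈ Finset.Iic (fun _ : Fin d => s₀), ∀ l, ‖b i l‖ ≤ N0 := by
    obtain ⟨N0, hN0⟩ := exists_nat_ge (∑ i ∈ Finset.Iic (fun _ : Fin d => s₀), ∑ l, ‖b i l‖)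
    refine ⟨N0, fun i hi l => le_trans ?_ hN0⟩
    refine le_trans ?_ (Finset.single_le_sum
      (f := fun i => ∑ l, ‖b i l‖) (fun i _ => Finset.sum_nonneg fun l _ => norm_nonneg _) hi)
    exact Finset.single_le_sum (f := fun l => ‖b i l‖) (fun l _ => norm_nonneg _)
      (Finset.mem_univ l)
  let M := max (max s₀ M₀) (max N0 1)
  have m1 : s₀ ≤ M := (le_max_left _ _).trans (le_max_left _ _)
  have m2 : M₀ ≤ M := (le_max_right _ _).trans (le_max_left _ _)
  have m4 : N0 ≤ M := (le_max_left _ _).trans (le_max_right _ _)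
  have m5 : 1 ≤ M := (le_max_right _ _).trans (le_max_right _ _)
  refine ⟨M, m2, fun i hi l => ?_, fun i hi _ l => ?_⟩
  · rcases le_or_gt s₀ (mx i) with h | h
    · refine (hs₀ i h l).trans ((hε1 _).trans ?_)
      exact_mod_cast m5
    · refine (hN0 i (Finset.mem_Iic.2 fun k => (le_mx i k).trans h.le) l).trans ?_
      exact_mod_cast m4
  · exact (hs₀ i (m1.trans hi.le) l).trans (hε hi.le)

end

/-- **Countably many conditions.** -/
theorem diag {J : Type} [Countable J] (C : J → Type) [∀ j, NormedField (C j)]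
    [∀ j, CharZero (C j)] (F : ∀ j, Subfield (C j)) (hF : ∀ j, LocComp (F j)) (d n : J → ℕ)
    (V : ∀ j, Finset (MvPolynomial (Fin (n j)) (C j))) (D : J → ℕ) (hD : ∀ j, 1 ≤ D j)
    (hVD : ∀ j, ∀ P ∈ V j, P.totalDegree ≤ D j) (r : J → ℕ)
    (y : ∀ j, (Fin (d j) → ℕ) → Fin (n j) → C j) :
    ∃ ε : ℕ → ℝ, (∀ s, 0 < ε s) ∧ (∀ s, ε s ≤ 1) ∧ Antitone ε ∧
      ∀ j (b : (Fin (d j) → ℕ) → Fin (n j) → C j), (∀ i l, b i l ∈ F j) → GapC (D j) ε b →
        (∀ m, ∀ P ∈ V j, eval (nval b m) P = 0) →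
        (∀ m : Fin (d j) → ℕ, (∀ k, m k ≤ r j) → nval b m = y j m) →
        Interp (F j) (V j : Set (MvPolynomial (Fin (n j)) (C j))) (r j) (y j) := by
  classical
  obtain ⟨e, he⟩ := exists_injective_nat J
  have key : ∀ (j : J) (M : ℕ), ∃ ε : ℝ, 0 < ε ∧ (r j ≤ M →
      ¬ Interp (F j) (V j : Set (MvPolynomial (Fin (n j)) (C j))) (r j) (y j) →
      ∀ b : (Fin (d j) → ℕ) → Fin (n j) → C j, (∀ i l, b i l ∈ F j) →
      (∀ i, (∀ k, i k ≤ M) → ∀ l, ‖b i l‖ ≤ M) →
      (∀ i, (∀ k, i k ≤ D j * M) → (∃ k, M < i k) → ∀ l, ‖b i l‖ ≤ ε) →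
      (∀ m, (∀ k, m k ≤ D j * M) →
        ∀ P ∈ (V j : Set (MvPolynomial (Fin (n j)) (C j))), eval (nval b m) P = 0) →
      (∀ m, (∀ k, m k ≤ r j) → nval b m = y j m) → False) := by
    intro j M
    by_cases h1 : r j ≤ M
    · by_cases h2 : Interp (F j) (V j : Set (MvPolynomial (Fin (n j)) (C j))) (r j) (y j)
      · exact ⟨1, one_pos, fun _ h3 => absurd h2 h3⟩
      · obtain ⟨ε, hε, h3⟩ := gap (hF j) (hD j)
          (fun P hP => hVD j P (Finset.mem_coe.1 hP)) h1 (y j) h2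
        exact ⟨ε, hε, fun _ _ => h3⟩
    · exact ⟨1, one_pos, fun h3 => absurd h3 h1⟩
  choose ε0 hε0 hkey using key
  let ε1 : ℕ → ℕ → ℝ := fun t M => if h : ∃ j, e j = t then ε0 h.choose M else 1
  have hε1 : ∀ t M, 0 < ε1 t M := by
    intro t M
    simp only [ε1]
    split_ifs with h
    · exact hε0 _ _
    · exact one_pos
  have he1 : ∀ j M, ε1 (e j) M = ε0 j M := by
    intro j M
    simp only [ε1]
    rw [dif_pos ⟨j, rfl⟩]
    have h1 : (⟨j, rfl⟩ : ∃ j', e j' = e j).choose = j := he (⟨j, rfl⟩ : ∃ j', e j' = e j).choose_spec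
    rw [h1]
  let ε : ℕ → ℝ := fun s => min 1 ((Finset.range (s + 1) ×ˢ Finset.range (s + 1)).inf'
    ⟨(0, 0), by simp⟩ fun q => ε1 q.1 q.2)
  have hε : ∀ s, 0 < ε s := fun s => lt_min one_pos ((Finset.lt_inf'_iff _).2 fun q _ => hε1 _ _)
  have hε' : ∀ s t M, t ≤ s → M ≤ s → ε s ≤ ε1 t M := by
    intro s t M ht hM
    refine (min_le_right _ _).trans ?_
    exact Finset.inf'_le (fun q : ℕ × ℕ => ε1 q.1 q.2) (b := (t, M)) (Finset.mem_product.2
      ⟨Finset.mem_range.2 (Nat.lt_succ_of_le ht), Finset.mem_range.2 (Nat.lt_succ_of_le hM)⟩)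
  have hanti : Antitone ε := by
    intro s s' hss
    refine le_min (min_le_left _ _) ((Finset.le_inf'_iff _ _).2 fun q hq => ?_)
    obtain ⟨h1, h2⟩ := Finset.mem_product.1 hq
    rw [Finset.mem_range, Nat.lt_succ_iff] at h1 h2
    exact hε' s' q.1 q.2 (h1.trans hss) (h2.trans hss)
  refine ⟨ε, hε, fun s => min_le_left _ _, hanti, fun j b hb hflat hV hy => ?_⟩
  by_contra hno
  obtain ⟨M, hM, g1, g2⟩ := hflat (max (r j) (e j))
  have m2 : r j ≤ M := (le_max_left _ _).trans hM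
  have m3 : e j ≤ M := (le_max_right _ _).trans hM
  refine hkey j M m2 hno b hb (fun i hi l => g1 i (mx_le.2 hi) l) (fun i hi hiM l => ?_)
    (fun m _ P hP => hV m P (Finset.mem_coe.1 hP)) (fun m hm => hy m hm)
  obtain ⟨k, hk⟩ := hiM
  refine (g2 i (hk.trans_le (le_mx i k)) (mx_le.2 hi) l).trans ?_
  rw [← he1 j M]
  exact hε' _ _ _ m3 le_rfl

end Pool.Agent.Q64.FS
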