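import Pool.Agent.Q64.FS.Pdc

/-!
Flat arrays of points with coordinates in number fields.
-/

set_option autoImplicit false

namespace Pool.Agent.Q64.FS

open MvPolynomial

/-- A place of the field `L`: an embedding in `ℂ`, or an embedding in `ℂ_[p]` for a prime
number `p`. -/
inductive Plc (L : Type) [Field L] : Type
  | inf (τ : L →+* ℂ) : Plc L
  | fin (p : ℕ) (hp : Fact p.Prime) (τ : L →+* ℂ_[p]) : Plc L

/-- The absolute value of the place `v`. -/
noncomputable def Plc.abs {L : Type} [Field L] : Plc L → L → ℝ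
  | .inf τ, a => ‖τ a‖
  | .fin _ _ τ, a => ‖τ a‖

/-- The Newton coefficients `b` are finally bounded by `ε` at the place `v`: for all but finitely
many `i`, the absolute values of the components of `b i` are at most `ε s`, where `s` is the largest
component of `i`. -/
def Flat {L : Type} [Field L] (v : Plc L) (ε : ℕ → ℝ) {d n : ℕ}
    (b : (Fin d → ℕ) → Fin n → L) : Prop :=
  ∃ s₀ : ℕ, ∀ i : Fin d → ℕ, s₀ ≤ mx i → ∀ j, v.abs (b i j) ≤ ε (mx i)

/-- The Newton coefficients `b` have infinitely many approximate gaps at the place `v`: for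
infinitely many `M`, the absolute values of the components of `b i` are at most `M` if the largest
component of `i` is at most `M`, and at most `ε M` if it is between `M + 1` and `D * M`. -/
def GapFlat {L : Type} [Field L] (D : ℕ) (v : Plc L) (ε : ℕ → ℝ) {d n : ℕ}
    (b : (Fin d → ℕ) → Fin n → L) : Prop :=
  ∀ M₀ : ℕ, ∃ M, M₀ ≤ M ∧ (∀ i, mx i ≤ M → ∀ j, v.abs (b i j) ≤ M) ∧
    ∀ i, M < mx i → mx i ≤ D * M → ∀ j, v.abs (b i j) ≤ ε M

/-- specialization -/
theorem spec_fin {k A : Type} [Field k] [CommRing A] [IsDomain A] [Algebra k A]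
    (hft : Algebra.FiniteType k A) {c : A} (hc : c ≠ 0) :
    ∃ (k' : Type) (_ : Field k') (_ : Algebra k k') (_ : FiniteDimensional k k')
      (χ : A →ₐ[k] k'), χ c ≠ 0 := by
  let B := Localization.Away c
  have hB : IsDomain B := IsLocalization.isDomain_localization
    (powers_le_nonZeroDivisors_of_noZeroDivisors hc)
  have hBft : Algebra.FiniteType k B := by
    have h1 : Algebra.FiniteType A B := IsLocalization.finiteType_of_monoid_fg (Submonoid.powers c) B
    exact hft.trans h1
  obtain ⟨m, hm⟩ := Ideal.exists_maximal B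
  let _ : Field (B ⧸ m) := Ideal.Quotient.field m
  have hft' : Algebra.FiniteType k (B ⧸ m) :=
    Algebra.FiniteType.of_surjective (Ideal.Quotient.mkₐ k m) Ideal.Quotient.mk_surjective
  have hfin : Module.Finite k (B ⧸ m) := finite_of_finite_type_of_isJacobsonRing k (B ⧸ m)
  refine ⟨B ⧸ m, inferInstance, inferInstance, hfin,
    (Ideal.Quotient.mkₐ k m).comp (IsScalarTower.toAlgHom k A B), ?_⟩
  have h1 : IsUnit (algebraMap A B c) := IsLocalization.Away.algebraMap_isUnit c
  exact (h1.map (Ideal.Quotient.mkₐ k m)).ne_zero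

/-- finitely many polynomials are defined over a finitely generated ring -/
theorem exists_fg {k E : Type} [Field k] [Field E] [Algebra k E] {d n : ℕ}
    (T : Fin n → MvPolynomial (Fin d) E) :
    ∃ (A : Type) (_ : CommRing A) (_ : IsDomain A) (_ : Algebra k A) (_ : Algebra.FiniteType k A)
      (ι : A →ₐ[k] E) (_ : Function.Injective ι) (T' : Fin n → MvPolynomial (Fin d) A),
      ∀ j, map (ι : A →+* E) (T' j) = T j := by
  classical
  let S : Finset E := Finset.univ.biUnion fun j : Fin n => (T j).coeffs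
  let R : Subalgebra k E := Algebra.adjoin k (S : Set E)
  have hR : Algebra.FiniteType k R := by
    rw [← Subalgebra.fg_iff_finiteType]
    exact Subalgebra.fg_adjoin_finset S
  have hlift : ∀ j, ∃ P : MvPolynomial (Fin d) R, map (R.val : R →+* E) P = T j := by
    intro j
    have h2 : T j ∈ Set.range (map (σ := Fin d) (R.val : R →+* E)) := by
      rw [mem_range_map_iff_coeffs_subset]
      intro x hx
      refine ⟨⟨x, Algebra.subset_adjoin ?_⟩, rfl⟩
      exact Finset.mem_coe.2 (Finset.mem_biUnion.2 ⟨j, Finset.mem_univ j, Finset.mem_coe.1 hx⟩)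
    exact h2
  choose T' hT' using hlift
  exact ⟨R, inferInstance, inferInstance, inferInstance, hR, R.val, Subtype.val_injective, T', hT'⟩

theorem map_aeval_mv {k A B : Type} [Field k] [CommRing A] [CommRing B] [Algebra k A] [Algebra k B]
    {d n : ℕ} (f : A →ₐ[k] B) (T : Fin n → MvPolynomial (Fin d) A) (P : MvPolynomial (Fin n) k) :
    map (f : A →+* B) (aeval T P) = aeval (fun j => map (f : A →+* B) (T j)) P :=
  MvPolynomial.comp_aeval_apply (f := T) (MvPolynomial.mapAlgHom f) P

theorem map_eval_nat {A B : Type} [CommRing A] [CommRing B] {d : ℕ} (f : A →+* B)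
    (T : MvPolynomial (Fin d) A) (m : Fin d → ℕ) :
    eval (fun k => (m k : B)) (map f T) = f (eval (fun k => (m k : A)) T) := by
  have h1 := eval₂_comp_left f (RingHom.id A) (fun k => (m k : A)) T
  rw [RingHom.comp_id] at h1
  rw [eval_map]
  refine Eq.trans ?_ h1.symm
  congr 1
  funext k
  rw [Function.comp_apply, map_natCast]

/-- **Descent** to a finite extension. -/
theorem desc_fin {k E : Type} [Field k] [Field E] [Algebra k E] {d n : ℕ}
    (T : Fin n → MvPolynomial (Fin d) E) {G : MvPolynomial (Fin n) k} (hG : aeval T G ≠ 0) :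
    ∃ (k' : Type) (_ : Field k') (_ : Algebra k k') (_ : FiniteDimensional k k')
      (T' : Fin n → MvPolynomial (Fin d) k'),
      (∀ P : MvPolynomial (Fin n) k, aeval T P = 0 → aeval T' P = 0) ∧
      (∀ (m : Fin d → ℕ) (j : Fin n) (a : k),
        eval (fun l => (m l : E)) (T j) = algebraMap k E a →
        eval (fun l => (m l : k')) (T' j) = algebraMap k k' a) ∧ aeval T' G ≠ 0 := by
  obtain ⟨A, i1, i2, i3, hft, ι, hι, T1, hT1⟩ := exists_fg (k := k) T
  have hι' : Function.Injective (ι : A →+* E) := hι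
  have hmap : ∀ P : MvPolynomial (Fin n) k, map (ι : A →+* E) (aeval T1 P) = aeval T P := by
    intro P
    rw [map_aeval_mv]
    congr 2
    funext j
    exact hT1 j
  have hG1 : aeval T1 G ≠ 0 := by
    intro h0
    apply hG
    rw [← hmap, h0, map_zero]
  obtain ⟨α, hα⟩ : ∃ α, coeff α (aeval T1 G) ≠ 0 := by
    by_contra hno
    push Not at hno
    exact hG1 (MvPolynomial.ext _ _ fun α => by rw [hno α, coeff_zero])
  obtain ⟨k', j1, j2, j3, χ, hχ⟩ := spec_fin hft hα
  refine ⟨k', j1, j2, j3, fun j => map (χ : A →+* k') (T1 j), fun P hP => ?_,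
    fun m j a ha => ?_, fun h0 => ?_⟩
  · rw [← map_aeval_mv]
    have h1 : aeval T1 P = 0 := by
      apply map_injective _ hι'
      rw [hmap, hP, map_zero]
    rw [h1, map_zero]
  · have h1 : eval (fun l => (m l : A)) (T1 j) = algebraMap k A a := by
      apply hι
      rw [AlgHom.commutes, ← ha, ← hT1 j, map_eval_nat]
      rfl
    rw [map_eval_nat, h1]
    exact AlgHom.commutes χ a
  · apply hχ
    have h1 := congrArg (coeff α) ((map_aeval_mv χ T1 G).trans h0)
    rw [coeff_map, coeff_zero] at h1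
    exact h1

/-- There is a finite extension `L'` of `L` and a polynomial map over `L'` to the variety given by
the polynomials in `V` with the values `x` on the box of size `r`. -/
def InterpIn {L : Type} [Field L] {d n : ℕ} (V : Set (MvPolynomial (Fin n) L))
    (x : (Fin d → ℕ) → Fin n → L) (r : ℕ) : Prop :=
  ∃ (L' : Type) (_ : Field L') (_ : Algebra L L') (_ : FiniteDimensional L L')
    (T : Fin n → MvPolynomial (Fin d) L'),
    (∀ m : Fin d → ℕ, (∀ k, m k ≤ r) → ∀ j,
      eval (fun k => (m k : L')) (T j) = algebraMap L L' (x m j)) ∧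
    ∀ P ∈ V, aeval T P = 0

/-- The array `x` of vectors has polynomial interpolation: for all `r` there is a finite extension
`L'` of `L` and a polynomial map over `L'` with the same values on the box of size `r` which
satisfies all polynomial equations over `L` which are satisfied by all terms of `x`. -/
def PolyApprox {L : Type} [Field L] {d n : ℕ} (x : (Fin d → ℕ) → Fin n → L) : Prop :=
  ∀ r : ℕ, InterpIn {P | ∀ m, eval (x m) P = 0} x r

/-- finitely many generators -/
theorem exists_gens {L : Type} [Field L] {n : ℕ} (V : Set (MvPolynomial (Fin n) L)) :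
    ∃ V₀ : Finset (MvPolynomial (Fin n) L), (V₀ : Set (MvPolynomial (Fin n) L)) ⊆ V ∧
      Ideal.span V = Ideal.span (V₀ : Set (MvPolynomial (Fin n) L)) := by
  have h1 : (Ideal.span V).FG := IsNoetherian.noetherian _
  obtain ⟨V₀, h2, h3⟩ := (Submodule.fg_span_iff_fg_span_finset_subset V).1 h1
  exact ⟨V₀, h2, h3⟩

theorem interpIn_of {L C : Type} [Field L] [Field C] (τ : L →+* C) {d n : ℕ}
    {x : (Fin d → ℕ) → Fin n → L} {V : Set (MvPolynomial (Fin n) L)}
    {V₀ : Finset (MvPolynomial (Fin n) L)}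
    (hV : V ⊆ (Ideal.span (V₀ : Set (MvPolynomial (Fin n) L)) : Set (MvPolynomial (Fin n) L)))
    {r : ℕ}
    (h : ∃ T : Fin n → MvPolynomial (Fin d) C, (∀ Q ∈ V₀, aeval T (map τ Q) = 0) ∧
        ∀ m : Fin d → ℕ, (∀ k, m k ≤ r) → ∀ j,
          eval (fun k => (m k : C)) (T j) = τ (x m j)) : InterpIn V x r := by
  classical
  obtain ⟨T, h1, h2⟩ := h
  let _ : Algebra L C := τ.toAlgebra
  have hae : ∀ Q : MvPolynomial (Fin n) L, (aeval T Q : MvPolynomial (Fin d) C) =
      aeval T (map τ Q) := by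
    intro Q
    rw [aeval_def, aeval_def, eval₂_map]
    rfl
  have hker : Ideal.span (V₀ : Set (MvPolynomial (Fin n) L)) ≤
      RingHom.ker (aeval T : MvPolynomial (Fin n) L →ₐ[L] MvPolynomial (Fin d) C) := by
    refine Ideal.span_le.2 fun Q hQ => ?_
    change aeval T Q = 0
    rw [hae]
    exact h1 Q hQ
  obtain ⟨L', i1, i2, i3, T', e1, e2, -⟩ := desc_fin (k := L) (E := C) T (G := 1) (by
    rw [map_one]; exact one_ne_zero)
  exact ⟨L', i1, i2, i3, T', fun m hm j => e2 m j _ (h2 m hm j),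
    fun P hP => e1 P (hker (hV hP))⟩

/-- **Arrays with approximate gaps.** -/
theorem gap_main : ∃ ε : ℕ → ℝ, (∀ s, 0 < ε s) ∧ (∀ s, ε s ≤ 1) ∧ Antitone ε ∧
    ∀ (L : Type) [Field L] [NumberField L]
    (v : Plc L) (d n D : ℕ) (b : (Fin d → ℕ) → Fin n → L) (V : Set (MvPolynomial (Fin n) L)),
    1 ≤ D → (∀ P ∈ V, P.totalDegree ≤ D) → (∀ P ∈ V, ∀ m, eval (nval b m) P = 0) →
    GapFlat D v ε b → ∀ r : ℕ, InterpIn V (nval b) r := by
  obtain ⟨ε1, h1, h1', a1, h2⟩ := exists_interp_family (O := Unit) (fun _ => ℂ)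
    (fun _ S hS => locComp_adjoin (K := ℝ) S hS)
  obtain ⟨ε2, h3, -, a2, h4⟩ := exists_interp_family (O := Nat.Primes)
    (fun p => haveI : Fact (p : ℕ).Prime := ⟨p.2⟩; ℂ_[(p : ℕ)])
    (fun p S hS => haveI : Fact (p : ℕ).Prime := ⟨p.2⟩; locComp_adjoin (K := ℚ_[(p : ℕ)]) S hS)
  refine ⟨fun s => min (ε1 s) (ε2 s), fun s => lt_min (h1 s) (h3 s),
    fun s => (min_le_left _ _).trans (h1' s), a1.min a2,
    fun L _ _ v d n D b V hD hVD hV hb r => ?_⟩
  obtain ⟨V₀, hV₀, hspan⟩ := exists_gens V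
  have hsub : V ⊆ (Ideal.span (V₀ : Set (MvPolynomial (Fin n) L)) :
      Set (MvPolynomial (Fin n) L)) := by
    rw [← hspan]
    exact Ideal.subset_span
  cases v with
  | inf τ =>
    refine interpIn_of τ hsub (h2 () L τ d n D b (fun M₀ => ?_) hD V₀
      (fun Q hQ => hVD Q (hV₀ hQ)) (fun Q hQ => hV Q (hV₀ hQ)) r)
    obtain ⟨M, e1, e2, e3⟩ := hb M₀
    exact ⟨M, e1, fun i hi j => e2 i hi j, fun i hi hi' j =>
      (e3 i hi hi' j).trans (min_le_left _ _)⟩
  | fin p hp τ =>
    refine interpIn_of τ hsub (h4 ⟨p, hp.1⟩ L τ d n D b (fun M₀ => ?_) hD V₀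
      (fun Q hQ => hVD Q (hV₀ hQ)) (fun Q hQ => hV Q (hV₀ hQ)) r)
    obtain ⟨M, e1, e2, e3⟩ := hb M₀
    exact ⟨M, e1, fun i hi j => e2 i hi j, fun i hi hi' j =>
      (e3 i hi hi' j).trans (min_le_right _ _)⟩

theorem Flat.gap {L : Type} [Field L] {v : Plc L} {ε : ℕ → ℝ} (hε : Antitone ε)
    (hε1 : ∀ s, ε s ≤ 1) {d n : ℕ} {b : (Fin d → ℕ) → Fin n → L} (h : Flat v ε b) (D : ℕ) :
    GapFlat D v ε b := by
  cases v with
  | inf τ => exact FlatC.gap hε hε1 (b := fun i j => τ (b i j)) h D
  | fin p hp τ => exact FlatC.gap hε hε1 (b := fun i j => τ (b i j)) h D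

/-- **Flat arrays.** There is one bound for all number fields and all places such that all arrays of
vectors with Newton coefficients finally below this bound at one place have polynomial
interpolation. -/
theorem flat_of_gap {ε : ℕ → ℝ} (h1' : ∀ s, ε s ≤ 1) (hanti : Antitone ε)
    {L : Type} [Field L] {v : Plc L} {d n : ℕ} {b : (Fin d → ℕ) → Fin n → L}
    (h : ∀ (D : ℕ) (V : Set (MvPolynomial (Fin n) L)),
      1 ≤ D → (∀ P ∈ V, P.totalDegree ≤ D) → (∀ P ∈ V, ∀ m, eval (nval b m) P = 0) →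
      GapFlat D v ε b → ∀ r : ℕ, InterpIn V (nval b) r) (hb : Flat v ε b) :
    PolyApprox (nval b) := by
  classical
  intro r
  obtain ⟨V₀, hV₀, hspan⟩ := exists_gens {P : MvPolynomial (Fin n) L | ∀ m, eval (nval b m) P = 0}
  let D := max 1 (V₀.sup totalDegree)
  obtain ⟨L', i1, i2, i3, T, e1, e2⟩ := h D (V₀ : Set (MvPolynomial (Fin n) L)) (le_max_left _ _)
    (fun P hP => (Finset.le_sup (f := totalDegree) (Finset.mem_coe.1 hP)).trans (le_max_right _ _))
    (fun P hP => hV₀ hP) (hb.gap hanti h1' D) r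
  refine ⟨L', i1, i2, i3, T, e1, fun P hP => ?_⟩
  have hker : Ideal.span (V₀ : Set (MvPolynomial (Fin n) L)) ≤
      RingHom.ker (aeval T : MvPolynomial (Fin n) L →ₐ[L] MvPolynomial (Fin d) L') := by
    refine Ideal.span_le.2 fun Q hQ => ?_
    exact e2 Q hQ
  have h2 : P ∈ Ideal.span (V₀ : Set (MvPolynomial (Fin n) L)) := by
    rw [← hspan]
    exact Ideal.subset_span hP
  exact hker h2

end Pool.Agent.Q64.FS
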