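import Mathlib

/-!
Newton series of arrays: polynomials with given Newton coefficients.
-/

set_option autoImplicit false

namespace Pool.Agent.Q64.FS

open MvPolynomial

variable {d n : ℕ}

/-- The product of the binomial coefficients. -/
def bin (m i : Fin d → ℕ) : ℕ := ∏ k, (m k).choose (i k)

theorem bin_eq_zero {m i : Fin d → ℕ} (h : ¬ i ≤ m) : bin m i = 0 := by
  rw [Pi.le_def] at h
  push Not at h
  obtain ⟨k, hk⟩ := h
  exact Finset.prod_eq_zero (Finset.mem_univ k) (Nat.choose_eq_zero_of_lt hk)

/-- The array with the Newton coefficients `b`. -/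
def nval {C : Type} [Semiring C] (b : (Fin d → ℕ) → Fin n → C) (m : Fin d → ℕ) (j : Fin n) : C :=
  ∑ i ∈ Finset.Iic m, (bin m i : C) * b i j

/-- the partial sum over `s` -/
def nsum {C : Type} [Semiring C] (s : Finset (Fin d → ℕ)) (b : (Fin d → ℕ) → Fin n → C)
    (m : Fin d → ℕ) (j : Fin n) : C :=
  ∑ i ∈ s, (bin m i : C) * b i j

theorem nval_eq_nsum {C : Type} [Semiring C] {b : (Fin d → ℕ) → Fin n → C} {m : Fin d → ℕ}
    {s : Finset (Fin d → ℕ)} (h : ∀ i, i ≤ m → i ∉ s → b i = 0) : nval b m = nsum s b m := by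
  classical
  funext j
  unfold nval nsum
  have h1 : ∑ i ∈ Finset.Iic m, (bin m i : C) * b i j =
      ∑ i ∈ Finset.Iic m ∩ s, (bin m i : C) * b i j := by
    symm
    apply Finset.sum_subset Finset.inter_subset_left
    intro i hi his
    rw [Finset.mem_inter, not_and] at his
    rw [h i (Finset.mem_Iic.1 hi) (his hi), Pi.zero_apply, mul_zero]
  rw [h1]
  apply Finset.sum_subset Finset.inter_subset_right
  intro i hi his
  rw [bin_eq_zero, Nat.cast_zero, zero_mul]
  intro hle
  exact his (Finset.mem_inter.2 ⟨Finset.mem_Iic.2 hle, hi⟩)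

section field

variable {C : Type} [Field C]

/-- the binomial polynomial -/
noncomputable def bp (C : Type) [Field C] (e : ℕ) : Polynomial C :=
  Polynomial.C ((e.factorial : C)⁻¹) * descPochhammer C e

theorem bp_eval [CharZero C] (e m : ℕ) : (bp C e).eval (m : C) = (m.choose e : C) := by
  unfold bp
  rw [Polynomial.eval_mul, Polynomial.eval_C, descPochhammer_eval_eq_descFactorial,
    Nat.descFactorial_eq_factorial_mul_choose, Nat.cast_mul, inv_mul_cancel_left₀]
  exact_mod_cast Nat.factorial_ne_zero e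

theorem bp_natDegree (e : ℕ) : (bp C e).natDegree ≤ e := by
  unfold bp
  refine (Polynomial.natDegree_C_mul_le _ _).trans ?_
  rw [descPochhammer_natDegree]

/-- the product of the binomial polynomials -/
noncomputable def bpm (C : Type) [Field C] (i : Fin d → ℕ) : MvPolynomial (Fin d) C :=
  ∏ k, Polynomial.aeval (X k : MvPolynomial (Fin d) C) (bp C (i k))

/-- The polynomial with the given Newton coefficients. -/
noncomputable def npoly (s : Finset (Fin d → ℕ)) (b : (Fin d → ℕ) → Fin n → C) (j : Fin n) :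
    MvPolynomial (Fin d) C :=
  ∑ i ∈ s, MvPolynomial.C (b i j) * bpm C i

theorem eval_aeval_X (x : Fin d → C) (k : Fin d) (P : Polynomial C) :
    eval x (Polynomial.aeval (X k : MvPolynomial (Fin d) C) P) = P.eval (x k) := by
  induction P using Polynomial.induction_on' with
  | add P Q h1 h2 => rw [map_add, map_add, h1, h2, Polynomial.eval_add]
  | monomial e a =>
    rw [Polynomial.aeval_monomial, Polynomial.eval_monomial, map_mul, map_pow, eval_X]
    congr 1
    exact eval_C a

theorem bpm_eval [CharZero C] (i m : Fin d → ℕ) :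
    eval (fun k => (m k : C)) (bpm C i) = (bin m i : C) := by
  unfold bpm bin
  rw [map_prod, Nat.cast_prod]
  refine Finset.prod_congr rfl fun k _ => ?_
  rw [eval_aeval_X, bp_eval]

theorem npoly_eval [CharZero C] (s : Finset (Fin d → ℕ)) (b : (Fin d → ℕ) → Fin n → C) (j : Fin n)
    (m : Fin d → ℕ) : eval (fun k => (m k : C)) (npoly s b j) = nsum s b m j := by
  unfold npoly nsum
  rw [map_sum]
  refine Finset.sum_congr rfl fun i _ => ?_
  rw [map_mul, eval_C, bpm_eval, mul_comm]

theorem degreeOf_aeval_X (k k' : Fin d) (P : Polynomial C) :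
    degreeOf k' (Polynomial.aeval (X k : MvPolynomial (Fin d) C) P) ≤
      if k = k' then P.natDegree else 0 := by
  rw [Polynomial.aeval_eq_sum_range]
  refine (degreeOf_sum_le _ _ _).trans (Finset.sup_le fun e he => ?_)
  rw [Finset.mem_range, Nat.lt_succ_iff] at he
  rw [smul_eq_C_mul]
  refine (degreeOf_C_mul_le _ _ _).trans ?_
  split_ifs with h
  · subst h
    rw [degreeOf_X_self_pow]
    exact he
  · rw [degreeOf_X_pow_of_ne _ (fun h' => h h'.symm)]

theorem bpm_degreeOf (i : Fin d → ℕ) (k : Fin d) : degreeOf k (bpm C i) ≤ i k := by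
  classical
  unfold bpm
  refine (degreeOf_prod_le _ _ _).trans ?_
  refine (Finset.sum_le_sum fun k' _ => degreeOf_aeval_X k' k (bp C (i k'))).trans ?_
  rw [Finset.sum_ite_eq' Finset.univ k, if_pos (Finset.mem_univ k)]
  exact bp_natDegree _

theorem npoly_degreeOf {M : ℕ} {s : Finset (Fin d → ℕ)} (hs : ∀ i ∈ s, ∀ k, i k ≤ M)
    (b : (Fin d → ℕ) → Fin n → C) (j : Fin n) (k : Fin d) : degreeOf k (npoly s b j) ≤ M := by
  unfold npoly
  refine (degreeOf_sum_le _ _ _).trans (Finset.sup_le fun i hi => ?_)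
  exact ((degreeOf_C_mul_le _ _ _).trans (bpm_degreeOf i k)).trans (hs i hi k)

/-- the degrees of the composition -/
theorem degreeOf_comp {M D : ℕ} {T : Fin n → MvPolynomial (Fin d) C}
    (hT : ∀ j k, degreeOf k (T j) ≤ M) {P : MvPolynomial (Fin n) C} (hP : P.totalDegree ≤ D)
    (k : Fin d) : degreeOf k (aeval T P) ≤ D * M := by
  rw [aeval_def, eval₂_eq']
  refine (degreeOf_sum_le _ _ _).trans (Finset.sup_le fun α hα => ?_)
  refine (degreeOf_C_mul_le _ _ _).trans ((degreeOf_prod_le _ _ _).trans ?_)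
  have h1 : ∑ j, α j ≤ D := by
    have h2 := (le_totalDegree hα).trans hP
    rwa [Finsupp.sum_fintype _ _ (fun _ => rfl)] at h2
  calc ∑ j, degreeOf k (T j ^ α j) ≤ ∑ j, α j * M := by
        refine Finset.sum_le_sum fun j _ => (degreeOf_pow_le _ _ _).trans ?_
        exact Nat.mul_le_mul_left _ (hT j k)
    _ = (∑ j, α j) * M := (Finset.sum_mul _ _ _).symm
    _ ≤ D * M := Nat.mul_le_mul_right _ h1

/-- a polynomial which vanishes on a large box is zero -/
theorem eq_zero_of_box [CharZero C] {E : ℕ} {P : MvPolynomial (Fin d) C}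
    (hP : ∀ k, degreeOf k P ≤ E)
    (h : ∀ m : Fin d → ℕ, (∀ k, m k ≤ E) → eval (fun k => (m k : C)) P = 0) : P = 0 := by
  classical
  apply eq_zero_of_eval_zero_at_prod_finset P
    (fun _ => (Finset.range (E + 1)).image fun e : ℕ => (e : C))
  · intro k
    rw [Finset.card_image_of_injective _ Nat.cast_injective, Finset.card_range]
    exact Nat.lt_succ_of_le (hP k)
  · intro x hx
    have h1 : ∀ k, ∃ m : ℕ, m ≤ E ∧ (m : C) = x k := by
      intro k
      obtain ⟨m, hm, hmx⟩ := Finset.mem_image.1 (hx k)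
      exact ⟨m, Nat.lt_succ_iff.1 (Finset.mem_range.1 hm), hmx⟩
    choose m hm hmx using h1
    have h2 : x = fun k => (m k : C) := funext fun k => (hmx k).symm
    rw [h2]
    exact h m hm

/-- **Gaps.** If the Newton coefficients are zero in a gap, then the partial sum satisfies all
equations of degree at most `D`. -/
theorem npoly_mem [CharZero C] {M D : ℕ} {b : (Fin d → ℕ) → Fin n → C}
    (hb : ∀ i : Fin d → ℕ, (∀ k, i k ≤ D * M) → (∃ k, M < i k) → b i = 0)
    {P : MvPolynomial (Fin n) C} (hP : P.totalDegree ≤ D)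
    (h : ∀ m : Fin d → ℕ, (∀ k, m k ≤ D * M) → eval (nval b m) P = 0) :
    aeval (npoly (Finset.Iic fun _ => M) b) P = 0 := by
  apply eq_zero_of_box (E := D * M)
  · exact degreeOf_comp (npoly_degreeOf (fun i hi k => (Finset.mem_Iic.1 hi) k) b) hP
  · intro m hm
    have h1 : eval (fun k => (m k : C)) (aeval (npoly (Finset.Iic fun _ => M) b) P) =
        eval (fun j => eval (fun k => (m k : C)) (npoly (Finset.Iic fun _ => M) b j)) P := by
      rw [aeval_def, ← MvPolynomial.coe_aeval_eq_eval, ← MvPolynomial.coe_aeval_eq_eval]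
      exact MvPolynomial.comp_aeval_apply (f := npoly (Finset.Iic fun _ => M) b)
        (MvPolynomial.aeval fun k => (m k : C)) P
    rw [h1]
    have h2 : (fun j => eval (fun k => (m k : C)) (npoly (Finset.Iic fun _ => M) b j)) =
        nval b m := by
      rw [nval_eq_nsum (s := Finset.Iic fun _ => M)]
      · funext j
        exact npoly_eval _ b j m
      · intro i him hi
        refine hb i (fun k => (him k).trans (hm k)) ?_
        by_contra hno
        push Not at hno
        exact hi (Finset.mem_Iic.2 hno)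
    rw [h2]
    exact h m hm

theorem npoly_val [CharZero C] {M D : ℕ} {b : (Fin d → ℕ) → Fin n → C}
    (hb : ∀ i : Fin d → ℕ, (∀ k, i k ≤ D * M) → (∃ k, M < i k) → b i = 0) {m : Fin d → ℕ}
    (hm : ∀ k, m k ≤ D * M) (j : Fin n) :
    eval (fun k => (m k : C)) (npoly (Finset.Iic fun _ => M) b j) = nval b m j := by
  rw [npoly_eval, nval_eq_nsum (s := Finset.Iic fun _ => M)]
  intro i him hi
  refine hb i (fun k => (him k).trans (hm k)) ?_
  by_contra hno
  push Not at hno
  exact hi (Finset.mem_Iic.2 hno)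

end field

end Pool.Agent.Q64.FS
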