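import Pool.Agent.Q64.FS.Plc

/-!
Finite extensions of the `p`-adic numbers are locally compact.
-/

set_option autoImplicit false

namespace Pool.Agent.Q64.FS

open MvPolynomial

theorem AlgEl.isIntegral {K C : Type} [Field K] [CharZero K] [Field C] [Algebra K C] {x : C}
    (h : AlgEl x) : IsIntegral K x := by
  obtain ⟨P, hP, h1⟩ := h
  rw [← isAlgebraic_iff_isIntegral]
  refine ⟨P.map (Int.castRingHom K), ?_, ?_⟩
  · rw [Ne, Polynomial.map_eq_zero_iff (RingHom.injective_int (Int.castRingHom K))]
    exact hP
  · rw [Polynomial.aeval_def, Polynomial.eval₂_map,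
      RingHom.ext_int ((algebraMap K C).comp (Int.castRingHom K)) (Int.castRingHom C)]
    exact h1

/-- a finite-dimensional subspace is proper -/
theorem isCompact_ball {K E : Type} [NontriviallyNormedField K] [ProperSpace K]
    [NormedAddCommGroup E] [NormedSpace K E] (W : Submodule K E) [FiniteDimensional K W] (R : ℝ) :
    IsCompact {x : E | x ∈ W ∧ ‖x‖ ≤ R} := by
  have hpW : ProperSpace W := FiniteDimensional.proper K W
  have h1 : {x : E | x ∈ W ∧ ‖x‖ ≤ R} =
      (fun x : W => (x : E)) '' Metric.closedBall (0 : W) R := by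
    ext x
    constructor
    · rintro ⟨hx, hR⟩
      refine ⟨⟨x, hx⟩, ?_, rfl⟩
      rw [mem_closedBall_zero_iff]
      exact hR
    · rintro ⟨⟨x, hx⟩, hR, rfl⟩
      rw [mem_closedBall_zero_iff] at hR
      exact ⟨hx, hR⟩
  rw [h1]
  exact (isCompact_closedBall _ _).image continuous_subtype_val

/-- a finite-dimensional subfield is locally compact -/
theorem locComp_adjoin {K C : Type} [NontriviallyNormedField K] [ProperSpace K] [CharZero K]
    [NormedField C] [NormedAlgebra K C] (S : Finset C) (hS : ∀ x ∈ S, AlgEl x) :
    ∃ F : Subfield C, LocComp F ∧ ∀ x ∈ S, x ∈ F := by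
  let E : IntermediateField K C := IntermediateField.adjoin K (S : Set C)
  have hfin : FiniteDimensional K E := by
    apply IntermediateField.finiteDimensional_adjoin
    intro x hx
    exact (hS x (Finset.mem_coe.1 hx)).isIntegral
  refine ⟨E.toSubfield, fun R => ?_, fun x hx => IntermediateField.subset_adjoin _ _
    (Finset.mem_coe.2 hx)⟩
  let W : Submodule K C := Subalgebra.toSubmodule E.toSubalgebra
  have hfW : FiniteDimensional K W := hfin
  exact isCompact_ball W R

end Pool.Agent.Q64.FS
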