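import Pool.Agent.Q64.FS.Cpt

/-!
Number fields in locally compact fields.
-/

set_option autoImplicit false

namespace Pool.Agent.Q64.FS

open MvPolynomial

/-- `x` is a root of a nonzero polynomial with integer coefficients. -/
def AlgEl {C : Type} [Field C] (x : C) : Prop :=
  ∃ P : Polynomial ℤ, P ≠ 0 ∧ P.eval₂ (Int.castRingHom C) x = 0

/-- the algebraic numbers in a field -/
noncomputable def algNum (C : Type) [Field C] [CharZero C] : Subfield C :=
  (algebraicClosure ℚ C).toSubfield

theorem mem_algNum {C : Type} [Field C] [CharZero C] {x : C} :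
    x ∈ algNum C ↔ IsAlgebraic ℚ x := mem_algebraicClosure_iff

theorem algEl_of_mem {C : Type} [Field C] [CharZero C] {x : C} (h : x ∈ algNum C) : AlgEl x := by
  rw [mem_algNum, ← IsFractionRing.isAlgebraic_iff ℤ ℚ C] at h
  obtain ⟨P, hP, h1⟩ := h
  refine ⟨P, hP, ?_⟩
  rw [Polynomial.aeval_def, RingHom.ext_int (algebraMap ℤ C) (Int.castRingHom C)] at h1
  exact h1

instance countable_algNum (C : Type) [Field C] [CharZero C] : Countable (algNum C) := by
  have h1 : Set.Countable {x : C | IsAlgebraic ℚ x} := Algebraic.countable ℚ C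
  have h2 : (algNum C : Set C) = {x : C | IsAlgebraic ℚ x} := Set.ext fun x => mem_algNum
  rw [← h2] at h1
  exact h1.to_subtype

theorem countable_mv {k : Type} [CommSemiring k] [Countable k] (n : ℕ) :
    Countable (MvPolynomial (Fin n) k) :=
  (AddMonoidAlgebra.coeffEquiv (R := k) (M := Fin n →₀ ℕ)).countable_iff.2 inferInstance

/-- the box -/
abbrev Box (d r : ℕ) : Type := ↥(Finset.Iic (fun _ : Fin d => r))

/-- the data over the field `k` -/
abbrev Dat (k : Type) [Field k] : Type :=
  Finset k × (Σ d n : ℕ, Finset (MvPolynomial (Fin n) k) × (Σ r : ℕ, (Box d r → Fin n → k)))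

theorem countable_dat (k : Type) [Field k] [Countable k] : Countable (Dat k) := by
  have h1 : ∀ n, Countable (MvPolynomial (Fin n) k) := fun n => countable_mv n
  infer_instance

/-- **One bound for all number fields in a countable family of fields.** -/
theorem exists_interp_family {O : Type} [Countable O] (C : O → Type) [∀ o, NormedField (C o)]
    [∀ o, CharZero (C o)] (hloc : ∀ o (S : Finset (C o)), (∀ x ∈ S, AlgEl x) →
      ∃ F : Subfield (C o), LocComp F ∧ ∀ x ∈ S, x ∈ F) :
    ∃ ε : ℕ → ℝ, (∀ s, 0 < ε s) ∧ (∀ s, ε s ≤ 1) ∧ Antitone ε ∧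
    ∀ (o : O) (L : Type) [Field L] [NumberField L] (τ : L →+* C o) (d n D : ℕ)
      (b : (Fin d → ℕ) → Fin n → L), GapC D ε (fun i l => τ (b i l)) → 1 ≤ D →
      ∀ (V : Finset (MvPolynomial (Fin n) L)), (∀ Q ∈ V, Q.totalDegree ≤ D) →
      (∀ Q ∈ V, ∀ m, eval (nval b m) Q = 0) → ∀ r : ℕ,
      ∃ T : Fin n → MvPolynomial (Fin d) (C o),
        (∀ Q ∈ V, aeval T (map τ Q) = 0) ∧
        ∀ m : Fin d → ℕ, (∀ k, m k ≤ r) → ∀ j,
          eval (fun k => (m k : C o)) (T j) = τ (nval b m j) := by
  classical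
  -- the fields
  have hF : ∀ (o : O) (S : Finset (algNum (C o))), ∃ F : Subfield (C o),
      LocComp F ∧ ∀ x ∈ S, (x : C o) ∈ F := by
    intro o S
    obtain ⟨F, h1, h2⟩ := hloc o (S.image fun x : algNum (C o) => (x : C o)) (by
      intro x hx
      obtain ⟨y, -, rfl⟩ := Finset.mem_image.1 hx
      exact algEl_of_mem y.2)
    exact ⟨F, h1, fun x hx => h2 _ (Finset.mem_image_of_mem _ hx)⟩
  choose F hF1 hF2 using hF
  let J : Type := Σ o : O, Dat (algNum (C o))
  have hJ : Countable J := by
    have h1 : ∀ o, Countable (Dat (algNum (C o))) := fun o => countable_dat _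
    infer_instance
  let W : ∀ j : J, Finset (MvPolynomial (Fin j.2.2.2.1) (C j.1)) := fun j =>
    j.2.2.2.2.1.image (map (algNum (C j.1)).subtype)
  obtain ⟨ε, h1, h2, hanti, h3⟩ := diag (J := J) (fun j => C j.1) (fun j => F j.1 j.2.1)
    (fun j => hF1 _ _) (fun j => j.2.2.1) (fun j => j.2.2.2.1) W
    (fun j => max 1 ((W j).sup totalDegree)) (fun j => le_max_left _ _)
    (fun j P hP => (Finset.le_sup (f := totalDegree) hP).trans (le_max_right _ _))
    (fun j => j.2.2.2.2.2.1)
    (fun j m l => if h : m ∈ Finset.Iic (fun _ : Fin j.2.2.1 => j.2.2.2.2.2.1) then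
      ((j.2.2.2.2.2.2 ⟨m, h⟩ l : algNum (C j.1)) : C j.1) else 0)
  refine ⟨ε, h1, h2, hanti, fun o L _ _ τ d n D b hb hD V hVD hV r => ?_⟩
  -- the embedding in the algebraic numbers
  have halg : ∀ a : L, τ a ∈ algNum (C o) := by
    intro a
    rw [mem_algNum]
    have h4 : IsAlgebraic ℚ a := Algebra.IsAlgebraic.isAlgebraic a
    exact h4.algHom τ.toRatAlgHom
  let τ' : L →+* algNum (C o) := τ.codRestrict _ halg
  -- the finite set of generators
  let B := Module.finBasis ℚ L
  let S : Finset (algNum (C o)) := Finset.univ.image fun i => τ' (B i)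
  have hSF : ∀ a : L, τ a ∈ F o S := by
    intro a
    rw [← B.sum_repr a, map_sum]
    refine Subfield.sum_mem _ fun i _ => ?_
    rw [Algebra.smul_def, map_mul]
    refine Subfield.mul_mem _ ?_ (hF2 o S _ (Finset.mem_image_of_mem _ (Finset.mem_univ i)))
    rw [eq_ratCast, map_ratCast]
    exact SubfieldClass.ratCast_mem _ _
  let j : J := ⟨o, S, d, n, V.image (map τ'), r, fun m l => τ' (nval b m.1 l)⟩
  have hWD : max 1 ((W j).sup totalDegree) ≤ D := by
    refine max_le hD (Finset.sup_le fun P hP => ?_)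
    obtain ⟨P1, hP1, rfl⟩ := Finset.mem_image.1 hP
    obtain ⟨Q, hQ, rfl⟩ := Finset.mem_image.1 hP1
    rw [MvPolynomial.map_map]
    refine le_trans ?_ (hVD Q hQ)
    exact Finset.sup_mono (support_map_subset _ _)
  obtain ⟨T, hT1, hT2⟩ := h3 j (fun i l => τ (b i l)) (fun i l => hSF _) (hb.mono hWD)
    (by
      intro m P hP
      obtain ⟨P1, hP1, rfl⟩ := Finset.mem_image.1 hP
      obtain ⟨Q, hQ, rfl⟩ := Finset.mem_image.1 hP1
      have h4 : (nval (fun i l => τ (b i l)) m) = fun l => τ (nval b m l) :=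
        funext fun l => map_nval τ b m l
      rw [MvPolynomial.map_map]
      change eval (nval (fun i l => τ (b i l)) m) (map τ Q) = 0
      rw [h4, eval_map]
      have h5 := eval₂_comp_left τ (RingHom.id L) (nval b m) Q
      rw [RingHom.comp_id] at h5
      change τ (eval (nval b m) Q) = _ at h5
      rw [hV Q hQ m, map_zero] at h5
      exact h5.symm)
    (by
      intro m hm
      funext l
      have h5 : m ∈ Finset.Iic (fun _ : Fin d => r) := Finset.mem_Iic.2 hm
      change nval (fun i l => τ (b i l)) m l = if h : m ∈ Finset.Iic (fun _ : Fin d => r) then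
        τ (nval b m l) else 0
      rw [dif_pos h5]
      exact map_nval τ b m l)
  refine ⟨fun l => map (F o S).subtype (T l), fun Q hQ => ?_, fun m hm l => ?_⟩
  · have h4 := hT1 (map (algNum (C o)).subtype (map τ' Q)) (Finset.mem_coe.2
      (Finset.mem_image_of_mem _ (Finset.mem_image_of_mem _ hQ)))
    rw [MvPolynomial.map_map] at h4
    exact h4
  · have h4 := hT2 m hm l
    refine h4.trans ?_
    have h5 : m ∈ Finset.Iic (fun _ : Fin d => r) := Finset.mem_Iic.2 hm
    change (if h : m ∈ Finset.Iic (fun _ : Fin d => r) then τ (nval b m l) else 0) = _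
    rw [dif_pos h5]

end Pool.Agent.Q64.FS
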