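import Pool.Agent.Q64.FS.Mai

/-!
Flat sequences of vectors with coordinates in number fields.
-/

set_option autoImplicit false

namespace Pool.Agent.Q64.FS

open MvPolynomial

variable {n : ℕ}

/-- The `i`-th difference `∑ (-1) ^ (i - k) (i choose k) x k` of the sequence `x` at `0`. -/
def dif {L : Type} [AddCommGroup L] (x : ℕ → Fin n → L) (i : ℕ) (j : Fin n) : L :=
  (fwdDiff 1)^[i] (fun m => x m j) 0

/-- The sequence `x` is flat at the place `v`: its `i`-th differences at `0` have absolute values at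
most `ε i` for large `i`. -/
def FlatSeq {L : Type} [Field L] (v : Plc L) (ε : ℕ → ℝ) (x : ℕ → Fin n → L) : Prop :=
  ∃ s₀ : ℕ, ∀ i, s₀ ≤ i → ∀ j, v.abs (dif x i j) ≤ ε i

/-- The sequence `x` has infinitely many approximate gaps at the place `v`: for infinitely many `M`,
its `i`-th differences at `0` have absolute values at most `M` for `i ≤ M` and at most `ε M` for
`M < i ≤ D * M`. -/
def GapSeq {L : Type} [Field L] (D : ℕ) (v : Plc L) (ε : ℕ → ℝ) (x : ℕ → Fin n → L) : Prop :=
  ∀ M₀ : ℕ, ∃ M, M₀ ≤ M ∧ (∀ i, i ≤ M → ∀ j, v.abs (dif x i j) ≤ M) ∧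
    ∀ i, M < i → i ≤ D * M → ∀ j, v.abs (dif x i j) ≤ ε M

/-- There is a finite extension `L'` of `L` and a polynomial curve over `L'` in the variety given by
the polynomials in `V` which passes through the points `x 0`, ..., `x r` at `0`, ..., `r`. -/
def CurveThrough {L : Type} [Field L] (V : Set (MvPolynomial (Fin n) L)) (x : ℕ → Fin n → L)
    (r : ℕ) : Prop :=
  ∃ (L' : Type) (_ : Field L') (_ : Algebra L L') (_ : FiniteDimensional L L')
    (T : Fin n → Polynomial L'),
    (∀ m : ℕ, m ≤ r → ∀ j, (T j).eval (m : L') = algebraMap L L' (x m j)) ∧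
    ∀ P ∈ V, aeval T P = 0

/-- the array of a sequence -/
def arr {L : Type} [AddCommGroup L] (x : ℕ → Fin n → L) : (Fin 1 → ℕ) → Fin n → L :=
  fun i => dif x (i 0)

theorem mx_one (i : Fin 1 → ℕ) : mx i = i 0 := by
  unfold mx
  simp

theorem nval_arr {L : Type} [Field L] (x : ℕ → Fin n → L) (m : Fin 1 → ℕ) :
    nval (arr x) m = x (m 0) := by
  classical
  funext j
  have h1 := shift_eq_sum_fwdDiff_iter (h := (1 : ℕ)) (fun m => x m j) (m 0) 0
  rw [zero_add, smul_eq_mul, mul_one] at h1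
  rw [h1]
  unfold nval arr dif
  refine Finset.sum_bij' (fun i _ => i 0) (fun k _ => fun _ => k) ?_ ?_ ?_ ?_ ?_
  · intro i hi
    rw [Finset.mem_range, Nat.lt_succ_iff]
    exact (Finset.mem_Iic.1 hi) 0
  · intro k hk
    rw [Finset.mem_Iic]
    intro l
    rw [Finset.mem_range, Nat.lt_succ_iff] at hk
    rw [Subsingleton.elim l 0]
    exact hk
  · intro i _
    funext l
    rw [Subsingleton.elim l 0]
  · intro k _
    rfl
  · intro i _
    unfold bin
    rw [Fin.prod_univ_one, nsmul_eq_mul]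

theorem curve_of_interp {L : Type} [Field L] {V : Set (MvPolynomial (Fin n) L)}
    {x : ℕ → Fin n → L} {r : ℕ} (h : InterpIn V (nval (arr x)) r) : CurveThrough V x r := by
  obtain ⟨L', i1, i2, i3, T, h1, h2⟩ := h
  let g : MvPolynomial (Fin 1) L' →ₐ[L'] Polynomial L' := aeval fun _ => Polynomial.X
  refine ⟨L', i1, i2, i3, fun j => g (T j), fun m hm j => ?_, fun P hP => ?_⟩
  · have h3 := h1 (fun _ => m) (fun _ => hm) j
    rw [nval_arr] at h3
    rw [← h3]
    have h4 : ∀ Q : MvPolynomial (Fin 1) L', (g Q).eval (m : L') =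
        eval (fun k => (((fun _ : Fin 1 => m) k : ℕ) : L')) Q := by
      intro Q
      induction Q using MvPolynomial.induction_on with
      | C a => simp [g]
      | add p q hp hq => rw [map_add, Polynomial.eval_add, hp, hq, map_add]
      | mul_X p k hp =>
        rw [map_mul, Polynomial.eval_mul, hp, map_mul, eval_X]
        congr 1
        simp [g]
    exact h4 _
  · have h3 := congrArg g (h2 P hP)
    rw [map_zero] at h3
    rw [← h3]
    exact (MvPolynomial.comp_aeval_apply (f := T) (g.restrictScalars L) P).symm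

theorem FlatSeq.gap {L : Type} [Field L] {v : Plc L} {ε : ℕ → ℝ} (hε : Antitone ε)
    (hε1 : ∀ s, ε s ≤ 1) {x : ℕ → Fin n → L} (h : FlatSeq v ε x) (D : ℕ) : GapSeq D v ε x := by
  obtain ⟨s₀, hs⟩ := h
  have h1 : Flat v ε (arr x) := by
    refine ⟨s₀, fun i hi j => ?_⟩
    rw [mx_one] at hi ⊢
    exact hs (i 0) hi j
  intro M₀
  obtain ⟨M, e1, e2, e3⟩ := h1.gap hε hε1 D M₀
  exact ⟨M, e1, fun i hi j => e2 (fun _ => i) (by rw [mx_one]; exact hi) j,
    fun i hi hi' j => e3 (fun _ => i) (by rw [mx_one]; exact hi) (by rw [mx_one]; exact hi') j⟩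

theorem Plc.abs_zero {L : Type} [Field L] (v : Plc L) : v.abs 0 = 0 := by
  cases v with
  | inf τ => change ‖τ 0‖ = 0; rw [map_zero, norm_zero]
  | fin p hp τ => change ‖τ 0‖ = 0; rw [map_zero, norm_zero]

/-- polynomial sequences are flat -/
theorem flatSeq_poly {L : Type} [Field L] (v : Plc L) {ε : ℕ → ℝ} (hε : ∀ s, 0 < ε s)
    {x : ℕ → Fin n → L} (h : ∀ j, ∃ P : Polynomial L, ∀ m : ℕ, x m j = P.eval (m : L)) :
    FlatSeq v ε x := by
  classical
  choose P hP using h
  refine ⟨(Finset.univ.sup fun j => (P j).natDegree) + 1, fun i hi j => ?_⟩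
  have h1 : dif x i j = 0 := by
    have h2 : (P j).natDegree < i := by
      have : (P j).natDegree ≤ Finset.univ.sup fun j => (P j).natDegree :=
        Finset.le_sup (f := fun j => (P j).natDegree) (Finset.mem_univ j)
      omega
    have h3 := Polynomial.fwdDiff_iter_eq_zero_of_degree_lt h2
    have h4 : ∀ (i : ℕ) (m : ℕ), (fwdDiff 1)^[i] (fun m : ℕ => x m j) m =
        (fwdDiff 1)^[i] (fun t : L => (P j).eval t) (m : L) := by
      intro i
      induction i with
      | zero => intro m; exact hP j m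
      | succ i ih =>
        intro m
        rw [Function.iterate_succ_apply', Function.iterate_succ_apply', fwdDiff, fwdDiff, ih, ih]
        push_cast
        rfl
    unfold dif
    rw [h4]
    exact congrFun h3 _
  rw [h1, v.abs_zero]
  exact (hε i).le

/-- **Sequences.** -/
theorem seq_main : ∃ ε : ℕ → ℝ, (∀ s, 0 < ε s) ∧ (∀ s, ε s ≤ 1) ∧ Antitone ε ∧
    ∀ (L : Type) [Field L] [NumberField L]
    (v : Plc L) (n : ℕ) (x : ℕ → Fin n → L),
    (FlatSeq v ε x → ∀ r, CurveThrough {P | ∀ m, eval (x m) P = 0} x r) ∧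
    ∀ (D : ℕ) (V : Set (MvPolynomial (Fin n) L)), 1 ≤ D → (∀ P ∈ V, P.totalDegree ≤ D) →
      (∀ P ∈ V, ∀ m, eval (x m) P = 0) → GapSeq D v ε x → ∀ r, CurveThrough V x r := by
  obtain ⟨ε, h1, h2, h3, h4⟩ := gap_main
  refine ⟨ε, h1, h2, h3, fun L _ _ v n x => ⟨fun hx r => ?_, fun D V hD hVD hV hx r => ?_⟩⟩
  · have h5 := flat_of_gap h2 h3 (v := v) (b := arr x)
      (fun D V e1 e2 e3 e4 r => h4 L v 1 n D (arr x) V e1 e2 e3 e4 r) (by
        obtain ⟨s₀, hs⟩ := hx
        refine ⟨s₀, fun i hi j => ?_⟩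
        rw [mx_one] at hi ⊢
        exact hs (i 0) hi j) r
    have h6 : {P : MvPolynomial (Fin n) L | ∀ m, eval (nval (arr x) m) P = 0} =
        {P | ∀ m, eval (x m) P = 0} := by
      ext P
      constructor
      · intro h m
        have h7 := h fun _ => m
        rwa [nval_arr] at h7
      · intro h m
        rw [nval_arr]
        exact h (m 0)
    rw [h6] at h5
    exact curve_of_interp h5
  · refine curve_of_interp (h4 L v 1 n D (arr x) V hD hVD (fun P hP m => by
      rw [nval_arr]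
      exact hV P hP (m 0)) (fun M₀ => ?_) r)
    obtain ⟨M, e1, e2, e3⟩ := hx M₀
    refine ⟨M, e1, fun i hi j => ?_, fun i hi hi' j => ?_⟩
    · rw [mx_one] at hi
      exact e2 (i 0) hi j
    · rw [mx_one] at hi hi'
      exact e3 (i 0) hi hi' j

end Pool.Agent.Q64.FS
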