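import Pool.Agent.Q64.FS.Cls
import Pool.Agent.Q64.FS.Seq
import Pool.Agent.Q64.LC.Rig

/-!
Polynomial curves with bounded coefficients: separation of the Zariski closures.
-/

set_option autoImplicit false

namespace Pool.Agent.Q64.FS

open MvPolynomial Filter Topology Pool.Agent.Q64.LC Pool.Agent.TH143.GT Pool.Agent.W602.GT

section dec

variable {C : Type} [Field C] [Algebra C ℂ] {σ : Type}

/-- a coordinate of a polynomial -/
noncomputable def crd {I : Type} (B : Module.Basis I C ℂ) (i : I) (G : MvPolynomial σ ℂ) :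
    MvPolynomial σ C :=
  ∑ α ∈ G.support, monomial α (B.repr (coeff α G) i)

theorem crd_eval {I : Type} (B : Module.Basis I C ℂ) (i : I) (G : MvPolynomial σ ℂ)
    (u : σ → C) : eval u (crd B i G) = B.repr (eval (fun j => algebraMap C ℂ (u j)) G) i := by
  classical
  have h1 : eval (fun j => algebraMap C ℂ (u j)) G =
      ∑ α ∈ G.support, (α.prod fun j e => u j ^ e) • coeff α G := by
    rw [eval_eq]
    refine Finset.sum_congr rfl fun α _ => ?_
    rw [Algebra.smul_def, mul_comm, Finsupp.prod, map_prod]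
    simp only [map_pow]
  rw [h1, map_sum, Finsupp.finsetSum_apply]
  unfold crd
  rw [map_sum]
  refine Finset.sum_congr rfl fun α _ => ?_
  rw [eval_monomial, map_smul, Finsupp.smul_apply, smul_eq_mul, mul_comm]

theorem crd_homog {I : Type} (B : Module.Basis I C ℂ) (i : I) {G : MvPolynomial σ ℂ} {e : ℕ}
    (hG : G.IsHomogeneous e) : (crd B i G).IsHomogeneous e := by
  unfold crd
  refine IsHomogeneous.sum _ _ _ fun α hα => ?_
  refine isHomogeneous_monomial _ ?_
  rw [← hG (mem_support_iff.1 hα), Finsupp.degree_eq_weight_one]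
  rfl

/-- **Decomposition.** -/
theorem form_dec (G : MvPolynomial σ ℂ) {e : ℕ} (hG : G.IsHomogeneous e) :
    ∃ (I : Type) (g : I → MvPolynomial σ C), (∀ i, (g i).IsHomogeneous e) ∧
      ∀ u : σ → C, eval (fun j => algebraMap C ℂ (u j)) G = 0 ↔ ∀ i, eval u (g i) = 0 := by
  let B := Module.Basis.ofVectorSpace C ℂ
  refine ⟨_, fun i => crd B i G, fun i => crd_homog B i hG, fun u => ?_⟩
  simp only [crd_eval]
  constructor
  · intro h i
    rw [h, map_zero, Finsupp.zero_apply]
  · intro h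
    apply B.repr.injective
    rw [map_zero]
    exact Finsupp.ext h

end dec

variable {n : ℕ}

/-- it is enough to consider natural numbers -/
theorem van_iff (T : Fin (n + 1) → Polynomial ℂ) (G : MvPolynomial (Fin (n + 1)) ℂ) :
    (∀ z : ℂ, eval (fun j => (T j).eval z) G = 0) ↔
      ∀ m : ℕ, eval (fun j => (T j).eval (m : ℂ)) G = 0 := by
  refine ⟨fun h m => h m, fun h z => ?_⟩
  have h1 : (aeval T G : Polynomial ℂ) = 0 := by
    apply Polynomial.eq_zero_of_infinite_isRoot
    refine Set.Infinite.mono (s := Set.range fun m : ℕ => (m : ℂ)) ?_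
      (Set.infinite_range_of_injective Nat.cast_injective)
    rintro _ ⟨m, rfl⟩
    change Polynomial.eval _ _ = 0
    rw [ev_aeval]
    exact h m
  rw [← ev_aeval, h1, Polynomial.eval_zero]

variable {C : Type}

/-- the polynomial curve with the Newton coefficients `c` -/
noncomputable def cur [Field C] (ι : C →+* ℂ) (M : ℕ) (c : (Fin 1 → ℕ) → Fin (n + 1) → C)
    (j : Fin (n + 1)) : Polynomial ℂ :=
  ((aeval (fun _ => Polynomial.X) : MvPolynomial (Fin 1) C →ₐ[C] Polynomial C)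
    (npoly (Finset.Iic fun _ => M) c j)).map ι

theorem aevalX_eval [Field C] (P : MvPolynomial (Fin 1) C) (m : ℕ) :
    ((aeval (fun _ => Polynomial.X) : MvPolynomial (Fin 1) C →ₐ[C] Polynomial C) P).eval (m : C) =
      eval (fun _ => (m : C)) P := by
  induction P using MvPolynomial.induction_on with
  | C a => simp
  | add p q hp hq => rw [map_add, Polynomial.eval_add, hp, hq, map_add]
  | mul_X p k hp =>
    rw [map_mul, Polynomial.eval_mul, hp, map_mul, eval_X]
    congr 1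
    simp

theorem cur_eval [Field C] [CharZero C] (ι : C →+* ℂ) {M : ℕ}
    {c : (Fin 1 → ℕ) → Fin (n + 1) → C} (hc : ∀ i, ¬ (∀ k, i k ≤ M) → c i = 0) (m : ℕ)
    (j : Fin (n + 1)) : (cur ι M c j).eval (m : ℂ) = ι (nval c (fun _ => m) j) := by
  unfold cur
  have h1 : ((m : ℕ) : ℂ) = ι (m : C) := (map_natCast ι m).symm
  rw [h1, Polynomial.eval_map, Polynomial.eval₂_at_apply, aevalX_eval]
  congr 1
  rw [nval_eq_nsum (s := Finset.Iic fun _ => M)]
  · exact npoly_eval _ c j fun _ => m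
  · intro i _ hi
    exact hc i fun h => hi (Finset.mem_Iic.2 h)

theorem aevalX_bpm [Field C] (i : Fin 1 → ℕ) :
    (aeval (fun _ => Polynomial.X) : MvPolynomial (Fin 1) C →ₐ[C] Polynomial C) (bpm C i) =
      bp C (i 0) := by
  unfold bpm
  rw [Fin.prod_univ_one, ← Polynomial.aeval_algHom_apply, aeval_X,
    Polynomial.aeval_X_left_apply]

theorem cur_natDegree [Field C] (ι : C →+* ℂ) (M : ℕ) (c : (Fin 1 → ℕ) → Fin (n + 1) → C)
    (j : Fin (n + 1)) : (cur ι M c j).natDegree ≤ M := by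
  unfold cur
  refine (Polynomial.natDegree_map_le).trans ?_
  unfold npoly
  rw [map_sum]
  refine Polynomial.natDegree_sum_le_of_forall_le _ _ fun i hi => ?_
  rw [map_mul, aevalX_bpm]
  refine (Polynomial.natDegree_mul_le).trans ?_
  have h1 : ((aeval (fun _ => Polynomial.X) : MvPolynomial (Fin 1) C →ₐ[C] Polynomial C)
      (MvPolynomial.C (c i j))).natDegree = 0 := by
    rw [← MvPolynomial.algebraMap_eq, AlgHom.commutes]
    exact Polynomial.natDegree_C _
  rw [h1, zero_add]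
  exact (bp_natDegree _).trans ((Finset.mem_Iic.1 hi) 0)

theorem LevC.zero [NormedField C] [CharZero C] {d n : ℕ} {F : Subfield C}
    {V : Set (MvPolynomial (Fin n) C)} {r M : ℕ} {y : (Fin d → ℕ) → Fin n → C}
    {c : (Fin d → ℕ) → Fin n → C} (h : LevC F V r M y c) {P : MvPolynomial (Fin n) C}
    (hP : P ∈ V) (m : Fin d → ℕ) : eval (nval c m) P = 0 := by
  have h9 := congrArg (eval fun k => (m k : C)) (h.eqs P hP)
  rw [map_zero] at h9
  rw [← h9]
  have h10 : eval (fun k => (m k : C)) (aeval (npoly (Finset.Iic fun _ => M) c) P) =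
      eval (fun j => eval (fun k => (m k : C)) (npoly (Finset.Iic fun _ => M) c j)) P := by
    rw [aeval_def, ← MvPolynomial.coe_aeval_eq_eval, ← MvPolynomial.coe_aeval_eq_eval]
    exact MvPolynomial.comp_aeval_apply (f := npoly (Finset.Iic fun _ => M) c)
      (MvPolynomial.aeval fun k => (m k : C)) P
  rw [h10]
  congr 2
  rw [nval_eq_nsum (s := Finset.Iic fun _ => M)]
  · funext j
    exact (npoly_eval _ c j m).symm
  · intro i _ hi
    exact h.sup i fun h => hi (Finset.mem_Iic.2 h)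

/-- the relations of the curve at the natural numbers -/
theorem cur_van [Field C] [CharZero C] (ι : C →+* ℂ) {M : ℕ}
    {c : (Fin 1 → ℕ) → Fin (n + 1) → C} (hc : ∀ i, ¬ (∀ k, i k ≤ M) → c i = 0)
    (G : MvPolynomial (Fin (n + 1)) ℂ) :
    (∀ z : ℂ, eval (fun j => (cur ι M c j).eval z) G = 0) ↔
      ∀ m : ℕ, eval (fun j => ι (nval c (fun _ => m) j)) G = 0 := by
  rw [van_iff]
  refine forall_congr' fun m => ?_
  have h1 : (fun j => (cur ι M c j).eval (m : ℂ)) = fun j => ι (nval c (fun _ => m) j) :=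
    funext fun j => cur_eval ι hc m j
  rw [h1]

theorem eval_map' {A B : Type} [CommRing A] [CommRing B] (f : A →+* B) {k : ℕ} (u : Fin k → A)
    (g : MvPolynomial (Fin k) A) : eval (fun j => f (u j)) (map f g) = f (eval u g) := by
  rw [eval_map]
  have h5 := eval₂_comp_left f (RingHom.id A) u g
  rw [RingHom.comp_id] at h5
  exact h5.symm

section sep

variable [NormedField C] [CharZero C] {F : Subfield C} {p : Ideal (MvPolynomial (Fin (n + 1)) ℂ)}
  {Q : MvPolynomial (Fin (n + 1)) ℂ}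

/-- **Separation.** -/
theorem separateC (hF : LocComp F) (ι : C →+* ℂ) {V : Set (MvPolynomial (Fin (n + 1)) C)} {D : ℕ}
    (hV : ∀ P ∈ V, P.totalDegree ≤ D) {r M : ℕ} {y : (Fin 1 → ℕ) → Fin (n + 1) → C}
    (hpoly : ∀ c, LevC F V r M y c → PolyCurve p Q (cur ι M c)) (hfin : FinCl p Q M) :
    ∃ ρ : ℝ, 0 < ρ ∧ ∀ c c', LevC F V r M y c → LevC F V r M y c' →
      (∀ i j, ‖c i j - c' i j‖ ≤ ρ) → Same (cur ι M c) (cur ι M c') := by
  classical
  obtain ⟨L, hL, cl, hcl⟩ := hfin
  by_contra hno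
  push Not at hno
  have hk : ∀ k : ℕ, (0 : ℝ) < 1 / ((k : ℝ) + 1) := fun k => by positivity
  choose T T' hT hT' hd hne using fun k : ℕ => hno _ (hk k)
  let U : Ultrafilter ℕ := hyperfilter ℕ
  have hU : (U : Filter ℕ) ≤ atTop := Nat.hyperfilter_le_atTop
  obtain ⟨α, hα⟩ := (U.map fun k => cl (cur ι M (T k))).eq_pure_of_finite
  obtain ⟨β, hβ⟩ := (U.map fun k => cl (cur ι M (T' k))).eq_pure_of_finite
  have hα' : ∀ᶠ k in (U : Filter ℕ), cl (cur ι M (T k)) = α := by
    have h1 : ({α} : Set L) ∈ U.map fun k => cl (cur ι M (T k)) := by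
      rw [hα]
      exact Set.mem_singleton α
    exact h1
  have hβ' : ∀ᶠ k in (U : Filter ℕ), cl (cur ι M (T' k)) = β := by
    have h1 : ({β} : Set L) ∈ U.map fun k => cl (cur ι M (T' k)) := by
      rw [hβ]
      exact Set.mem_singleton β
    exact h1
  obtain ⟨a, ha, hlim⟩ := levC_limit hF hV hT U
  have hlim' : Tendsto T' U (𝓝 a) := by
    rw [tendsto_pi_nhds]
    intro i
    rw [tendsto_pi_nhds]
    intro j
    have h1 : Tendsto (fun k => T k i j - T' k i j) U (𝓝 0) :=
      squeeze_zero_norm (a := fun k : ℕ => 1 / ((k : ℝ) + 1)) (fun k => hd k i j)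
        (tendsto_one_div_add_atTop_nhds_zero_nat.mono_left hU)
    have h2 : Tendsto (fun k => T k i j) U (𝓝 (a i j)) := by
      have h7 : Continuous fun c : (Fin 1 → ℕ) → Fin (n + 1) → C => c i j :=
        (continuous_apply j).comp (continuous_apply i)
      exact (h7.tendsto a).comp hlim
    have h3 := h2.sub h1
    rw [sub_zero] at h3
    refine h3.congr fun k => ?_
    ring
  have key : ∀ (W : ℕ → (Fin 1 → ℕ) → Fin (n + 1) → C) (γ : L) (k0 : ℕ),
      (∀ k, LevC F V r M y (W k)) → Tendsto W U (𝓝 a) →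
      (∀ᶠ k in (U : Filter ℕ), cl (cur ι M (W k)) = γ) → cl (cur ι M (W k0)) = γ →
      Same (cur ι M (W k0)) (cur ι M a) := by
    intro W γ k0 hW hWa hγ hγ0
    refine same_of_le (hpoly a ha).ind fun G hG hG0 => ?_
    obtain ⟨e, he⟩ := hG
    let _ : Algebra C ℂ := ι.toAlgebra
    obtain ⟨I, g, hg, hgu⟩ := form_dec (C := C) G he
    have hgu' : ∀ u : Fin (n + 1) → C, eval (fun j => ι (u j)) G = 0 ↔ ∀ i, eval u (g i) = 0 := hgu
    rw [cur_van ι ha.sup]
    intro m
    rw [hgu']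
    intro i
    rw [cur_van ι (hW k0).sup] at hG0
    have h1 : ∀ᶠ k in (U : Filter ℕ), eval (nval (W k) fun _ => m) (g i) = 0 := by
      filter_upwards [hγ] with k hk
      have h2 : ∀ z : ℂ, eval (fun j => (cur ι M (W k0) j).eval z) (map ι (g i)) = 0 := by
        rw [cur_van ι (hW k0).sup]
        intro m'
        rw [eval_map', (hgu' _).1 (hG0 m') i, map_zero]
      have h3 := (hcl _ _ (hpoly _ (hW k0)) (fun j => cur_natDegree ι M _ j) (hpoly _ (hW k))
        (fun j => cur_natDegree ι M _ j) (hγ0.trans hk.symm) (map ι (g i))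
        ⟨e, (hg i).map ι⟩).1 h2
      rw [cur_van ι (hW k).sup] at h3
      have h4 := h3 m
      rw [eval_map', map_eq_zero] at h4
      exact h4
    have h5 : Tendsto (fun k => eval (nval (W k) fun _ => m) (g i)) U
        (𝓝 (eval (nval a fun _ => m) (g i))) :=
      ((MvPolynomial.continuous_eval (g i)).tendsto _).comp
        (((continuous_nval fun _ => m).tendsto a).comp hWa)
    exact tendsto_nhds_unique h5 (tendsto_const_nhds.congr' (h1.mono fun k hk => hk.symm))
  obtain ⟨k0, hk0, hk0'⟩ := (hα'.and hβ').exists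
  exact hne k0 ((key T α k0 hT hlim hα' hk0).trans (key T' β k0 hT' hlim' hβ' hk0').symm)

/-- **Flat sequences in varieties with finitely many classes of curves.** -/
theorem flat_curve (hF : LocComp F) (ι : C →+* ℂ) {V : Set (MvPolynomial (Fin (n + 1)) C)} {D : ℕ}
    (hD : 1 ≤ D) (hV : ∀ P ∈ V, P.totalDegree ≤ D) {r : ℕ} (y : (Fin 1 → ℕ) → Fin (n + 1) → C)
    (hpoly : ∀ M c, r ≤ M → LevC F V r M y c → PolyCurve p Q (cur ι M c))
    (hfin : ∀ M, FinCl p Q M) :
    ∃ ε : ℕ → ℝ, (∀ s, 0 < ε s) ∧ ∀ b : (Fin 1 → ℕ) → Fin (n + 1) → C, (∀ i j, b i j ∈ F) →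
      FlatC ε b → (∀ m, ∀ P ∈ V, eval (nval b m) P = 0) →
      (∀ m : Fin 1 → ℕ, (∀ k, m k ≤ r) → nval b m = y m) →
      ∃ T : Fin (n + 1) → Polynomial ℂ, PolyCurve p Q T ∧ ∀ G, IsForm G →
        (∀ z : ℂ, eval (fun j => (T j).eval z) G = 0) →
        ∀ m, eval (fun j => ι (nval b m j)) G = 0 := by
  classical
  have hsep : ∀ M : ℕ, ∃ ρ : ℝ, 0 < ρ ∧ (r ≤ M → ∀ c c', LevC F V r M y c → LevC F V r M y c' →
      (∀ i j, ‖c i j - c' i j‖ ≤ ρ) → Same (cur ι M c) (cur ι M c')) := by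
    intro M
    by_cases hM : r ≤ M
    · obtain ⟨ρ, h1, h2⟩ := separateC hF ι hV (fun c => hpoly M c hM) (hfin M)
      exact ⟨ρ, h1, fun _ => h2⟩
    · exact ⟨1, one_pos, fun h => absurd h hM⟩
  choose ρ hρ hsep using hsep
  let η : ℕ → ℝ := fun M => min (min (ρ M / 4) (ρ (M + 1) / 4)) (1 / ((M : ℝ) + 1))
  have hη : ∀ M, 0 < η M := by
    intro M
    have := hρ M
    have := hρ (M + 1)
    exact lt_min (lt_min (by positivity) (by positivity)) (by positivity)
  have hcl : ∀ M : ℕ, ∃ ε : ℝ, 0 < ε ∧ (r ≤ M → ∀ b : (Fin 1 → ℕ) → Fin (n + 1) → C,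
      (∀ i j, b i j ∈ F) → (∀ i, (∀ k, i k ≤ M) → ∀ j, ‖b i j‖ ≤ M) →
      (∀ i, (∀ k, i k ≤ D * M) → (∃ k, M < i k) → ∀ j, ‖b i j‖ ≤ ε) →
      (∀ m, (∀ k, m k ≤ D * M) → ∀ P ∈ V, eval (nval b m) P = 0) →
      (∀ m, (∀ k, m k ≤ r) → nval b m = y m) →
      ∃ c, LevC F V r M y c ∧ ∀ i, (∀ k, i k ≤ M) → ∀ j, ‖c i j - b i j‖ ≤ η M) := by
    intro M
    by_cases hM : r ≤ M
    · obtain ⟨ε, h1, h2⟩ := gap_close hF hD hV hM y (hη M)
      exact ⟨ε, h1, fun _ => h2⟩
    · exact ⟨1, one_pos, fun h => absurd h hM⟩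
  choose ε0 hε0 hcl using hcl
  let ε : ℕ → ℝ := fun s => min 1 ((Finset.range (s + 1)).inf' ⟨0, by simp⟩
    fun M => min (ε0 M) (ρ M / 4))
  have hε : ∀ s, 0 < ε s := fun s => lt_min one_pos ((Finset.lt_inf'_iff _).2 fun M _ =>
    lt_min (hε0 M) (by have := hρ M; positivity))
  have hε1 : ∀ s M, M ≤ s → ε s ≤ ε0 M ∧ ε s ≤ ρ M / 4 := by
    intro s M hM
    have h1 : ε s ≤ min (ε0 M) (ρ M / 4) := (min_le_right _ _).trans
      (Finset.inf'_le (fun M => min (ε0 M) (ρ M / 4))
        (Finset.mem_range.2 (Nat.lt_succ_of_le hM)))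
    exact ⟨h1.trans (min_le_left _ _), h1.trans (min_le_right _ _)⟩
  have hanti : Antitone ε := by
    intro s s' hss
    refine le_min (min_le_left _ _) ((Finset.le_inf'_iff _ _).2 fun M hM => ?_)
    rw [Finset.mem_range, Nat.lt_succ_iff] at hM
    exact le_min (hε1 s' M (hM.trans hss)).1 (hε1 s' M (hM.trans hss)).2
  refine ⟨ε, hε, fun b hbF hfl hbV hby => ?_⟩
  obtain ⟨s₀, hs₀⟩ := hfl
  obtain ⟨N0, hN0⟩ : ∃ N0 : ℕ, ∀ i ∈ Finset.Iic (fun _ : Fin 1 => s₀), ∀ l, ‖b i l‖ ≤ N0 := by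
    obtain ⟨N0, hN0⟩ := exists_nat_ge (∑ i ∈ Finset.Iic (fun _ : Fin 1 => s₀), ∑ l, ‖b i l‖)
    refine ⟨N0, fun i hi l => le_trans ?_ hN0⟩
    refine le_trans ?_ (Finset.single_le_sum
      (f := fun i => ∑ l, ‖b i l‖) (fun i _ => Finset.sum_nonneg fun l _ => norm_nonneg _) hi)
    exact Finset.single_le_sum (f := fun l => ‖b i l‖) (fun l _ => norm_nonneg _)
      (Finset.mem_univ l)
  let M0 : ℕ := max (max s₀ r) (max N0 1)
  have m1 : s₀ ≤ M0 := (le_max_left _ _).trans (le_max_left _ _)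
  have m2 : r ≤ M0 := (le_max_right _ _).trans (le_max_left _ _)
  have m3 : N0 ≤ M0 := (le_max_left _ _).trans (le_max_right _ _)
  have m4 : 1 ≤ M0 := (le_max_right _ _).trans (le_max_right _ _)
  have hlev : ∀ M, M0 ≤ M → ∃ c, LevC F V r M y c ∧ ∀ i, (∀ k, i k ≤ M) → ∀ j,
      ‖c i j - b i j‖ ≤ η M := by
    intro M hM
    refine hcl M (m2.trans hM) b hbF (fun i hi l => ?_) (fun i _ hi l => ?_)
      (fun m _ P hP => hbV m P hP) hby
    · rcases le_or_gt s₀ (mx i) with h | h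
      · refine (hs₀ i h l).trans ((min_le_left _ _).trans ?_)
        exact_mod_cast m4.trans hM
      · refine (hN0 i (Finset.mem_Iic.2 fun k => (le_mx i k).trans h.le) l).trans ?_
        exact_mod_cast m3.trans hM
    · obtain ⟨k, hk⟩ := hi
      have h1 : M < mx i := hk.trans_le (le_mx i k)
      exact (hs₀ i (by omega) l).trans (hε1 (mx i) M h1.le).1
  choose! c hc hcb using hlev
  -- consecutive curves are close
  have hclose : ∀ M, M0 ≤ M → ∀ i j, ‖c M i j - c (M + 1) i j‖ ≤ ρ (M + 1) := by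
    intro M hM i j
    have hρ1 := hρ (M + 1)
    have g1 : η M ≤ ρ (M + 1) / 4 := (min_le_left _ _).trans (min_le_right _ _)
    have g2 : η (M + 1) ≤ ρ (M + 1) / 4 := (min_le_left _ _).trans (min_le_left _ _)
    by_cases hi : ∀ k, i k ≤ M
    · have h1 := (hcb M hM i hi j).trans g1
      have h2 := (hcb (M + 1) (by omega) i (fun k => (hi k).trans (Nat.le_succ M)) j).trans g2
      have h3 : c M i j - c (M + 1) i j = (c M i j - b i j) - (c (M + 1) i j - b i j) := by ring
      rw [h3]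
      refine (norm_sub_le _ _).trans ?_
      linarith
    · rw [(hc M hM).sup i hi, Pi.zero_apply, zero_sub, norm_neg]
      by_cases hi' : ∀ k, i k ≤ M + 1
      · have h2 := (hcb (M + 1) (by omega) i hi' j).trans g2
        have h4 : M + 1 ≤ mx i := by
          push Not at hi
          obtain ⟨k, hk⟩ := hi
          exact (Nat.succ_le_of_lt hk).trans (le_mx i k)
        have h3 : ‖b i j‖ ≤ ρ (M + 1) / 4 :=
          (hs₀ i (by omega) j).trans (hε1 (mx i) (M + 1) h4).2
        have h5 : c (M + 1) i j = (c (M + 1) i j - b i j) + b i j := by ring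
        rw [h5]
        refine (norm_add_le _ _).trans ?_
        linarith
      · rw [(hc (M + 1) (by omega)).sup i hi', Pi.zero_apply, norm_zero]
        exact hρ1.le
  have hcs : ∀ M M', M ≤ M' → M0 ≤ M → cur ι M' (c M) = cur ι M (c M) := by
    intro M M' hMM hM
    funext j
    unfold cur
    rw [npoly_succ hMM (hc M hM).sup]
  have hsame : ∀ k, Same (cur ι M0 (c M0)) (cur ι (M0 + k) (c (M0 + k))) := by
    intro k
    induction k with
    | zero => exact Same.refl _
    | succ k ih =>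
      have h2 := hsep (M0 + k + 1) (by omega) (c (M0 + k)) (c (M0 + k + 1))
        ((hc (M0 + k) (by omega)).mono (Nat.le_succ _)) (hc (M0 + k + 1) (by omega))
        (hclose (M0 + k) (by omega))
      rw [hcs (M0 + k) (M0 + k + 1) (Nat.le_succ _) (by omega)] at h2
      exact ih.trans h2
  refine ⟨cur ι M0 (c M0), hpoly M0 _ m2 (hc M0 le_rfl), fun G hG hG0 m => ?_⟩
  obtain ⟨e, he⟩ := hG
  let _ : Algebra C ℂ := ι.toAlgebra
  obtain ⟨I, g, hg, hgu⟩ := form_dec (C := C) G he
  have hgu' : ∀ u : Fin (n + 1) → C, eval (fun j => ι (u j)) G = 0 ↔ ∀ i, eval u (g i) = 0 := hgu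
  rw [hgu']
  intro i
  have h1 : ∀ k : ℕ, eval (nval (c (M0 + k)) m) (g i) = 0 := by
    intro k
    have h2 : ∀ z : ℂ, eval (fun j => (cur ι M0 (c M0) j).eval z) (map ι (g i)) = 0 := by
      rw [cur_van ι (hc M0 le_rfl).sup] at hG0 ⊢
      intro m'
      rw [eval_map', (hgu' _).1 (hG0 m') i, map_zero]
    have h3 := (hsame k (map ι (g i)) ⟨e, (hg i).map ι⟩).1 h2
    rw [cur_van ι (hc (M0 + k) (by omega)).sup] at h3
    have h4 := h3 (m 0)
    rw [eval_map', map_eq_zero] at h4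
    have h5 : (fun _ : Fin 1 => m 0) = m := by
      funext l
      rw [Subsingleton.elim l 0]
    rwa [h5] at h4
  have h2 : Tendsto (fun k : ℕ => nval (c (M0 + k)) m) atTop (𝓝 (nval b m)) := by
    rw [tendsto_pi_nhds]
    intro j
    unfold nval
    refine tendsto_finsetSum _ fun i hi => ?_
    refine Tendsto.const_mul _ ?_
    rw [tendsto_iff_norm_sub_tendsto_zero]
    refine squeeze_zero' (Eventually.of_forall fun _ => norm_nonneg _) ?_
      (tendsto_one_div_add_atTop_nhds_zero_nat (𝕜 := ℝ))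
    filter_upwards [eventually_ge_atTop (mx m)] with k hk
    rw [Finset.mem_Iic] at hi
    refine (hcb (M0 + k) (by omega) i (fun l => ?_) j).trans ((min_le_right _ _).trans ?_)
    · exact ((hi l).trans (le_mx m l)).trans (le_trans hk (Nat.le_add_left _ _))
    · refine one_div_le_one_div_of_le (by positivity) ?_
      push_cast
      have : (0 : ℝ) ≤ M0 := Nat.cast_nonneg _
      linarith
  have h3 : Tendsto (fun k : ℕ => eval (nval (c (M0 + k)) m) (g i)) atTop
      (𝓝 (eval (nval b m) (g i))) :=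
    ((MvPolynomial.continuous_eval (g i)).tendsto _).comp h2
  simp only [h1] at h3
  exact tendsto_nhds_unique h3 tendsto_const_nhds

end sep

end Pool.Agent.Q64.FS
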