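import Pool.Agent.Q64.FS.Sp1
import Pool.Agent.Q64.LC.Cmp

/-!
Flat sequences and rational functions which are constant on all families of polynomial curves.
-/

set_option autoImplicit false

namespace Pool.Agent.Q64.FS

open MvPolynomial Filter Topology Pool.Agent.Q64.LC Pool.Agent.TH143.GT Pool.Agent.W602.GT

variable {n : ℕ} {C : Type}

/-- the form in two groups of variables -/
noncomputable def two (g1 g0 : MvPolynomial (Fin (n + 1)) ℂ) :
    MvPolynomial (Fin (n + 1) ⊕ Fin (n + 1)) ℂ :=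
  rename Sum.inl g1 * rename Sum.inr g0 - rename Sum.inr g1 * rename Sum.inl g0

theorem two_eval (g1 g0 : MvPolynomial (Fin (n + 1)) ℂ) (u v : Fin (n + 1) → ℂ) :
    eval (Sum.elim u v) (two g1 g0) = eval u g1 * eval v g0 - eval v g1 * eval u g0 := by
  unfold two
  rw [map_sub, map_mul, map_mul, eval_rename, eval_rename, eval_rename, eval_rename,
    Sum.elim_comp_inl, Sum.elim_comp_inr]

theorem two_homog {g1 g0 : MvPolynomial (Fin (n + 1)) ℂ} {d : ℕ} (h1 : g1.IsHomogeneous d)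
    (h0 : g0.IsHomogeneous d) : (two g1 g0).IsHomogeneous (d + d) := by
  unfold two
  exact ((h1.rename_isHomogeneous).mul (h0.rename_isHomogeneous)).sub
    ((h1.rename_isHomogeneous).mul (h0.rename_isHomogeneous))

/-- it is enough to consider natural numbers -/
theorem nct_iff (g1 g0 : MvPolynomial (Fin (n + 1)) ℂ) (T : Fin (n + 1) → Polynomial ℂ) :
    NCT g1 g0 T ↔ ∃ s t : ℕ, eval (fun j => (T j).eval (s : ℂ)) g1 *
      eval (fun j => (T j).eval (t : ℂ)) g0 ≠ eval (fun j => (T j).eval (t : ℂ)) g1 *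
      eval (fun j => (T j).eval (s : ℂ)) g0 := by
  constructor
  · intro h
    by_contra hno
    push Not at hno
    obtain ⟨s, t, hst⟩ := h
    apply hst
    have h1 : ∀ (t : ℕ) (s : ℂ), eval (fun j => (T j).eval s) g1 *
        eval (fun j => (T j).eval (t : ℂ)) g0 = eval (fun j => (T j).eval (t : ℂ)) g1 *
        eval (fun j => (T j).eval s) g0 := by
      intro t s
      have h2 : (aeval T g1 : Polynomial ℂ) * Polynomial.C (eval (fun j => (T j).eval (t : ℂ)) g0) =
          Polynomial.C (eval (fun j => (T j).eval (t : ℂ)) g1) * aeval T g0 := by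
        apply Polynomial.eq_of_infinite_eval_eq
        refine Set.Infinite.mono (s := Set.range fun m : ℕ => (m : ℂ)) ?_
          (Set.infinite_range_of_injective Nat.cast_injective)
        rintro _ ⟨m, rfl⟩
        change Polynomial.eval _ _ = Polynomial.eval _ _
        rw [Polynomial.eval_mul, Polynomial.eval_mul, Polynomial.eval_C, Polynomial.eval_C,
          ev_aeval, ev_aeval]
        exact hno m t
      have h3 := congrArg (Polynomial.eval s) h2
      rw [Polynomial.eval_mul, Polynomial.eval_mul, Polynomial.eval_C, Polynomial.eval_C,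
        ev_aeval, ev_aeval] at h3
      exact h3
    have h2 : Polynomial.C (eval (fun j => (T j).eval s) g1) * (aeval T g0 : Polynomial ℂ) =
        aeval T g1 * Polynomial.C (eval (fun j => (T j).eval s) g0) := by
      apply Polynomial.eq_of_infinite_eval_eq
      refine Set.Infinite.mono (s := Set.range fun m : ℕ => (m : ℂ)) ?_
        (Set.infinite_range_of_injective Nat.cast_injective)
      rintro _ ⟨m, rfl⟩
      change Polynomial.eval _ _ = Polynomial.eval _ _
      rw [Polynomial.eval_mul, Polynomial.eval_mul, Polynomial.eval_C, Polynomial.eval_C,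
        ev_aeval, ev_aeval]
      exact h1 m s
    have h3 := congrArg (Polynomial.eval t) h2
    rw [Polynomial.eval_mul, Polynomial.eval_mul, Polynomial.eval_C, Polynomial.eval_C,
      ev_aeval, ev_aeval] at h3
    exact h3
  · rintro ⟨s, t, hst⟩
    exact ⟨s, t, hst⟩

theorem nct_cur [Field C] [CharZero C] (ι : C →+* ℂ) {M : ℕ}
    {c : (Fin 1 → ℕ) → Fin (n + 1) → C} (hc : ∀ i, ¬ (∀ k, i k ≤ M) → c i = 0)
    (g1 g0 : MvPolynomial (Fin (n + 1)) ℂ) :
    NCT g1 g0 (cur ι M c) ↔ ∃ s t : ℕ, eval (Sum.elim (fun j => ι (nval c (fun _ => s) j))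
      (fun j => ι (nval c (fun _ => t) j))) (two g1 g0) ≠ 0 := by
  rw [nct_iff]
  refine exists_congr fun s => exists_congr fun t => ?_
  have h1 : ∀ m : ℕ, (fun j => (cur ι M c j).eval (m : ℂ)) =
      fun j => ι (nval c (fun _ => m) j) := fun m => funext fun j => cur_eval ι hc m j
  rw [h1, h1, two_eval, Ne, Ne, sub_eq_zero]

section sep

variable [NormedField C] [CharZero C] {F : Subfield C} {p : Ideal (MvPolynomial (Fin (n + 1)) ℂ)}
  {Q : MvPolynomial (Fin (n + 1)) ℂ}

theorem elim_comp {A B : Type} (f : A → B) (u v : Fin (n + 1) → A) :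
    (fun j => f (Sum.elim u v j)) = Sum.elim (fun j => f (u j)) (fun j => f (v j)) := by
  funext j
  cases j <;> rfl

theorem tendsto_two (g : MvPolynomial (Fin (n + 1) ⊕ Fin (n + 1)) C)
    {u v : ℕ → Fin (n + 1) → C} {a b : Fin (n + 1) → C} (hu : Tendsto u atTop (𝓝 a))
    (hv : Tendsto v atTop (𝓝 b)) :
    Tendsto (fun k => eval (Sum.elim (u k) (v k)) g) atTop (𝓝 (eval (Sum.elim a b) g)) := by
  refine ((MvPolynomial.continuous_eval g).tendsto _).comp ?_
  rw [tendsto_pi_nhds]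
  intro j
  cases j with
  | inl j => exact (tendsto_pi_nhds.1 hu) j
  | inr j => exact (tendsto_pi_nhds.1 hv) j

/-- **Separation.** -/
theorem separateN (hF : LocComp F) (ι : C →+* ℂ) {V : Set (MvPolynomial (Fin (n + 1)) C)} {D : ℕ}
    (hV : ∀ P ∈ V, P.totalDegree ≤ D) {r M : ℕ} {y : (Fin 1 → ℕ) → Fin (n + 1) → C}
    (hpoly : ∀ c, LevC F V r M y c → PolyCurve p Q (cur ι M c)) {d : ℕ}
    {g1 g0 : MvPolynomial (Fin (n + 1)) ℂ} (h1 : g1.IsHomogeneous d) (h0 : g0.IsHomogeneous d)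
    (hfin : FinClR p Q M (NCT g1 g0)) :
    ∃ ρ : ℝ, 0 < ρ ∧ ∀ c c', LevC F V r M y c → LevC F V r M y c' → NCT g1 g0 (cur ι M c) →
      (∀ i j, ‖c i j - c' i j‖ ≤ ρ) →
      NCT g1 g0 (cur ι M c') ∧ Same (cur ι M c) (cur ι M c') := by
  classical
  obtain ⟨L, hL, cl, hcl⟩ := hfin
  by_contra hno
  push Not at hno
  have hk : ∀ k : ℕ, (0 : ℝ) < 1 / ((k : ℝ) + 1) := fun k => by positivity
  choose T T' hT hT' hR hd hne using fun k : ℕ => hno _ (hk k)
  let U : Ultrafilter ℕ := hyperfilter ℕ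
  have hU : (U : Filter ℕ) ≤ atTop := Nat.hyperfilter_le_atTop
  obtain ⟨α, hα⟩ := (U.map fun k => cl (cur ι M (T k))).eq_pure_of_finite
  obtain ⟨β, hβ⟩ := (U.map fun k => cl (cur ι M (T' k))).eq_pure_of_finite
  have hα' : ∀ᶠ k in (U : Filter ℕ), cl (cur ι M (T k)) = α := by
    have h1 : ({α} : Set L) ∈ U.map fun k => cl (cur ι M (T k)) := by
      rw [hα]
      exact Set.mem_singleton α
    exact h1
  have hβ' : ∀ᶠ k in (U : Filter ℕ), cl (cur ι M (T' k)) = β := by
    have h1 : ({β} : Set L) ∈ U.map fun k => cl (cur ι M (T' k)) := by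
      rw [hβ]
      exact Set.mem_singleton β
    exact h1
  obtain ⟨a, ha, hlim⟩ := levC_limit hF hV hT U
  have hlim' : Tendsto T' U (𝓝 a) := by
    rw [tendsto_pi_nhds]
    intro i
    rw [tendsto_pi_nhds]
    intro j
    have h1 : Tendsto (fun k => T k i j - T' k i j) U (𝓝 0) :=
      squeeze_zero_norm (a := fun k : ℕ => 1 / ((k : ℝ) + 1)) (fun k => hd k i j)
        (tendsto_one_div_add_atTop_nhds_zero_nat.mono_left hU)
    have h2 : Tendsto (fun k => T k i j) U (𝓝 (a i j)) := by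
      have h7 : Continuous fun c : (Fin 1 → ℕ) → Fin (n + 1) → C => c i j :=
        (continuous_apply j).comp (continuous_apply i)
      exact (h7.tendsto a).comp hlim
    have h3 := h2.sub h1
    rw [sub_zero] at h3
    refine h3.congr fun k => ?_
    ring
  have key : ∀ (W : ℕ → (Fin 1 → ℕ) → Fin (n + 1) → C) (γ : L) (k0 : ℕ),
      (∀ k, LevC F V r M y (W k)) → Tendsto W U (𝓝 a) →
      (∀ᶠ k in (U : Filter ℕ), cl (cur ι M (W k)) = γ ∧ NCT g1 g0 (cur ι M (W k))) →
      cl (cur ι M (W k0)) = γ → NCT g1 g0 (cur ι M (W k0)) →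
      Same (cur ι M (W k0)) (cur ι M a) := by
    intro W γ k0 hW hWa hγ hγ0 hN0
    refine same_of_le (hpoly a ha).ind fun G hG hG0 => ?_
    obtain ⟨e, he⟩ := hG
    let _ : Algebra C ℂ := ι.toAlgebra
    obtain ⟨I, g, hg, hgu⟩ := form_dec (C := C) G he
    have hgu' : ∀ u : Fin (n + 1) → C, eval (fun j => ι (u j)) G = 0 ↔ ∀ i, eval u (g i) = 0 := hgu
    rw [cur_van ι ha.sup]
    intro m
    rw [hgu']
    intro i
    rw [cur_van ι (hW k0).sup] at hG0
    have h1 : ∀ᶠ k in (U : Filter ℕ), eval (nval (W k) fun _ => m) (g i) = 0 := by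
      filter_upwards [hγ] with k hk
      have h2 : ∀ z : ℂ, eval (fun j => (cur ι M (W k0) j).eval z) (map ι (g i)) = 0 := by
        rw [cur_van ι (hW k0).sup]
        intro m'
        rw [eval_map', (hgu' _).1 (hG0 m') i, map_zero]
      have h3 := (hcl _ _ (hpoly _ (hW k0)) (fun j => cur_natDegree ι M _ j) hN0 (hpoly _ (hW k))
        (fun j => cur_natDegree ι M _ j) hk.2 (hγ0.trans hk.1.symm) (map ι (g i))
        ⟨e, (hg i).map ι⟩).1 h2
      rw [cur_van ι (hW k).sup] at h3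
      have h4 := h3 m
      rw [eval_map', map_eq_zero] at h4
      exact h4
    have h5 : Tendsto (fun k => eval (nval (W k) fun _ => m) (g i)) U
        (𝓝 (eval (nval a fun _ => m) (g i))) :=
      ((MvPolynomial.continuous_eval (g i)).tendsto _).comp
        (((continuous_nval fun _ => m).tendsto a).comp hWa)
    exact tendsto_nhds_unique h5 (tendsto_const_nhds.congr' (h1.mono fun k hk => hk.symm))
  obtain ⟨k1, hk1⟩ := hα'.exists
  have e1 := key T α k1 hT hlim (hα'.mono fun k hk => ⟨hk, hR k⟩) hk1 (hR k1)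
  have hN : NCT g1 g0 (cur ι M a) := (hR k1).of_same h1 h0 e1
  have hev : ∀ᶠ k in (U : Filter ℕ), NCT g1 g0 (cur ι M (T' k)) := by
    rw [nct_cur ι ha.sup] at hN
    obtain ⟨s, t, hst⟩ := hN
    let _ : Algebra C ℂ := ι.toAlgebra
    obtain ⟨I, g, hg, hgu⟩ := form_dec (C := C) (two g1 g0) (two_homog h1 h0)
    have hgu' : ∀ u : Fin (n + 1) ⊕ Fin (n + 1) → C,
        eval (fun j => ι (u j)) (two g1 g0) = 0 ↔ ∀ i, eval u (g i) = 0 := hgu
    have h2 : ∃ i, eval (Sum.elim (nval a fun _ => s) (nval a fun _ => t)) (g i) ≠ 0 := by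
      by_contra hno
      push Not at hno
      apply hst
      rw [← elim_comp]
      exact (hgu' _).2 hno
    obtain ⟨i, hi⟩ := h2
    have h3 : Continuous fun c : (Fin 1 → ℕ) → Fin (n + 1) → C =>
        eval (Sum.elim (nval c fun _ => s) (nval c fun _ => t)) (g i) := by
      refine (MvPolynomial.continuous_eval (g i)).comp (continuous_pi fun j => ?_)
      cases j with
      | inl j => exact (continuous_apply j).comp (continuous_nval fun _ => s)
      | inr j => exact (continuous_apply j).comp (continuous_nval fun _ => t)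
    have h4 := ((h3.tendsto a).comp hlim').eventually_ne hi
    filter_upwards [h4] with k hk
    rw [nct_cur ι (hT' k).sup]
    refine ⟨s, t, fun h5 => hk ?_⟩
    rw [← elim_comp] at h5
    exact (hgu' _).1 h5 i
  obtain ⟨k0, hk0, hk0', hk0''⟩ := (hα'.and (hβ'.and hev)).exists
  exact hne k0 hk0'' ((key T α k0 hT hlim (hα'.mono fun k hk => ⟨hk, hR k⟩) hk0 (hR k0)).trans
    (key T' β k0 hT' hlim' (hβ'.and hev) hk0' hk0'').symm)

/-- **The dichotomy for flat sequences.** -/
theorem flat_curveN (hF : LocComp F) (ι : C →+* ℂ) {V : Set (MvPolynomial (Fin (n + 1)) C)}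
    {D : ℕ} (hD : 1 ≤ D) (hV : ∀ P ∈ V, P.totalDegree ≤ D) {r : ℕ}
    (y : (Fin 1 → ℕ) → Fin (n + 1) → C)
    (hpoly : ∀ M c, r ≤ M → LevC F V r M y c → PolyCurve p Q (cur ι M c)) {d : ℕ}
    {g1 g0 : MvPolynomial (Fin (n + 1)) ℂ} (h1 : g1.IsHomogeneous d) (h0 : g0.IsHomogeneous d)
    (hfin : ∀ M, FinClR p Q M (NCT g1 g0)) :
    ∃ ε : ℕ → ℝ, (∀ s, 0 < ε s) ∧ ∀ b : (Fin 1 → ℕ) → Fin (n + 1) → C, (∀ i j, b i j ∈ F) →
      FlatC ε b → (∀ m, ∀ P ∈ V, eval (nval b m) P = 0) →
      (∀ m : Fin 1 → ℕ, (∀ k, m k ≤ r) → nval b m = y m) →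
      (∃ T : Fin (n + 1) → Polynomial ℂ, PolyCurve p Q T ∧ ∀ G, IsForm G →
        (∀ z : ℂ, eval (fun j => (T j).eval z) G = 0) →
        ∀ m, eval (fun j => ι (nval b m j)) G = 0) ∨
      ∀ s t, eval (fun j => ι (nval b s j)) g1 * eval (fun j => ι (nval b t j)) g0 =
        eval (fun j => ι (nval b t j)) g1 * eval (fun j => ι (nval b s j)) g0 := by
  classical
  have hsep : ∀ M : ℕ, ∃ ρ : ℝ, 0 < ρ ∧ (r ≤ M → ∀ c c', LevC F V r M y c → LevC F V r M y c' →
      NCT g1 g0 (cur ι M c) → (∀ i j, ‖c i j - c' i j‖ ≤ ρ) →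
      NCT g1 g0 (cur ι M c') ∧ Same (cur ι M c) (cur ι M c')) := by
    intro M
    by_cases hM : r ≤ M
    · obtain ⟨ρ, h2, h3⟩ := separateN hF ι hV (fun c => hpoly M c hM) h1 h0 (hfin M)
      exact ⟨ρ, h2, fun _ => h3⟩
    · exact ⟨1, one_pos, fun h => absurd h hM⟩
  choose ρ hρ hsep using hsep
  let η : ℕ → ℝ := fun M => min (min (ρ M / 4) (ρ (M + 1) / 4)) (1 / ((M : ℝ) + 1))
  have hη : ∀ M, 0 < η M := by
    intro M
    have := hρ M
    have := hρ (M + 1)
    exact lt_min (lt_min (by positivity) (by positivity)) (by positivity)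
  have hcl : ∀ M : ℕ, ∃ ε : ℝ, 0 < ε ∧ (r ≤ M → ∀ b : (Fin 1 → ℕ) → Fin (n + 1) → C,
      (∀ i j, b i j ∈ F) → (∀ i, (∀ k, i k ≤ M) → ∀ j, ‖b i j‖ ≤ M) →
      (∀ i, (∀ k, i k ≤ D * M) → (∃ k, M < i k) → ∀ j, ‖b i j‖ ≤ ε) →
      (∀ m, (∀ k, m k ≤ D * M) → ∀ P ∈ V, eval (nval b m) P = 0) →
      (∀ m, (∀ k, m k ≤ r) → nval b m = y m) →
      ∃ c, LevC F V r M y c ∧ ∀ i, (∀ k, i k ≤ M) → ∀ j, ‖c i j - b i j‖ ≤ η M) := by
    intro M
    by_cases hM : r ≤ M
    · obtain ⟨ε, h1, h2⟩ := gap_close hF hD hV hM y (hη M)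
      exact ⟨ε, h1, fun _ => h2⟩
    · exact ⟨1, one_pos, fun h => absurd h hM⟩
  choose ε0 hε0 hcl using hcl
  let ε : ℕ → ℝ := fun s => min 1 ((Finset.range (s + 1)).inf' ⟨0, by simp⟩
    fun M => min (ε0 M) (ρ M / 4))
  have hε : ∀ s, 0 < ε s := fun s => lt_min one_pos ((Finset.lt_inf'_iff _).2 fun M _ =>
    lt_min (hε0 M) (by have := hρ M; positivity))
  have hε1 : ∀ s M, M ≤ s → ε s ≤ ε0 M ∧ ε s ≤ ρ M / 4 := by
    intro s M hM
    have h1 : ε s ≤ min (ε0 M) (ρ M / 4) := (min_le_right _ _).trans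
      (Finset.inf'_le (fun M => min (ε0 M) (ρ M / 4))
        (Finset.mem_range.2 (Nat.lt_succ_of_le hM)))
    exact ⟨h1.trans (min_le_left _ _), h1.trans (min_le_right _ _)⟩
  refine ⟨ε, hε, fun b hbF hfl hbV hby => ?_⟩
  obtain ⟨s₀, hs₀⟩ := hfl
  obtain ⟨N0, hN0⟩ : ∃ N0 : ℕ, ∀ i ∈ Finset.Iic (fun _ : Fin 1 => s₀), ∀ l, ‖b i l‖ ≤ N0 := by
    obtain ⟨N0, hN0⟩ := exists_nat_ge (∑ i ∈ Finset.Iic (fun _ : Fin 1 => s₀), ∑ l, ‖b i l‖)
    refine ⟨N0, fun i hi l => le_trans ?_ hN0⟩
    refine le_trans ?_ (Finset.single_le_sum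
      (f := fun i => ∑ l, ‖b i l‖) (fun i _ => Finset.sum_nonneg fun l _ => norm_nonneg _) hi)
    exact Finset.single_le_sum (f := fun l => ‖b i l‖) (fun l _ => norm_nonneg _)
      (Finset.mem_univ l)
  let M0 : ℕ := max (max s₀ r) (max N0 1)
  have m1 : s₀ ≤ M0 := (le_max_left _ _).trans (le_max_left _ _)
  have m2 : r ≤ M0 := (le_max_right _ _).trans (le_max_left _ _)
  have m3 : N0 ≤ M0 := (le_max_left _ _).trans (le_max_right _ _)
  have m4 : 1 ≤ M0 := (le_max_right _ _).trans (le_max_right _ _)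
  have hlev : ∀ M, M0 ≤ M → ∃ c, LevC F V r M y c ∧ ∀ i, (∀ k, i k ≤ M) → ∀ j,
      ‖c i j - b i j‖ ≤ η M := by
    intro M hM
    refine hcl M (m2.trans hM) b hbF (fun i hi l => ?_) (fun i _ hi l => ?_)
      (fun m _ P hP => hbV m P hP) hby
    · rcases le_or_gt s₀ (mx i) with h | h
      · refine (hs₀ i h l).trans ((min_le_left _ _).trans ?_)
        exact_mod_cast m4.trans hM
      · refine (hN0 i (Finset.mem_Iic.2 fun k => (le_mx i k).trans h.le) l).trans ?_
        exact_mod_cast m3.trans hM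
    · obtain ⟨k, hk⟩ := hi
      have h1 : M < mx i := hk.trans_le (le_mx i k)
      exact (hs₀ i (by omega) l).trans (hε1 (mx i) M h1.le).1
  choose! c hc hcb using hlev
  -- consecutive curves are close
  have hclose : ∀ M, M0 ≤ M → ∀ i j, ‖c M i j - c (M + 1) i j‖ ≤ ρ (M + 1) := by
    intro M hM i j
    have hρ1 := hρ (M + 1)
    have g1 : η M ≤ ρ (M + 1) / 4 := (min_le_left _ _).trans (min_le_right _ _)
    have g2 : η (M + 1) ≤ ρ (M + 1) / 4 := (min_le_left _ _).trans (min_le_left _ _)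
    by_cases hi : ∀ k, i k ≤ M
    · have h1 := (hcb M hM i hi j).trans g1
      have h2 := (hcb (M + 1) (by omega) i (fun k => (hi k).trans (Nat.le_succ M)) j).trans g2
      have h3 : c M i j - c (M + 1) i j = (c M i j - b i j) - (c (M + 1) i j - b i j) := by ring
      rw [h3]
      refine (norm_sub_le _ _).trans ?_
      linarith
    · rw [(hc M hM).sup i hi, Pi.zero_apply, zero_sub, norm_neg]
      by_cases hi' : ∀ k, i k ≤ M + 1
      · have h2 := (hcb (M + 1) (by omega) i hi' j).trans g2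
        have h4 : M + 1 ≤ mx i := by
          push Not at hi
          obtain ⟨k, hk⟩ := hi
          exact (Nat.succ_le_of_lt hk).trans (le_mx i k)
        have h3 : ‖b i j‖ ≤ ρ (M + 1) / 4 :=
          (hs₀ i (by omega) j).trans (hε1 (mx i) (M + 1) h4).2
        have h5 : c (M + 1) i j = (c (M + 1) i j - b i j) + b i j := by ring
        rw [h5]
        refine (norm_add_le _ _).trans ?_
        linarith
      · rw [(hc (M + 1) (by omega)).sup i hi', Pi.zero_apply, norm_zero]
        exact hρ1.le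
  have hcs : ∀ M M', M ≤ M' → M0 ≤ M → cur ι M' (c M) = cur ι M (c M) := by
    intro M M' hMM hM
    funext j
    unfold cur
    rw [npoly_succ hMM (hc M hM).sup]
  have hlimn : ∀ (M' : ℕ), M0 ≤ M' → ∀ m, Tendsto (fun k : ℕ => nval (c (M' + k)) m) atTop
      (𝓝 (nval b m)) := by
    intro M' hM' m
    rw [tendsto_pi_nhds]
    intro j
    unfold nval
    refine tendsto_finsetSum _ fun i hi => ?_
    refine Tendsto.const_mul _ ?_
    rw [tendsto_iff_norm_sub_tendsto_zero]
    refine squeeze_zero' (Eventually.of_forall fun _ => norm_nonneg _) ?_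
      (tendsto_one_div_add_atTop_nhds_zero_nat (𝕜 := ℝ))
    filter_upwards [eventually_ge_atTop (mx m)] with k hk
    rw [Finset.mem_Iic] at hi
    refine (hcb (M' + k) (by omega) i (fun l => ?_) j).trans ((min_le_right _ _).trans ?_)
    · exact ((hi l).trans (le_mx m l)).trans (le_trans hk (Nat.le_add_left _ _))
    · refine one_div_le_one_div_of_le (by positivity) ?_
      push_cast
      have : (0 : ℝ) ≤ M' := Nat.cast_nonneg _
      linarith
  let _ : Algebra C ℂ := ι.toAlgebra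
  by_cases hex : ∃ M, M0 ≤ M ∧ NCT g1 g0 (cur ι M (c M))
  · left
    obtain ⟨M', hM', hN⟩ := hex
    have hsame : ∀ k, NCT g1 g0 (cur ι (M' + k) (c (M' + k))) ∧
        Same (cur ι M' (c M')) (cur ι (M' + k) (c (M' + k))) := by
      intro k
      induction k with
      | zero => exact ⟨hN, Same.refl _⟩
      | succ k ih =>
        have h2 := hsep (M' + k + 1) (by omega) (c (M' + k)) (c (M' + k + 1))
          ((hc (M' + k) (by omega)).mono (Nat.le_succ _)) (hc (M' + k + 1) (by omega))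
          (by rw [hcs (M' + k) (M' + k + 1) (Nat.le_succ _) (by omega)]; exact ih.1)
          (hclose (M' + k) (by omega))
        rw [hcs (M' + k) (M' + k + 1) (Nat.le_succ _) (by omega)] at h2
        exact ⟨h2.1, ih.2.trans h2.2⟩
    refine ⟨cur ι M' (c M'), hpoly M' _ (m2.trans hM') (hc M' hM'), fun G hG hG0 m => ?_⟩
    obtain ⟨e, he⟩ := hG
    obtain ⟨I, g, hg, hgu⟩ := form_dec (C := C) G he
    have hgu' : ∀ u : Fin (n + 1) → C, eval (fun j => ι (u j)) G = 0 ↔ ∀ i, eval u (g i) = 0 := hgu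
    rw [hgu']
    intro i
    have h1 : ∀ k : ℕ, eval (nval (c (M' + k)) m) (g i) = 0 := by
      intro k
      have h2 : ∀ z : ℂ, eval (fun j => (cur ι M' (c M') j).eval z) (map ι (g i)) = 0 := by
        rw [cur_van ι (hc M' hM').sup] at hG0 ⊢
        intro m'
        rw [eval_map', (hgu' _).1 (hG0 m') i, map_zero]
      have h3 := ((hsame k).2 (map ι (g i)) ⟨e, (hg i).map ι⟩).1 h2
      rw [cur_van ι (hc (M' + k) (by omega)).sup] at h3
      have h4 := h3 (m 0)
      rw [eval_map', map_eq_zero] at h4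
      have h5 : (fun _ : Fin 1 => m 0) = m := by
        funext l
        rw [Subsingleton.elim l 0]
      rwa [h5] at h4
    have h3 : Tendsto (fun k : ℕ => eval (nval (c (M' + k)) m) (g i)) atTop
        (𝓝 (eval (nval b m) (g i))) :=
      ((MvPolynomial.continuous_eval (g i)).tendsto _).comp (hlimn M' hM' m)
    simp only [h1] at h3
    exact tendsto_nhds_unique h3 tendsto_const_nhds
  · right
    push Not at hex
    intro s t
    obtain ⟨I, g, hg, hgu⟩ := form_dec (C := C) (two g1 g0) (two_homog h1 h0)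
    have hgu' : ∀ u : Fin (n + 1) ⊕ Fin (n + 1) → C,
        eval (fun j => ι (u j)) (two g1 g0) = 0 ↔ ∀ i, eval u (g i) = 0 := hgu
    rw [← sub_eq_zero, ← two_eval, ← elim_comp, hgu']
    intro i
    have h2 : ∀ k : ℕ, eval (Sum.elim (nval (c (M0 + k)) s) (nval (c (M0 + k)) t)) (g i) = 0 := by
      intro k
      have h3 := hex (M0 + k) (by omega)
      rw [nct_cur ι (hc (M0 + k) (by omega)).sup] at h3
      push Not at h3
      have h4 := h3 (s 0) (t 0)
      have h5 : (fun _ : Fin 1 => s 0) = s := by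
        funext l
        rw [Subsingleton.elim l 0]
      have h6 : (fun _ : Fin 1 => t 0) = t := by
        funext l
        rw [Subsingleton.elim l 0]
      rw [h5, h6, ← elim_comp] at h4
      exact (hgu' _).1 h4 i
    have h4 := tendsto_two (g i) (hlimn M0 (le_refl M0) s) (hlimn M0 (le_refl M0) t)
    simp only [h2] at h4
    exact tendsto_nhds_unique h4 tendsto_const_nhds

end sep

end Pool.Agent.Q64.FS
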