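import Pool.Agent.Q64.FS.Unv

/-!
Zariski-dense flat sequences on surfaces and special varieties.
-/

set_option autoImplicit false

namespace Pool.Agent.Q64.FS

open MvPolynomial Filter Topology Pool.Agent.Q64.LC Pool.Agent.TH143.GT Pool.Agent.W602.GT
open Pool.Agent.W603.GR Pool.Agent.W603.PV FF

variable {n : ℕ} {p : Ideal (MvPolynomial (Fin (n + 1)) ℂ)} {Q : MvPolynomial (Fin (n + 1)) ℂ}
  {q : ℕ}

/-- The sequence is Zariski dense in the variety of `p`. -/
def SeqDense (k : Subfield ℂ) (p : Ideal (MvPolynomial (Fin (n + 1)) ℂ))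
    (x : ℕ → Fin (n + 1) → k) : Prop :=
  ∀ G : MvPolynomial (Fin (n + 1)) ℂ, IsForm G → (∀ m, eval (fun j => (x m j : ℂ)) G = 0) → G ∈ p

/-- a dense sequence is not contained in a polynomial curve on a surface -/
theorem not_seqInPoly {K : Type} [Field K] [Algebra ℂ K] {y : Fin (n + 1) → K}
    (hy : FunField p Q K 2 y) {k : Subfield ℂ} {x : ℕ → Fin (n + 1) → k} (hd : SeqDense k p x) :
    ¬ SeqInPoly k p Q x := by
  rintro ⟨T, hT, hTG⟩
  have h3 := dense_dim hy hT fun G hG hG0 => hd G hG (hTG G hG hG0)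
  omega

/-- a transcendental function is not constant along a dense sequence -/
theorem ncs_of_dense {K : Type} [Field K] [Algebra ℂ K] {w : ℕ} {y : Fin (n + 1) → K}
    (hy : FunField p Q K w y) {k : Subfield ℂ} {x : ℕ → Fin (n + 1) → k} (hd : SeqDense k p x)
    {d : ℕ} {g1 g0 : MvPolynomial (Fin (n + 1)) ℂ} (h1 : g1.IsHomogeneous d)
    (h0 : g0.IsHomogeneous d) (hg0 : g0 ∉ p)
    (hr : ∀ c : ℂ, W602.GT.val y g1 / W602.GT.val y g0 ≠ algebraMap ℂ K c) :
    ¬ SeqConst k g1 g0 x := by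
  intro hno
  obtain ⟨t, ht⟩ : ∃ t, eval (fun j => (x t j : ℂ)) g0 ≠ 0 := by
    by_contra h2
    push Not at h2
    exact hg0 (hd g0 ⟨d, h0⟩ h2)
  set α := eval (fun j => (x t j : ℂ)) g0 with hα
  set β := eval (fun j => (x t j : ℂ)) g1 with hβ
  have h2 : (C α * g1 - C β * g0).IsHomogeneous d := by
    have e1 := (isHomogeneous_C (Fin (n + 1)) α).mul h1
    have e2 := (isHomogeneous_C (Fin (n + 1)) β).mul h0
    rw [zero_add] at e1 e2
    exact e1.sub e2
  have h3 := hy.sub.mem _ (hd _ ⟨d, h2⟩ fun s => by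
    rw [map_sub, map_mul, map_mul, eval_C, eval_C]
    have := hno s t
    linear_combination this)
  have hv0 : W602.GT.val y g0 ≠ 0 := fun h4 => hg0 (hy.mem g0 ⟨d, h0⟩ h4)
  apply hr (β / α)
  have h4 : algebraMap ℂ K α * W602.GT.val y g1 = algebraMap ℂ K β * W602.GT.val y g0 := by
    have h5 : W602.GT.val y (C α * g1 - C β * g0) =
        algebraMap ℂ K α * W602.GT.val y g1 - algebraMap ℂ K β * W602.GT.val y g0 := by
      unfold W602.GT.val
      rw [map_sub, map_mul, map_mul, aeval_C, aeval_C]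
    rw [h5] at h3
    exact sub_eq_zero.1 h3
  have hα' : algebraMap ℂ K α ≠ 0 := by
    rw [Ne, map_eq_zero_iff _ (algebraMap ℂ K).injective]
    exact ht
  rw [map_div₀, div_eq_div_iff hv0 hα', mul_comm, h4]

/-- **The universal bound and special surfaces.** -/
theorem flat_special (k : Subfield ℂ) [Countable k] {F : Type} [NormedField F] [ProperSpace F]
    [CharZero F] (σ : k →+* F) : ∃ ε : ℕ → ℝ, (∀ s, 0 < ε s) ∧
    ∀ (n : ℕ) (p : Ideal (MvPolynomial (Fin (n + 1)) ℂ))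
      (Q : MvPolynomial (Fin (n + 1)) ℂ) (q : ℕ), IsHomog p → Q.IsHomogeneous q →
      OverK k p → CoeffK k Q →
      ∀ (K : Type) [Field K] [Algebra ℂ K] (y : Fin (n + 1) → K), FunField p Q K 2 y →
      ∀ x : ℕ → Fin (n + 1) → k, SeqIn k p Q x → FlatAt σ ε x →
        (SeqDense k p x → Special ℂ K 2 (OffQ Q q y)) ∧
        (∀ (d : ℕ) (g1 g0 : MvPolynomial (Fin (n + 1)) ℂ), g1.IsHomogeneous d →
          g0.IsHomogeneous d → CoeffK k g1 → CoeffK k g0 → g0 ∉ p →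
          SheafQuot K 2 (OffQ Q q y) (W602.GT.val y g1 / W602.GT.val y g0) →
          SeqInPoly k p Q x ∨ SeqConst k g1 g0 x) ∧
        (NonNeg Q q 2 y → SeqInPoly k p Q x) := by
  classical
  -- the enumeration of the pairs of forms over `k`
  have henum : ∀ n : ℕ, ∃ e : ℕ → MvPolynomial (Fin (n + 1)) k × MvPolynomial (Fin (n + 1)) k,
      Function.Surjective e := fun n => exists_surjective_nat _
  choose e he using henum
  let G1 : ∀ n : ℕ, ℕ → MvPolynomial (Fin (n + 1)) ℂ := fun n i =>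
    MvPolynomial.map k.subtype (e n i).1
  let G0 : ∀ n : ℕ, ℕ → MvPolynomial (Fin (n + 1)) ℂ := fun n i =>
    MvPolynomial.map k.subtype (e n i).2
  -- one quotient
  have hN : ∀ (n : ℕ) (p : Ideal (MvPolynomial (Fin (n + 1)) ℂ))
      (Q : MvPolynomial (Fin (n + 1)) ℂ) (g1 g0 : MvPolynomial (Fin (n + 1)) ℂ),
      OverK k p → CoeffK k Q → QuotData p Q 2 g1 g0 →
      GoodS k σ p Q fun x => SeqInPoly k p Q x ∨ SeqConst k g1 g0 x := by
    rintro n p Q g1 g0 hpk hQk ⟨hp, q, d, K, i1, i2, y, hQ, h1, h0, hg0, hy, hr⟩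
    refine good_nct k σ hpk hQk h1 h0 fun m => ?_
    obtain ⟨G, hG, hGp, hGT⟩ := flat_main hy h1 h0 hg0 (hr.polyFlat hy hQ) m
    exact finite_classes hy (NCT g1 g0) hG hGp fun T hT hd hN => hGT T hT hd (nct_along hN)
  obtain ⟨ε, h1, h2⟩ := universalS k σ (ι := ℕ)
    (fun i n p Q x => (QuotData p Q 2 (G1 n i) (G0 n i) →
        SeqInPoly k p Q x ∨ SeqConst k (G1 n i) (G0 n i) x) ∧
      (((IsHomog p ∧ ∃ (q : ℕ) (K : Type) (_ : Field K) (_ : Algebra ℂ K) (y : Fin (n + 1) → K),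
          Q.IsHomogeneous q ∧ FunField p Q K 2 y ∧ ¬ Special ℂ K 2 (OffQ Q q y)) →
          ¬ SeqDense k p x) ∧
      ((IsHomog p ∧ ∃ (q : ℕ) (K : Type) (_ : Field K) (_ : Algebra ℂ K) (y : Fin (n + 1) → K),
          Q.IsHomogeneous q ∧ FunField p Q K 2 y ∧ NonNeg Q q 2 y) →
          SeqInPoly k p Q x)))
    (by
      intro i n p Q hpk hQk
      refine GoodS.and ?_ (GoodS.and ?_ ?_)
      · by_cases h : QuotData p Q 2 (G1 n i) (G0 n i)
        · exact (hN n p Q _ _ hpk hQk h).mono fun x _ hx _ => hx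
        · exact GoodS.of_forall fun x _ h3 => absurd h3 h
      · by_cases h : IsHomog p ∧ ∃ (q : ℕ) (K : Type) (_ : Field K) (_ : Algebra ℂ K)
            (y : Fin (n + 1) → K), Q.IsHomogeneous q ∧ FunField p Q K 2 y ∧
              ¬ Special ℂ K 2 (OffQ Q q y)
        · obtain ⟨hp, q, K, i1, i2, y, hQ, hy, hns⟩ := h
          obtain ⟨r, hr, hrc⟩ := exists_quot hns
          obtain ⟨d, g1, g0, h1, h0, hv0, rfl⟩ := exists_frac hy.sub.gen r
          have hg0 : g0 ∉ p := fun h2 => hv0 (hy.sub.mem g0 h2)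
          refine (hN n p Q g1 g0 hpk hQk ⟨hp, q, d, K, i1, i2, y, hQ, h1, h0, hg0, hy, hr⟩).mono
            fun x _ hx _ hd => ?_
          rcases hx with hx | hx
          · exact not_seqInPoly hy hd hx
          · exact ncs_of_dense hy hd h1 h0 hg0 hrc hx
        · exact GoodS.of_forall fun x _ h3 => absurd h3 h
      · by_cases h : IsHomog p ∧ ∃ (q : ℕ) (K : Type) (_ : Field K) (_ : Algebra ℂ K)
            (y : Fin (n + 1) → K), Q.IsHomogeneous q ∧ FunField p Q K 2 y ∧ NonNeg Q q 2 y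
        · obtain ⟨hp, q, K, i1, i2, y, hQ, hy, hnn⟩ := h
          exact (good_fin k σ hpk hQk fun m => hnn.finCl hy hQ m).mono fun x _ hx _ => hx
        · exact GoodS.of_forall fun x _ h3 => absurd h3 h)
  refine ⟨ε, h1, fun n p Q q hp hQ hpk hQk K _ _ y hy x hx hfl => ⟨fun hd => ?_,
    fun d g1 g0 hg1 hg0 hk1 hk0 hg0p hr => ?_, fun hnn => ?_⟩⟩
  · by_contra hns
    exact (h2 n p Q hpk hQk x hx hfl 0).2.1 ⟨hp, q, K, _, _, y, hQ, hy, hns⟩ hd
  · obtain ⟨k1, hk1⟩ := hk1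
    obtain ⟨k0, hk0⟩ := hk0
    obtain ⟨i, hi⟩ := he n (k1, k0)
    have e1 : G1 n i = g1 := by rw [hk1]; simp only [G1, hi]
    have e0 : G0 n i = g0 := by rw [hk0]; simp only [G0, hi]
    have h4 := (h2 n p Q hpk hQk x hx hfl i).1
    rw [e1, e0] at h4
    exact h4 ⟨hp, q, d, K, _, _, y, hQ, hg1, hg0, hg0p, hy, hr⟩
  · exact (h2 n p Q hpk hQk x hx hfl 0).2.2 ⟨hp, q, K, _, _, y, hQ, hy, hnn⟩

end Pool.Agent.Q64.FS
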