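import Pool.Agent.Q64.FS.Sp2
import Pool.Agent.Q64.FS.Sur
import Pool.Agent.Q64.LC.Spl

/-!
One bound for countably many conditions on the flat sequences of points over a countable field.
-/

set_option autoImplicit false

namespace Pool.Agent.Q64.FS

open MvPolynomial Filter Topology Pool.Agent.Q64.LC Pool.Agent.TH143.GT Pool.Agent.W602.GT
open Pool.Agent.W603.GR Pool.Agent.W603.PV

variable {n : ℕ}

/-- The vectors `x m` over `k` are homogeneous coordinates of points of the variety of `p`, not all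
of them equal, and `Q` has a constant nonzero value on them. -/
structure SeqIn (k : Subfield ℂ) (p : Ideal (MvPolynomial (Fin (n + 1)) ℂ))
    (Q : MvPolynomial (Fin (n + 1)) ℂ) (x : ℕ → Fin (n + 1) → k) : Prop where
  mem : ∀ m, ∀ H ∈ p, eval (fun j => (x m j : ℂ)) H = 0
  off : ∃ c : ℂ, c ≠ 0 ∧ ∀ m, eval (fun j => (x m j : ℂ)) Q = c
  nc : ∃ s t j l, x s j * x t l ≠ x s l * x t j

/-- The condition `C` holds for all sufficiently flat sequences. -/
def GoodS (k : Subfield ℂ) {F : Type} [NormedField F] (σ : k →+* F)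
    (p : Ideal (MvPolynomial (Fin (n + 1)) ℂ)) (Q : MvPolynomial (Fin (n + 1)) ℂ)
    (C : (ℕ → Fin (n + 1) → k) → Prop) : Prop :=
  ∃ ε : ℕ → ℝ, (∀ s, 0 < ε s) ∧ ∀ x, SeqIn k p Q x → FlatAt σ ε x → C x

theorem FlatAt.le {L F : Type} [Field L] [NormedField F] {σ : L →+* F} {ε ε' : ℕ → ℝ}
    {x : ℕ → Fin n → L} (h : FlatAt σ ε x) (s₁ : ℕ) (hε : ∀ s, s₁ ≤ s → ε s ≤ ε' s) :
    FlatAt σ ε' x := by
  obtain ⟨s₀, hs⟩ := h
  exact ⟨max s₀ s₁, fun i hi j => (hs i ((le_max_left _ _).trans hi) j).trans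
    (hε i ((le_max_right _ _).trans hi))⟩

section

variable {k : Subfield ℂ} {F : Type} [NormedField F] {σ : k →+* F}
  {p : Ideal (MvPolynomial (Fin (n + 1)) ℂ)} {Q : MvPolynomial (Fin (n + 1)) ℂ}
  {C C' : (ℕ → Fin (n + 1) → k) → Prop}

theorem GoodS.mono (h : GoodS k σ p Q C) (h' : ∀ x, SeqIn k p Q x → C x → C' x) :
    GoodS k σ p Q C' := by
  obtain ⟨ε, h1, h2⟩ := h
  exact ⟨ε, h1, fun x hx hf => h' x hx (h2 x hx hf)⟩

theorem GoodS.and (h : GoodS k σ p Q C) (h' : GoodS k σ p Q C') :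
    GoodS k σ p Q fun x => C x ∧ C' x := by
  obtain ⟨ε, h1, h2⟩ := h
  obtain ⟨ε', h1', h2'⟩ := h'
  exact ⟨fun s => min (ε s) (ε' s), fun s => lt_min (h1 s) (h1' s), fun x hx hf =>
    ⟨h2 x hx (hf.le 0 fun s _ => min_le_left _ _),
      h2' x hx (hf.le 0 fun s _ => min_le_right _ _)⟩⟩

theorem GoodS.of_forall (h : ∀ x, SeqIn k p Q x → C x) : GoodS k σ p Q C :=
  ⟨fun _ => 1, fun _ => one_pos, fun x hx _ => h x hx⟩

end

/-- **Countably many conditions.** -/
theorem universalS (k : Subfield ℂ) [Countable k] {F : Type} [NormedField F] (σ : k →+* F)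
    {ι : Type} [Countable ι]
    (C : ι → ∀ (n : ℕ) (_ : Ideal (MvPolynomial (Fin (n + 1)) ℂ))
      (_ : MvPolynomial (Fin (n + 1)) ℂ), (ℕ → Fin (n + 1) → k) → Prop)
    (h : ∀ (i : ι) (n : ℕ) (p : Ideal (MvPolynomial (Fin (n + 1)) ℂ))
      (Q : MvPolynomial (Fin (n + 1)) ℂ), OverK k p → CoeffK k Q → GoodS k σ p Q (C i n p Q)) :
    ∃ ε : ℕ → ℝ, (∀ s, 0 < ε s) ∧ ∀ (n : ℕ) (p : Ideal (MvPolynomial (Fin (n + 1)) ℂ))
      (Q : MvPolynomial (Fin (n + 1)) ℂ), OverK k p → CoeffK k Q →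
      ∀ x, SeqIn k p Q x → FlatAt σ ε x → ∀ i, C i n p Q x := by
  choose ε0 hε0 hC using fun i : ι × Idx k => h i.1 i.2.1 (Ideal.span (MvPolynomial.map k.subtype ''
      (i.2.2.1 : Set (MvPolynomial (Fin (i.2.1 + 1)) k)))) (MvPolynomial.map k.subtype i.2.2.2)
      ⟨Ideal.span i.2.2.1, (Ideal.map_span _ _).symm⟩ ⟨_, rfl⟩
  obtain ⟨ε, h1, h2⟩ := exists_below ε0 hε0
  refine ⟨ε, h1, fun n p Q hp hQ x hx hf i => ?_⟩
  obtain ⟨s, rfl⟩ := exists_idx hp
  obtain ⟨Q₀, rfl⟩ := hQ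
  obtain ⟨s₁, h3⟩ := h2 (i, ⟨n, s, Q₀⟩)
  exact hC (i, ⟨n, s, Q₀⟩) x hx (hf.le s₁ h3)

/-- **Reduction** to prescribed initial terms. -/
theorem good_of_init (k : Subfield ℂ) [Countable k] {F : Type} [NormedField F] [CharZero F]
    (σ : k →+* F) (ι : F →+* ℂ) (hι : ι.comp σ = k.subtype)
    {p : Ideal (MvPolynomial (Fin (n + 1)) ℂ)} {Q : MvPolynomial (Fin (n + 1)) ℂ}
    (hp : OverK k p) (hQ : CoeffK k Q)
    (Cn : ((Fin 1 → ℕ) → Fin (n + 1) → F) → Prop)
    (h : ∀ (V : Set (MvPolynomial (Fin (n + 1)) F)) (D : ℕ), 1 ≤ D → (∀ P ∈ V, P.totalDegree ≤ D) →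
      ∀ (r : ℕ) (y : (Fin 1 → ℕ) → Fin (n + 1) → F),
      (∀ M c, r ≤ M → LevC ⊤ V r M y c → PolyCurve p Q (cur ι M c)) →
      ∃ ε : ℕ → ℝ, (∀ s, 0 < ε s) ∧ ∀ b : (Fin 1 → ℕ) → Fin (n + 1) → F, FlatC ε b →
        (∀ m, ∀ P ∈ V, eval (nval b m) P = 0) →
        (∀ m : Fin 1 → ℕ, (∀ k, m k ≤ r) → nval b m = y m) → Cn b) :
    GoodS k σ p Q fun x => Cn fun i l => σ (arr x i l) := by
  classical
  obtain ⟨S, rfl⟩ := exists_idx hp
  obtain ⟨Q₀, rfl⟩ := hQ
  have hισ : ∀ a : k, ι (σ a) = (a : ℂ) := fun a => congrArg (fun f : k →+* ℂ => f a) hι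
  have hmm : ∀ (P : MvPolynomial (Fin (n + 1)) k) (u : Fin (n + 1) → F),
      eval (fun j => ι (u j)) (MvPolynomial.map k.subtype P) = ι (eval u (MvPolynomial.map σ P)) := by
    intro P u
    rw [← hι, ← MvPolynomial.map_map, eval_map']
  have hmk : ∀ (P : MvPolynomial (Fin (n + 1)) k) (u : Fin (n + 1) → k),
      eval (fun j => (u j : ℂ)) (MvPolynomial.map k.subtype P) = (eval u P : k) := fun P u =>
    eval_map' k.subtype u P
  let J : Type := k × (Σ r : ℕ, (Box 1 r → Fin (n + 1) → k))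
  have hJ : Countable J := inferInstance
  let Y : ∀ j : J, (Fin 1 → ℕ) → Fin (n + 1) → F := fun j m l =>
    if h : m ∈ Finset.Iic (fun _ : Fin 1 => j.2.1) then σ (j.2.2 ⟨m, h⟩ l) else 0
  let V : J → Finset (MvPolynomial (Fin (n + 1)) F) := fun j =>
    (insert (Q₀ - MvPolynomial.C j.1) S).image (MvPolynomial.map σ)
  have key : ∀ j : J, ∃ ε : ℕ → ℝ, (∀ s, 0 < ε s) ∧
      (j.1 ≠ 0 → (∃ (s t : Box 1 j.2.1) (a b : Fin (n + 1)),
        j.2.2 s a * j.2.2 t b ≠ j.2.2 s b * j.2.2 t a) →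
        ∀ b : (Fin 1 → ℕ) → Fin (n + 1) → F, FlatC ε b →
        (∀ m, ∀ P ∈ (V j : Set (MvPolynomial (Fin (n + 1)) F)), eval (nval b m) P = 0) →
        (∀ m : Fin 1 → ℕ, (∀ k, m k ≤ j.2.1) → nval b m = Y j m) → Cn b) := by
    intro j
    by_cases hyp : j.1 ≠ 0 ∧ (∃ (s t : Box 1 j.2.1) (a b : Fin (n + 1)),
        j.2.2 s a * j.2.2 t b ≠ j.2.2 s b * j.2.2 t a)
    · obtain ⟨hc, ⟨s, t, a, b, hst⟩⟩ := hyp
      have hpc : ∀ (M : ℕ) (c : (Fin 1 → ℕ) → Fin (n + 1) → F), j.2.1 ≤ M →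
          LevC ⊤ (V j : Set (MvPolynomial (Fin (n + 1)) F)) j.2.1 M (Y j) c →
          PolyCurve (Ideal.span (MvPolynomial.map k.subtype '' (S : Set (MvPolynomial (Fin (n + 1)) k))))
            (MvPolynomial.map k.subtype Q₀) (cur ι M c) := by
        intro M c hM hc'
        have hev : ∀ P ∈ insert (Q₀ - MvPolynomial.C j.1) S, ∀ m : ℕ,
            eval (fun l => ι (nval c (fun _ => m) l)) (MvPolynomial.map k.subtype P) = 0 := by
          intro P hP m
          rw [hmm, hc'.zero (Finset.mem_coe.2 (Finset.mem_image_of_mem _ hP)), map_zero]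
        have hval : ∀ (u : Box 1 j.2.1) (l : Fin (n + 1)),
            (cur ι M c l).eval (((u : Fin 1 → ℕ) 0 : ℕ) : ℂ) = (j.2.2 u l : ℂ) := by
          intro u l
          rw [cur_eval ι hc'.sup]
          have h3 : (fun _ : Fin 1 => (u : Fin 1 → ℕ) 0) = (u : Fin 1 → ℕ) := by
            funext l
            rw [Subsingleton.elim l 0]
          rw [h3, hc'.val _ (Finset.mem_Iic.1 u.2)]
          simp only [Y]
          rw [dif_pos u.2, hισ]
        refine ⟨fun H hH _ => ?_, ⟨(j.1 : ℂ), ?_, ?_⟩, ?_⟩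
        · rw [cur_van ι hc'.sup]
          intro m
          have hle : (Ideal.span (MvPolynomial.map k.subtype '' (S : Set (MvPolynomial (Fin (n + 1)) k)))) ≤
              RingHom.ker (eval fun l => ι (nval c (fun _ => m) l)) := by
            refine Ideal.span_le.2 ?_
            rintro _ ⟨P, hP, rfl⟩
            exact hev P (Finset.mem_insert_of_mem (Finset.mem_coe.1 hP)) m
          exact hle hH
        · exact fun h0 => hc (by exact_mod_cast h0)
        · have h3 : ∀ z : ℂ, eval (fun l => (cur ι M c l).eval z)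
              (MvPolynomial.map k.subtype (Q₀ - MvPolynomial.C j.1)) = 0 := by
            rw [cur_van ι hc'.sup]
            exact fun m => hev _ (Finset.mem_insert_self _ _) m
          intro z
          have h4 := h3 z
          rw [map_sub, map_sub, map_C, eval_C, sub_eq_zero] at h4
          exact h4
        · refine ⟨(((s : Fin 1 → ℕ) 0 : ℕ) : ℂ), (((t : Fin 1 → ℕ) 0 : ℕ) : ℂ), a, b,
            fun h0 => hst ?_⟩
          rw [hval, hval, hval, hval] at h0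
          exact_mod_cast h0
      obtain ⟨ε, h1, h2⟩ := h (V j : Set (MvPolynomial (Fin (n + 1)) F))
        (max 1 ((V j).sup totalDegree)) (le_max_left _ _)
        (fun P hP => (Finset.le_sup (f := totalDegree)
          (Finset.mem_coe.1 hP)).trans (le_max_right _ _)) j.2.1 (Y j) hpc
      exact ⟨ε, h1, fun _ _ => h2⟩
    · exact ⟨fun _ => 1, fun _ => one_pos, fun g1 g2 => absurd ⟨g1, g2⟩ hyp⟩
  choose ε0 hε0 hkey using key
  obtain ⟨ε, hε, hbel⟩ := exists_below ε0 hε0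
  refine ⟨ε, hε, fun x hx hfl => ?_⟩
  obtain ⟨c, hc, hxQ⟩ := hx.off
  obtain ⟨s, t, a, b, hst⟩ := hx.nc
  let r := max s t
  have hbs : (fun _ : Fin 1 => s) ∈ Finset.Iic (fun _ : Fin 1 => r) :=
    Finset.mem_Iic.2 fun _ => le_max_left _ _
  have hbt : (fun _ : Fin 1 => t) ∈ Finset.Iic (fun _ : Fin 1 => r) :=
    Finset.mem_Iic.2 fun _ => le_max_right _ _
  let j : J := ⟨eval (x 0) Q₀, r, fun m l => x (m.1 0) l⟩
  have hQm : ∀ m, eval (x m) Q₀ = eval (x 0) Q₀ := by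
    intro m
    have h1 := hxQ m
    rw [hmk, ← hxQ 0, hmk] at h1
    exact_mod_cast h1
  have hval : ∀ m, (nval (fun i l => σ (arr x i l)) m) = fun l => σ (x (m 0) l) := by
    intro m
    funext l
    rw [map_nval, nval_arr]
  obtain ⟨s₁, hs₁⟩ := hbel j
  refine hkey j (fun h0 => hc (by rw [← hxQ 0, hmk]; exact_mod_cast h0))
    ⟨⟨_, hbs⟩, ⟨_, hbt⟩, a, b, hst⟩ (fun i l => σ (arr x i l)) ((flatC_arr hfl).mono s₁ hs₁)
    (fun m P hP => ?_) (fun m hm => ?_)
  · obtain ⟨P₀, hP₀, rfl⟩ := Finset.mem_image.1 (Finset.mem_coe.1 hP)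
    rw [hval, eval_map']
    rcases Finset.mem_insert.1 hP₀ with rfl | h1
    · rw [map_sub, eval_C]
      have : eval (x (m 0)) Q₀ = j.1 := hQm _
      change σ (eval (x (m 0)) Q₀ - _) = 0
      rw [this, sub_self, map_zero]
    · have h2 := hx.mem (m 0) (MvPolynomial.map k.subtype P₀) (Ideal.subset_span ⟨P₀, h1, rfl⟩)
      rw [hmk] at h2
      have h3 : eval (x (m 0)) P₀ = 0 := by exact_mod_cast h2
      rw [h3, map_zero]
  · rw [hval]
    funext l
    have h5 : m ∈ Finset.Iic (fun _ : Fin 1 => r) := Finset.mem_Iic.2 hm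
    change σ (x (m 0) l) = if h : m ∈ Finset.Iic (fun _ : Fin 1 => r) then
      σ (x (m 0) l) else 0
    rw [dif_pos h5]

/-- The sequence `x` lies in the closure of a polynomial curve. -/
def SeqInPoly (k : Subfield ℂ) (p : Ideal (MvPolynomial (Fin (n + 1)) ℂ))
    (Q : MvPolynomial (Fin (n + 1)) ℂ) (x : ℕ → Fin (n + 1) → k) : Prop :=
  ∃ T : Fin (n + 1) → Polynomial ℂ, PolyCurve p Q T ∧ ∀ G, IsForm G →
    (∀ z : ℂ, eval (fun j => (T j).eval z) G = 0) → ∀ m, eval (fun j => (x m j : ℂ)) G = 0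

/-- The quotient `g1 / g0` is constant along the sequence. -/
def SeqConst (k : Subfield ℂ) (g1 g0 : MvPolynomial (Fin (n + 1)) ℂ)
    (x : ℕ → Fin (n + 1) → k) : Prop :=
  ∀ s t : ℕ, eval (fun j => (x s j : ℂ)) g1 * eval (fun j => (x t j : ℂ)) g0 =
    eval (fun j => (x t j : ℂ)) g1 * eval (fun j => (x s j : ℂ)) g0

theorem locComp_top {F : Type} [NormedField F] [ProperSpace F] : LocComp (⊤ : Subfield F) := by
  intro R
  have h1 : {x : F | x ∈ (⊤ : Subfield F) ∧ ‖x‖ ≤ R} = Metric.closedBall (0 : F) R := by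
    ext x
    rw [mem_closedBall_zero_iff]
    exact ⟨fun h => h.2, fun h => ⟨Subfield.mem_top x, h⟩⟩
  rw [h1]
  exact isCompact_closedBall _ _

/-- finitely many classes of curves -/
theorem good_fin (k : Subfield ℂ) [Countable k] {F : Type} [NormedField F] [ProperSpace F]
    [CharZero F] (σ : k →+* F) {p : Ideal (MvPolynomial (Fin (n + 1)) ℂ)}
    {Q : MvPolynomial (Fin (n + 1)) ℂ} (hp : OverK k p) (hQ : CoeffK k Q)
    (hfin : ∀ M, FinCl p Q M) : GoodS k σ p Q (SeqInPoly k p Q) := by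
  have hsep : SecondCountableTopology F := inferInstance
  obtain ⟨ι, hι⟩ := exists_emb_over σ k.subtype (card_le (X := F))
  have hισ : ∀ a : k, ι (σ a) = (a : ℂ) := fun a => congrArg (fun f : k →+* ℂ => f a) hι
  refine (good_of_init k σ ι hι hp hQ (fun b => ∃ T : Fin (n + 1) → Polynomial ℂ,
    PolyCurve p Q T ∧ ∀ G, IsForm G → (∀ z : ℂ, eval (fun j => (T j).eval z) G = 0) →
      ∀ m, eval (fun j => ι (nval b m j)) G = 0) fun V D hD hV r y hpc => ?_).mono
    fun x _ ⟨T, hT, hTG⟩ => ⟨T, hT, fun G hG hG0 m => ?_⟩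
  · obtain ⟨ε, h1, h2⟩ := flat_curve (locComp_top (F := F)) ι hD hV y hpc hfin
    exact ⟨ε, h1, fun b => h2 b fun i j => Subfield.mem_top _⟩
  · have h1 := hTG G hG hG0 fun _ => m
    have hval : (nval (fun i l => σ (arr x i l)) fun _ => m) = fun l => σ (x m l) := by
      funext l
      rw [map_nval, nval_arr]
    rw [hval] at h1
    simp only [hισ] at h1
    exact h1

/-- the dichotomy -/
theorem good_nct (k : Subfield ℂ) [Countable k] {F : Type} [NormedField F] [ProperSpace F]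
    [CharZero F] (σ : k →+* F) {p : Ideal (MvPolynomial (Fin (n + 1)) ℂ)}
    {Q : MvPolynomial (Fin (n + 1)) ℂ} (hp : OverK k p) (hQ : CoeffK k Q) {d : ℕ}
    {g1 g0 : MvPolynomial (Fin (n + 1)) ℂ} (hg1 : g1.IsHomogeneous d) (hg0 : g0.IsHomogeneous d)
    (hfin : ∀ M, FinClR p Q M (NCT g1 g0)) :
    GoodS k σ p Q fun x => SeqInPoly k p Q x ∨ SeqConst k g1 g0 x := by
  have hsep : SecondCountableTopology F := inferInstance
  obtain ⟨ι, hι⟩ := exists_emb_over σ k.subtype (card_le (X := F))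
  have hισ : ∀ a : k, ι (σ a) = (a : ℂ) := fun a => congrArg (fun f : k →+* ℂ => f a) hι
  refine (good_of_init k σ ι hι hp hQ (fun b => (∃ T : Fin (n + 1) → Polynomial ℂ,
    PolyCurve p Q T ∧ ∀ G, IsForm G → (∀ z : ℂ, eval (fun j => (T j).eval z) G = 0) →
      ∀ m, eval (fun j => ι (nval b m j)) G = 0) ∨
      ∀ s t, eval (fun j => ι (nval b s j)) g1 * eval (fun j => ι (nval b t j)) g0 =
        eval (fun j => ι (nval b t j)) g1 * eval (fun j => ι (nval b s j)) g0)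
      fun V D hD hV r y hpc => ?_).mono fun x _ hx => ?_
  · obtain ⟨ε, h1, h2⟩ := flat_curveN (locComp_top (F := F)) ι hD hV y hpc hg1 hg0 hfin
    exact ⟨ε, h1, fun b => h2 b fun i j => Subfield.mem_top _⟩
  · have hval : ∀ m : ℕ, (nval (fun i l => σ (arr x i l)) fun _ => m) = fun l => σ (x m l) := by
      intro m
      funext l
      rw [map_nval, nval_arr]
    rcases hx with ⟨T, hT, hTG⟩ | h1
    · left
      refine ⟨T, hT, fun G hG hG0 m => ?_⟩
      have h1 := hTG G hG hG0 fun _ => m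
      rw [hval] at h1
      simp only [hισ] at h1
      exact h1
    · right
      intro s t
      have h2 := h1 (fun _ => s) fun _ => t
      rw [hval, hval] at h2
      simp only [hισ] at h2
      exact h2

end Pool.Agent.Q64.FS
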